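import Pool.Agent.H88.TX.Def

/-! # [H88 TY ARXE] (explicit exponent; copy of TX/Arx by helper55) `H12.A3.arrs` with polynomial constants

Copy the proofs of `Pool.Agent.H12.A3.arr0s` and `arrs` (H12/A3/Arr2.lean; everything they use but `nlp` and `few` is public and imported),
with `nlp` replaced by `h1 D B A C₁` (constants `C₃, C, K₀ ≤ D^κ₁`) and `few` by `h2 (D^(κ₁+1)) B C C₃ κ₀` (`D^(κ₁+1) ≥ D`, so
`C' ≤ D^((κ₁+1) κ₂)`). Final constants as in `arr0s`: `1 + 72 n κ₀ C' + 2 n²` with `κ₀ = 6 C + 1 ≤ 7 D^κ₁`, and `K₀ + 6 C + 1`: at most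
`P(n) D^(κ₁ + (κ₁+1) κ₂) ≤ D^κ` (`P(n) ≤ 2^k ≤ D^k`). (If `Lean` is slow on the long proof, keep its steps as they are.) -/

namespace Pool.Agent.H88.TY

open Finset Polynomial Pool.Agent.H8.AA Pool.Agent.H88.A2 Pool.Agent.H88.TU Pool.Agent.H12.A3 Pool.Agent.H88.TX

open Pool.Agent.H42.AA in
/-- the array theorem without logarithm, with given constants -/
private theorem arr0x (n : ℕ) (B A C₁ : ℝ) (C₃ C K₀ : ℝ) (hB : 1 ≤ B) (hC₃ : 1 ≤ C₃) (hC : 1 ≤ C) (hK₀ : 1 ≤ K₀)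
    (hnlp : ∀ (e : ℕ → ℕ → ℤ) (H : ℕ), 1 ≤ H → Tp n B H e → Gd n (B / A) e →
      (∀ x y : ℤ, Pt n e H C₁ K₀ x y → ∃ θ : ℝ, aeval θ (fm e n) = 0 ∧ |y - θ * x| ≤ C₃ * H ∧ |θ| ≤ 2) ∧
      (∀ (x y x' y' : ℤ) (θ : ℝ), Pt n e H C₁ K₀ x y → Pt n e H C₁ K₀ x' y' → aeval θ (fm e n) = 0 → |θ| ≤ 2 →
        |y - θ * x| ≤ C₃ * H → |y' - θ * x'| ≤ C₃ * H →
        |(y - θ * x) - (y' - θ * x')| ≤ C * (H ^ 2 * |1 / (x : ℝ) - 1 / x'| + H * (1 / |(x : ℝ)| + 1 / |(x' : ℝ)|))))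
    (κ₀ : ℝ) (hκ₀ : κ₀ = 6 * C + 1) (C' : ℕ) (hC'1 : 1 ≤ C')
    (hfew : ∀ (e : ℕ → ℕ → ℤ) (H : ℕ) (θ : ℝ), 1 ≤ H → |(e 0 n : ℝ)| ≤ B → (∀ b < n, |(e 0 b : ℝ)| ≤ B * H) → Nz n e →
      ∀ S : Finset (ℤ × ℤ), (∀ P ∈ S, ∃ v, Hv θ κ₀ (6 * C) H (C' * H) P v) → (∀ P ∈ S, |(P.2 : ℝ) - θ * P.1| ≤ C₃ * H) →
      (∀ P ∈ S, ∀ Q ∈ S, Nd θ C H P Q) → (∀ P ∈ S, ∀ Q ∈ S, 0 < P.1 * Q.1) →
      (∀ P ∈ S, ∀ Q ∈ S, |(P.1 : ℝ)| ≤ 2 * H ^ 2 * |(Q.1 : ℝ)|) →
      (∀ P ∈ S, |ev n e P.1 P.2| ≤ (H : ℤ)) → S.card < n ∨ n = 0 ∨ S.card = 0) :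
    ∀ (e : ℕ → ℕ → ℤ) (H : ℕ) (U : ℝ), 1 ≤ H → 1 ≤ U → Tp n B H e → Gd n (B / A) e → Nz n e →
    ∃ L : Finset (ℤ × ℤ), (L.card : ℝ) ≤ (1 + 72 * n * κ₀ * C' + 2 * n ^ 2) *
      (H ^ 2 * (1 + Real.log U / Real.log (2 * H)) + H * √H * (1 + Real.log U)) ∧
    ∀ e' : ℕ → ℕ → ℤ, Nz n e' → |(e' 0 n : ℝ)| ≤ B → (∀ b < n, |(e' 0 b : ℝ)| ≤ B * H) → ∀ S : Finset (ℤ × ℤ),
    (∀ P ∈ S, Pt n e H C₁ (K₀ + 6 * C + 1) P.1 P.2 ∧ |(P.1 : ℝ)| ≤ U ∧ P ∉ L ∧ |ev n e' P.1 P.2| ≤ (H : ℤ)) →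
    (S.card : ℝ) ≤ (1 + 72 * n * κ₀ * C' + 2 * n ^ 2) * (1 + Real.log U / Real.log (2 * H ^ 2)) := by
  classical
  have hκ1 : 1 ≤ κ₀ := by rw [hκ₀]; linarith
  have hn0 : (0 : ℝ) ≤ n := Nat.cast_nonneg n
  intro e H U hH hU hT hG hz
  have hH' : (1 : ℝ) ≤ (H : ℝ) := by exact_mod_cast hH
  have hH0 : (0 : ℝ) < (H : ℝ) := by linarith
  have hκH : 0 < κ₀ * H := by positivity
  obtain ⟨hn1, hn2⟩ := hnlp e H hH hT hG
  obtain ⟨K, hK⟩ : ∃ K : ℝ, K = K₀ + 6 * C + 1 := ⟨_, rfl⟩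
  rw [← hK]
  have hKK : K₀ ≤ K := by rw [hK]; linarith
  have hK6 : 6 * C < K := by rw [hK]; linarith
  have he0 : e 0 n ≠ 0 := nz_top hz
  -- the points
  obtain ⟨T, hTdef⟩ : ∃ T : Finset (ℤ × ℤ), T = ((Icc (-⌊U⌋) ⌊U⌋) ×ˢ (Icc (-⌊U⌋) ⌊U⌋)).filter
      (fun P => Pt n e H C₁ K P.1 P.2 ∧ |(P.1 : ℝ)| ≤ U) := ⟨_, rfl⟩
  have hTm : ∀ P : ℤ × ℤ, P ∈ T ↔ Pt n e H C₁ K P.1 P.2 ∧ |(P.1 : ℝ)| ≤ U := by
    intro P
    rw [hTdef, mem_filter]
    constructor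
    · exact fun h => h.2
    · intro h
      refine ⟨?_, h⟩
      have h1 : |P.1| ≤ ⌊U⌋ := by
        rw [Int.le_floor, Int.cast_abs]
        exact h.2
      have h2 : |P.2| ≤ ⌊U⌋ := h.1.1.trans h1
      rw [mem_product, mem_Icc, mem_Icc]
      exact ⟨abs_le.1 h1, abs_le.1 h2⟩
  have hrt : ∀ P : ℤ × ℤ, ∃ θ : ℝ, P ∈ T → aeval θ (fm e n) = 0 ∧ |(P.2 : ℝ) - θ * P.1| ≤ C₃ * H ∧ |θ| ≤ 2 := by
    intro P
    by_cases hP : P ∈ T
    · obtain ⟨θ, h⟩ := hn1 P.1 P.2 (((hTm P).1 hP).1.mono hKK)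
      exact ⟨θ, fun _ => h⟩
    · exact ⟨0, fun h => absurd h hP⟩
  choose rt hrt using hrt
  have hx0 : ∀ P ∈ T, P.1 ≠ 0 := by
    intro P hP h
    have h1 := ((hTm P).1 hP).1.2.1
    rw [h] at h1
    simp only [Int.cast_zero, abs_zero] at h1
    have : 0 < K * H := by
      have : 0 < K := by linarith
      positivity
    linarith
  -- the classes
  obtain ⟨k1, hk1⟩ : ∃ k1 : ℤ × ℤ → ℝ × Bool × ℕ × ℕ, k1 = fun P => (rt P, decide (0 < P.1), sc P.1, wi (κ₀ * H) P.1) := ⟨_, rfl⟩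
  obtain ⟨k2, hk2⟩ : ∃ k2 : ℤ × ℤ → ℝ × Bool × ℕ, k2 = fun P => (rt P, decide (0 < P.1), Nat.log (2 * H ^ 2) P.1.natAbs) := ⟨_, rfl⟩
  obtain ⟨k3, hk3⟩ : ∃ k3 : ℤ × ℤ → ℝ × Bool × ℕ, k3 = fun P => (rt P, decide (0 < P.1), Nat.log (2 * H) P.1.natAbs) := ⟨_, rfl⟩
  obtain ⟨R1, hR1⟩ : ∃ R1 : ℕ, R1 = 3 * (Nat.sqrt H + 1) := ⟨_, rfl⟩
  have hR9 : 9 * H ≤ R1 ^ 2 := by
    have h1 := Nat.sqrt_lt' (m := H) (n := Nat.sqrt H + 1) |>.1 (Nat.lt_succ_self _)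
    rw [hR1, mul_pow]
    omega
  have hR11 : 1 ≤ R1 := by rw [hR1]; omega
  have hR1u : (R1 : ℝ) ≤ 6 * √H := by
    have h1 : ((Nat.sqrt H : ℕ) : ℝ) ≤ √H := by
      apply Real.le_sqrt_of_sq_le
      exact_mod_cast Nat.sqrt_le' H
    have h2 : (1 : ℝ) ≤ √H := by
      rw [Real.one_le_sqrt]
      exact hH'
    rw [hR1]
    push_cast
    linarith
  obtain ⟨L1, hL1⟩ : ∃ L : Finset (ℤ × ℤ), L = T.filter (fun P => (T.filter (fun Q => k1 Q = k1 P)).card ≤ R1) := ⟨_, rfl⟩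
  obtain ⟨L2, hL2⟩ : ∃ L : Finset (ℤ × ℤ), L = T.filter (fun P => R1 < (T.filter (fun Q => k1 Q = k1 P)).card ∧
      ¬ ∃ v, Hv (rt P) κ₀ (6 * C) H (C' * H) P v) := ⟨_, rfl⟩
  have hL1T : L1 ⊆ T := by rw [hL1]; exact filter_subset _ _
  have hL2T : L2 ⊆ T := by rw [hL2]; exact filter_subset _ _
  have hNd : ∀ P ∈ T, ∀ Q ∈ T, rt P = rt Q → Nd (rt P) C H P Q := by
    intro P hP Q hQ h
    have hp := (hTm P).1 hP
    have hq := (hTm Q).1 hQ
    obtain ⟨a1, a2, a3⟩ := hrt P hP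
    obtain ⟨b1, b2, b3⟩ := hrt Q hQ
    rw [← h] at b2
    exact hn2 P.1 P.2 Q.1 Q.2 (rt P) (hp.1.mono hKK) (hq.1.mono hKK) a1 a3 a2 b2
  have hlog : 0 ≤ Real.log U := Real.log_nonneg hU
  -- the points of small windows
  have hL1c : (L1.card : ℝ) ≤ 72 * n * κ₀ * (H * √H * (1 + Real.log U)) := by
    have h1 : L1.card ≤ R1 * (L1.image k1).card := by
      refine card_le_mul_card_image L1 R1 ?_
      intro a ha
      obtain ⟨P, hP, rfl⟩ := mem_image.1 ha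
      have hP' := hP
      rw [hL1, mem_filter] at hP'
      refine le_trans (card_le_card ?_) hP'.2
      intro Q hQ
      rw [mem_filter] at hQ ⊢
      exact ⟨hL1T hQ.1, hQ.2⟩
    have h2 : L1.image k1 ⊆ rts n e ×ˢ ((univ : Finset Bool) ×ˢ (range (⌊2 * Real.log U⌋₊ + 1) ×ˢ range (⌊κ₀ * H⌋₊ + 1))) := by
      intro a ha
      obtain ⟨P, hP, rfl⟩ := mem_image.1 ha
      have hPT := hL1T hP
      have hx := hx0 P hPT
      have hPU := ((hTm P).1 hPT).2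
      have g1 := sc_le hx
      have g2 := lt_sc P.1
      rw [hk1]
      simp only [mem_product, mem_univ, true_and, mem_range]
      refine ⟨mem_rts he0 (hrt P hPT).1, ?_, ?_⟩
      · rw [Nat.lt_succ_iff]
        apply Nat.le_floor
        have h8 : (2 : ℝ) ^ sc P.1 ≤ U := g1.trans hPU
        have h9 : (sc P.1 : ℝ) * Real.log 2 ≤ Real.log U := by
          have h10 := Real.log_le_log (by positivity) h8
          rw [Real.log_pow] at h10
          exact h10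
        have h11 : (1 : ℝ) / 2 ≤ Real.log 2 := by
          have := Real.log_two_gt_d9
          linarith
        have h12 : (0 : ℝ) ≤ (sc P.1 : ℝ) := Nat.cast_nonneg _
        nlinarith
      · rw [Nat.lt_succ_iff]
        unfold wi
        apply Nat.floor_le_floor
        have hX0 : (0 : ℝ) < 2 ^ sc P.1 := by positivity
        rw [div_le_iff₀ hX0]
        have h7 : |(P.1 : ℝ)| - 2 ^ sc P.1 ≤ 2 ^ sc P.1 := by linarith
        calc (|(P.1 : ℝ)| - 2 ^ sc P.1) * (κ₀ * H) ≤ 2 ^ sc P.1 * (κ₀ * H) := mul_le_mul_of_nonneg_right h7 hκH.le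
          _ = κ₀ * H * 2 ^ sc P.1 := by ring
    have h3 := card_le_card h2
    rw [card_product, card_product, card_product, card_range, card_range, card_univ, Fintype.card_bool] at h3
    have h4 : ((L1.image k1).card : ℝ) ≤ n * (2 * ((3 * (1 + Real.log U)) * (2 * (κ₀ * H)))) := by
      have h5 : ((L1.image k1).card : ℝ) ≤ (rts n e).card * (2 * (((⌊2 * Real.log U⌋₊ + 1 : ℕ) : ℝ) * ((⌊κ₀ * H⌋₊ + 1 : ℕ) : ℝ))) := by
        exact_mod_cast h3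
      refine h5.trans ?_
      have hb1 : ((⌊2 * Real.log U⌋₊ + 1 : ℕ) : ℝ) ≤ 3 * (1 + Real.log U) := by
        have h1 := Nat.floor_le (show (0 : ℝ) ≤ 2 * Real.log U by positivity)
        push_cast
        linarith
      have hb2 : ((⌊κ₀ * H⌋₊ + 1 : ℕ) : ℝ) ≤ 2 * (κ₀ * H) := by
        have h1 := Nat.floor_le hκH.le
        push_cast
        nlinarith
      have hb3 : ((rts n e).card : ℝ) ≤ n := by exact_mod_cast rts_card n e
      gcongr
    have h5 : (L1.card : ℝ) ≤ R1 * (L1.image k1).card := by exact_mod_cast h1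
    calc (L1.card : ℝ) ≤ R1 * (L1.image k1).card := h5
      _ ≤ (6 * √H) * (n * (2 * ((3 * (1 + Real.log U)) * (2 * (κ₀ * H))))) := mul_le_mul hR1u h4 (Nat.cast_nonneg _) (by positivity)
      _ = _ := by ring
  -- the direction of a window
  have hwin : ∀ P ∈ T, R1 < (T.filter (fun Q => k1 Q = k1 P)).card → ∃ v : ℤ × ℤ, IsCoprime v.1 v.2 ∧ v.1 ≠ 0 ∧
      |(v.1 : ℝ)| * (((T.filter (fun Q => k1 Q = k1 P)).card - 1 : ℕ) : ℝ) * (κ₀ * H) ≤ 2 ^ sc P.1 ∧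
      |(v.2 : ℝ) - rt P * v.1| * (((T.filter (fun Q => k1 Q = k1 P)).card - 1 : ℕ) : ℝ) * 2 ^ sc P.1 ≤ 3 * C * H := by
    intro P hPT hWc
    obtain ⟨W, hW⟩ : ∃ W : Finset (ℤ × ℤ), W = T.filter (fun Q => k1 Q = k1 P) := ⟨_, rfl⟩
    rw [← hW] at hWc ⊢
    have hWm : ∀ Q ∈ W, Q ∈ T ∧ rt Q = rt P ∧ decide (0 < Q.1) = decide (0 < P.1) ∧ sc Q.1 = sc P.1 ∧ wi (κ₀ * H) Q.1 = wi (κ₀ * H) P.1 := by
      intro Q hQ
      rw [hW, mem_filter, hk1] at hQ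
      simp only [Prod.mk.injEq] at hQ
      exact ⟨hQ.1, hQ.2.1, hQ.2.2.1, hQ.2.2.2.1, hQ.2.2.2.2⟩
    have hsg : ∀ Q ∈ W, ∀ Q' ∈ W, 0 < Q.1 * Q'.1 := by
      intro Q hQ Q' hQ'
      obtain ⟨a1, a2, a3, a4, a5⟩ := hWm Q hQ
      obtain ⟨b1, b2, b3, b4, b5⟩ := hWm Q' hQ'
      exact sign_of_kl (hx0 Q a1) (hx0 Q' b1) (a3.trans b3.symm)
    exact win C K κ₀ (rt P) ((2 : ℝ) ^ sc P.1) H (W.card - 1) W hH hC hK6 (by rw [hκ₀]; linarith)
      (fun Q hQ => ((hTm Q).1 (hWm Q hQ).1).1.2.1)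
      (fun Q hQ Q' hQ' => by
        obtain ⟨a1, a2, _⟩ := hWm Q hQ
        obtain ⟨b1, b2, _⟩ := hWm Q' hQ'
        have := hNd Q a1 Q' b1 (a2.trans b2.symm)
        rw [a2] at this
        exact this)
      (by positivity)
      (fun Q hQ => by
        obtain ⟨a1, a2, a3, a4, a5⟩ := hWm Q hQ
        rw [← a4]
        exact ⟨sc_le (hx0 Q a1), (lt_sc Q.1).le⟩)
      hsg
      (fun Q hQ Q' hQ' => by
        obtain ⟨a1, a2, a3, a4, a5⟩ := hWm Q hQ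
        obtain ⟨b1, b2, b3, b4, b5⟩ := hWm Q' hQ'
        have h0 : (0 : ℝ) < (Q.1 : ℝ) * (Q'.1 : ℝ) := by exact_mod_cast hsg Q hQ Q' hQ'
        rw [abs_sub_of_pos h0]
        have h1 := wi_close hκH (hx0 Q a1) (hx0 Q' b1) (a4.trans b4.symm) (a5.trans b5.symm)
        rw [a4] at h1
        exact h1)
      (by omega) (by omega)
  -- the other light points
  have hL2c : (L2.card : ℝ) ≤ 16 * C' * κ₀ * H ^ 2 * (n * (2 * (1 + Real.log U / Real.log (2 * H)))) := by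
    have hb : 1 < 2 * H := by omega
    have h1 : L2.card ≤ ⌊16 * C' * κ₀ * H ^ 2⌋₊ * (L2.image k3).card := by
      refine card_le_mul_card_image L2 _ ?_
      intro a ha
      obtain ⟨P, hP, rfl⟩ := mem_image.1 ha
      apply Nat.le_floor
      have hFm : ∀ Q ∈ L2.filter (fun Q => k3 Q = k3 P), Q ∈ L2 ∧ rt Q = rt P ∧ decide (0 < Q.1) = decide (0 < P.1) ∧
          Nat.log (2 * H) Q.1.natAbs = Nat.log (2 * H) P.1.natAbs := by
        intro Q hQ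
        rw [mem_filter, hk3] at hQ
        simp only [Prod.mk.injEq] at hQ
        exact ⟨hQ.1, hQ.2.1, hQ.2.2.1, hQ.2.2.2⟩
      refine cls1 C κ₀ (rt P) H R1 C' hH (by rw [hκ₀]; linarith) hC hC'1 hR9 _ (fun P => T.filter (fun Q => k1 Q = k1 P)) ?_ ?_ ?_ ?_ ?_ ?_
      · intro Q hQ
        exact hx0 Q (hL2T (hFm Q hQ).1)
      · intro Q hQ
        have h2 := (hFm Q hQ).1
        rw [hL2, mem_filter] at h2
        exact h2.2.1
      · intro Q hQ Q' hQ'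
        rw [mem_filter] at hQ' ⊢
        obtain ⟨a1, a2, a3, a4⟩ := hFm Q hQ
        obtain ⟨b1, b2, b3, b4⟩ := hFm Q' hQ'.1
        refine ⟨hL2T b1, ?_⟩
        rw [hk1]
        simp only [Prod.mk.injEq]
        exact ⟨b2.trans a2.symm, b3.trans a3.symm, hQ'.2.1, hQ'.2.2⟩
      · intro Q hQ
        obtain ⟨a1, a2, a3, a4⟩ := hFm Q hQ
        have h2 := a1
        rw [hL2, mem_filter] at h2
        have h3 := hwin Q h2.1 h2.2.1
        rw [a2] at h3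
        exact h3
      · intro Q hQ
        obtain ⟨a1, a2, a3, a4⟩ := hFm Q hQ
        have h2 := a1
        rw [hL2, mem_filter] at h2
        have h3 := h2.2.2
        rw [a2] at h3
        exact h3
      · intro Q hQ Q' hQ'
        obtain ⟨a1, a2, a3, a4⟩ := hFm Q hQ
        obtain ⟨b1, b2, b3, b4⟩ := hFm Q' hQ'
        have c1 : Q.1.natAbs < (2 * H) ^ (Nat.log (2 * H) Q.1.natAbs + 1) := Nat.lt_pow_succ_log_self hb _
        have c2 : (2 * H) ^ (Nat.log (2 * H) Q'.1.natAbs) ≤ Q'.1.natAbs :=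
          Nat.pow_log_le_self _ (Int.natAbs_ne_zero.2 (hx0 Q' (hL2T b1)))
        rw [a4, pow_succ] at c1
        rw [b4] at c2
        have c3 : Q.1.natAbs ≤ Q'.1.natAbs * (2 * H) := c1.le.trans (Nat.mul_le_mul_right _ c2)
        have c4 : (Q.1.natAbs : ℝ) ≤ (Q'.1.natAbs : ℝ) * (2 * H) := by exact_mod_cast c3
        rw [Nat.cast_natAbs, Nat.cast_natAbs] at c4
        push_cast at c4
        linarith
    have h2 : L2.image k3 ⊆ rts n e ×ˢ ((univ : Finset Bool) ×ˢ range (⌊Real.log U / Real.log (2 * H)⌋₊ + 1)) := by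
      intro a ha
      obtain ⟨P, hP, rfl⟩ := mem_image.1 ha
      have hPT := hL2T hP
      have hPU := ((hTm P).1 hPT).2
      rw [hk3]
      simp only [mem_product, mem_univ, true_and, mem_range]
      refine ⟨mem_rts he0 (hrt P hPT).1, ?_⟩
      rw [Nat.lt_succ_iff]
      apply Nat.le_floor
      have hlb : 0 < Real.log (2 * H) := Real.log_pos (by linarith)
      rw [le_div_iff₀ hlb]
      have c2 : (2 * H) ^ (Nat.log (2 * H) P.1.natAbs) ≤ P.1.natAbs :=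
        Nat.pow_log_le_self _ (Int.natAbs_ne_zero.2 (hx0 P hPT))
      have c3 : ((2 : ℝ) * H) ^ (Nat.log (2 * H) P.1.natAbs) ≤ U := by
        have : (((2 * H) ^ (Nat.log (2 * H) P.1.natAbs) : ℕ) : ℝ) ≤ (P.1.natAbs : ℝ) := by exact_mod_cast c2
        rw [Nat.cast_natAbs] at this
        push_cast at this
        exact this.trans hPU
      have c4 := Real.log_le_log (by positivity) c3
      rw [Real.log_pow] at c4
      exact c4
    have h3 := card_le_card h2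
    rw [card_product, card_product, card_range, card_univ, Fintype.card_bool] at h3
    have hlb : 0 < Real.log (2 * H) := Real.log_pos (by linarith)
    have hq : 0 ≤ Real.log U / Real.log (2 * H) := by positivity
    have h4 : ((L2.image k3).card : ℝ) ≤ n * (2 * (1 + Real.log U / Real.log (2 * H))) := by
      have h5 : ((L2.image k3).card : ℝ) ≤ (rts n e).card * (2 * ((⌊Real.log U / Real.log (2 * H)⌋₊ + 1 : ℕ) : ℝ)) := by
        exact_mod_cast h3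
      refine h5.trans ?_
      have hb1 : ((⌊Real.log U / Real.log (2 * H)⌋₊ + 1 : ℕ) : ℝ) ≤ 1 + Real.log U / Real.log (2 * H) := by
        have h1 := Nat.floor_le hq
        push_cast
        linarith
      have hb3 : ((rts n e).card : ℝ) ≤ n := by exact_mod_cast rts_card n e
      gcongr
    have h5 : (L2.card : ℝ) ≤ (⌊16 * C' * κ₀ * H ^ 2⌋₊ : ℝ) * (L2.image k3).card := by exact_mod_cast h1
    have h6 : (⌊16 * C' * κ₀ * H ^ 2⌋₊ : ℝ) ≤ 16 * C' * κ₀ * H ^ 2 := Nat.floor_le (by positivity)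
    exact h5.trans (mul_le_mul h6 h4 (Nat.cast_nonneg _) (by positivity))
  refine ⟨L1 ∪ L2, ?_, ?_⟩
  · have h1 : ((L1 ∪ L2).card : ℝ) ≤ L1.card + L2.card := by exact_mod_cast card_union_le L1 L2
    have hlb : 0 < Real.log (2 * H) := Real.log_pos (by linarith)
    have hq : 0 ≤ Real.log U / Real.log (2 * H) := by positivity
    have hC'r : (1 : ℝ) ≤ C' := by exact_mod_cast hC'1
    have h2 : 72 * n * κ₀ * (H * √H * (1 + Real.log U)) ≤ 72 * n * κ₀ * C' * (H * √H * (1 + Real.log U)) := by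
      refine mul_le_mul_of_nonneg_right ?_ (by positivity)
      exact le_mul_of_one_le_right (by positivity) hC'r
    have h3 : 16 * C' * κ₀ * H ^ 2 * (n * (2 * (1 + Real.log U / Real.log (2 * H)))) ≤ 72 * n * κ₀ * C' * (H ^ 2 * (1 + Real.log U / Real.log (2 * H))) := by
      have h4 : 0 ≤ n * κ₀ * C' * (H ^ 2 * (1 + Real.log U / Real.log (2 * H))) := by positivity
      calc 16 * C' * κ₀ * H ^ 2 * (n * (2 * (1 + Real.log U / Real.log (2 * H)))) = 32 * (n * κ₀ * C' * (H ^ 2 * (1 + Real.log U / Real.log (2 * H)))) := by ring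
        _ ≤ 72 * (n * κ₀ * C' * (H ^ 2 * (1 + Real.log U / Real.log (2 * H)))) := by linarith
        _ = _ := by ring
    calc ((L1 ∪ L2).card : ℝ) ≤ 72 * n * κ₀ * C' * (H ^ 2 * (1 + Real.log U / Real.log (2 * H)) + H * √H * (1 + Real.log U)) := by
          rw [mul_add]
          linarith
      _ ≤ _ := by
          refine mul_le_mul_of_nonneg_right ?_ (by positivity)
          nlinarith
  · intro e' hz' ht' hl' S hS
    have hST : ∀ P ∈ S, P ∈ T := fun P hP => (hTm P).2 ⟨(hS P hP).1, (hS P hP).2.1⟩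
    have hb : 1 < 2 * H ^ 2 := by nlinarith
    -- heavy points
    have hheavy : ∀ P ∈ S, ∃ v, Hv (rt P) κ₀ (6 * C) H (C' * H) P v := by
      intro P hP
      have hPT := hST P hP
      have hnL := (hS P hP).2.2.1
      rw [mem_union, not_or, hL1, hL2, mem_filter, mem_filter] at hnL
      by_contra hcon
      have h1 : R1 < (T.filter (fun Q => k1 Q = k1 P)).card := by
        by_contra h2
        push Not at h2
        exact hnL.1 ⟨hPT, h2⟩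
      exact hnL.2 ⟨hPT, h1, hcon⟩
    -- one class
    have h1 : S.card ≤ n * (S.image k2).card := by
      refine card_le_mul_card_image S n ?_
      intro a ha
      obtain ⟨P, hP, rfl⟩ := mem_image.1 ha
      obtain ⟨F, hF⟩ : ∃ F : Finset (ℤ × ℤ), F = S.filter (fun Q => k2 Q = k2 P) := ⟨_, rfl⟩
      rw [← hF]
      have hFm : ∀ Q ∈ F, Q ∈ S ∧ rt Q = rt P ∧ decide (0 < Q.1) = decide (0 < P.1) ∧
          Nat.log (2 * H ^ 2) Q.1.natAbs = Nat.log (2 * H ^ 2) P.1.natAbs := by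
        intro Q hQ
        rw [hF, mem_filter, hk2] at hQ
        simp only [Prod.mk.injEq] at hQ
        exact ⟨hQ.1, hQ.2.1, hQ.2.2.1, hQ.2.2.2⟩
      have key := hfew e' H (rt P) hH ht' hl' hz' F
        (fun Q hQ => by
          obtain ⟨a1, a2, a3, a4⟩ := hFm Q hQ
          obtain ⟨v, hv⟩ := hheavy Q a1
          rw [a2] at hv
          exact ⟨v, hv⟩)
        (fun Q hQ => by
          obtain ⟨a1, a2, a3, a4⟩ := hFm Q hQ
          have := (hrt Q (hST Q a1)).2.1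
          rwa [a2] at this)
        (fun Q hQ Q' hQ' => by
          obtain ⟨a1, a2, a3, a4⟩ := hFm Q hQ
          obtain ⟨b1, b2, b3, b4⟩ := hFm Q' hQ'
          have := hNd Q (hST Q a1) Q' (hST Q' b1) (a2.trans b2.symm)
          rw [a2] at this
          exact this)
        (fun Q hQ Q' hQ' => by
          obtain ⟨a1, a2, a3, a4⟩ := hFm Q hQ
          obtain ⟨b1, b2, b3, b4⟩ := hFm Q' hQ'
          exact sign_of_kl (hx0 Q (hST Q a1)) (hx0 Q' (hST Q' b1)) (a3.trans b3.symm))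
        (fun Q hQ Q' hQ' => by
          obtain ⟨a1, a2, a3, a4⟩ := hFm Q hQ
          obtain ⟨b1, b2, b3, b4⟩ := hFm Q' hQ'
          have c1 : Q.1.natAbs < (2 * H ^ 2) ^ (Nat.log (2 * H ^ 2) Q.1.natAbs + 1) := Nat.lt_pow_succ_log_self hb _
          have c2 : (2 * H ^ 2) ^ (Nat.log (2 * H ^ 2) Q'.1.natAbs) ≤ Q'.1.natAbs :=
            Nat.pow_log_le_self _ (Int.natAbs_ne_zero.2 (hx0 Q' (hST Q' b1)))
          rw [a4, pow_succ] at c1
          rw [b4] at c2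
          have c3 : Q.1.natAbs ≤ Q'.1.natAbs * (2 * H ^ 2) := c1.le.trans (Nat.mul_le_mul_right _ c2)
          have c4 : (Q.1.natAbs : ℝ) ≤ (Q'.1.natAbs : ℝ) * (2 * H ^ 2) := by exact_mod_cast c3
          rw [Nat.cast_natAbs, Nat.cast_natAbs] at c4
          push_cast at c4
          linarith)
        (fun Q hQ => (hS Q (hFm Q hQ).1).2.2.2)
      rcases key with h | h | h
      · exact h.le
      · subst h
        exfalso
        have h2 := (hrt P (hST P hP)).1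
        have h3 : (fm e 0) = Polynomial.C (e 0 0) := by
          unfold fm
          simp
        rw [h3, aeval_C] at h2
        exact he0 (by simpa using h2)
      · rw [h]
        exact Nat.zero_le _
    have h2 : S.image k2 ⊆ rts n e ×ˢ ((univ : Finset Bool) ×ˢ range (⌊Real.log U / Real.log (2 * H ^ 2)⌋₊ + 1)) := by
      intro a ha
      obtain ⟨P, hP, rfl⟩ := mem_image.1 ha
      have hPT := hST P hP
      have hPU := ((hTm P).1 hPT).2
      rw [hk2]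
      simp only [mem_product, mem_univ, true_and, mem_range]
      refine ⟨mem_rts he0 (hrt P hPT).1, ?_⟩
      rw [Nat.lt_succ_iff]
      apply Nat.le_floor
      have hlb : 0 < Real.log (2 * H ^ 2) := Real.log_pos (by nlinarith)
      rw [le_div_iff₀ hlb]
      have c2 : (2 * H ^ 2) ^ (Nat.log (2 * H ^ 2) P.1.natAbs) ≤ P.1.natAbs :=
        Nat.pow_log_le_self _ (Int.natAbs_ne_zero.2 (hx0 P hPT))
      have c3 : ((2 : ℝ) * H ^ 2) ^ (Nat.log (2 * H ^ 2) P.1.natAbs) ≤ U := by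
        have : (((2 * H ^ 2) ^ (Nat.log (2 * H ^ 2) P.1.natAbs) : ℕ) : ℝ) ≤ (P.1.natAbs : ℝ) := by exact_mod_cast c2
        rw [Nat.cast_natAbs] at this
        push_cast at this
        exact this.trans hPU
      have c4 := Real.log_le_log (by positivity) c3
      rw [Real.log_pow] at c4
      exact c4
    have h3 := card_le_card h2
    rw [card_product, card_product, card_range, card_univ, Fintype.card_bool] at h3
    have hlb : 0 < Real.log (2 * H ^ 2) := Real.log_pos (by nlinarith)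
    have hq : 0 ≤ Real.log U / Real.log (2 * H ^ 2) := by positivity
    have h4 : ((S.image k2).card : ℝ) ≤ n * (2 * (1 + Real.log U / Real.log (2 * H ^ 2))) := by
      have h5 : ((S.image k2).card : ℝ) ≤ (rts n e).card * (2 * ((⌊Real.log U / Real.log (2 * H ^ 2)⌋₊ + 1 : ℕ) : ℝ)) := by
        exact_mod_cast h3
      refine h5.trans ?_
      have hb1 : ((⌊Real.log U / Real.log (2 * H ^ 2)⌋₊ + 1 : ℕ) : ℝ) ≤ 1 + Real.log U / Real.log (2 * H ^ 2) := by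
        have h1 := Nat.floor_le hq
        push_cast
        linarith
      have hb3 : ((rts n e).card : ℝ) ≤ n := by exact_mod_cast rts_card n e
      gcongr
    have h5 : (S.card : ℝ) ≤ n * (S.image k2).card := by exact_mod_cast h1
    calc (S.card : ℝ) ≤ n * (S.image k2).card := h5
      _ ≤ n * (n * (2 * (1 + Real.log U / Real.log (2 * H ^ 2)))) := mul_le_mul_of_nonneg_left h4 hn0
      _ = (2 * n ^ 2) * (1 + Real.log U / Real.log (2 * H ^ 2)) := by ring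
      _ ≤ _ := by
          refine mul_le_mul_of_nonneg_right ?_ (by positivity)
          have : 0 ≤ 72 * (n : ℝ) * κ₀ * C' := by positivity
          linarith

theorem arx_ex (n κ₁ κ₂ : ℕ) (hn : 2 ≤ n) (h1 : NlxS n κ₁) (h2 : FexS n κ₂) : ArxS n ((1 + 504 * n + 2 * n ^ 2) + (κ₁ + (κ₁ + 1) * κ₂)) := by
  intro D B A C₁ hD hB hBD hA hAD hC₁ hC₁D
  obtain ⟨C₃, C, K₀, hC₃, hC₃D, hC, hCD, hK₀, hK₀D, hnlp⟩ := h1 D B A C₁ hD hB hBD hA hAD hC₁ hC₁D
  have hD1 : (1 : ℝ) ≤ D := by linarith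
  have hp1 : ∀ k : ℕ, (1 : ℝ) ≤ D ^ k := fun k => one_le_pow₀ hD1
  have hD' : D ≤ D ^ (κ₁ + 1) := by
    calc D = D ^ 1 := (pow_one D).symm
      _ ≤ D ^ (κ₁ + 1) := pow_le_pow_right₀ hD1 (by omega)
  have hDk : D ^ κ₁ ≤ D ^ (κ₁ + 1) := pow_le_pow_right₀ hD1 (by omega)
  have hκ1 : (1 : ℝ) ≤ 6 * C + 1 := by linarith
  obtain ⟨C', hC'1, hC'D, hfew⟩ := h2 (D ^ (κ₁ + 1)) B C C₃ (6 * C + 1) (hD.trans hD') (by linarith) (hBD.trans hD') hC
    (hCD.trans hDk) hC₃ (hC₃D.trans hDk) hκ1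
  have hC'D2 : (C' : ℝ) ≤ D ^ ((κ₁ + 1) * κ₂) := by rw [pow_mul]; exact hC'D
  have hn0 : (0 : ℝ) ≤ n := Nat.cast_nonneg n
  have hC'0 : (0 : ℝ) ≤ C' := Nat.cast_nonneg C'
  have hpoly : ((1 + 504 * n + 2 * n ^ 2 : ℕ) : ℝ) ≤ D ^ (1 + 504 * n + 2 * n ^ 2) := by
    calc ((1 + 504 * n + 2 * n ^ 2 : ℕ) : ℝ) ≤ ((2 ^ (1 + 504 * n + 2 * n ^ 2) : ℕ) : ℝ) := by
          exact_mod_cast Nat.lt_two_pow_self.le
      _ = (2 : ℝ) ^ (1 + 504 * n + 2 * n ^ 2) := by push_cast; rfl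
      _ ≤ D ^ (1 + 504 * n + 2 * n ^ 2) := pow_le_pow_left₀ (by norm_num) hD _
  have hM : (6 * C + 1) * C' ≤ 7 * D ^ (κ₁ + (κ₁ + 1) * κ₂) := by
    have ha : 6 * C + 1 ≤ 7 * D ^ κ₁ := by
      have := hp1 κ₁
      linarith
    calc (6 * C + 1) * C' ≤ (7 * D ^ κ₁) * D ^ ((κ₁ + 1) * κ₂) :=
          mul_le_mul ha hC'D2 hC'0 (by positivity)
      _ = 7 * D ^ (κ₁ + (κ₁ + 1) * κ₂) := by rw [pow_add]; ring
  have hQ := hp1 (κ₁ + (κ₁ + 1) * κ₂)
  refine ⟨1 + 72 * n * (6 * C + 1) * C' + 2 * n ^ 2, K₀ + 6 * C + 1, ?_, ?_, by linarith, ?_, ?_⟩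
  · have : 0 ≤ 72 * (n : ℝ) * (6 * C + 1) * C' := by positivity
    nlinarith
  · have h3 : 72 * (n : ℝ) * (6 * C + 1) * C' ≤ 504 * n * D ^ (κ₁ + (κ₁ + 1) * κ₂) := by
      have h4 := mul_le_mul_of_nonneg_left hM (show (0 : ℝ) ≤ 72 * n by positivity)
      calc 72 * (n : ℝ) * (6 * C + 1) * C' = 72 * n * ((6 * C + 1) * C') := by ring
        _ ≤ 72 * n * (7 * D ^ (κ₁ + (κ₁ + 1) * κ₂)) := h4
        _ = 504 * n * D ^ (κ₁ + (κ₁ + 1) * κ₂) := by ring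
    have h5 : (1 : ℝ) + 2 * n ^ 2 ≤ (1 + 2 * n ^ 2) * D ^ (κ₁ + (κ₁ + 1) * κ₂) :=
      le_mul_of_one_le_right (by positivity) hQ
    calc 1 + 72 * (n : ℝ) * (6 * C + 1) * C' + 2 * n ^ 2
        ≤ ((1 + 504 * n + 2 * n ^ 2 : ℕ) : ℝ) * D ^ (κ₁ + (κ₁ + 1) * κ₂) := by
          push_cast
          linarith
      _ ≤ D ^ (1 + 504 * n + 2 * n ^ 2) * D ^ (κ₁ + (κ₁ + 1) * κ₂) :=
          mul_le_mul_of_nonneg_right hpoly (by positivity)
      _ = _ := by rw [← pow_add]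
  · have h3 : K₀ + 6 * C + 1 ≤ D ^ 3 * D ^ κ₁ := by
      have h4 := hp1 κ₁
      have h5 : (8 : ℝ) ≤ D ^ 3 := by
        calc (8 : ℝ) = 2 ^ 3 := by norm_num
          _ ≤ D ^ 3 := pow_le_pow_left₀ (by norm_num) hD 3
      have h6 : 8 * D ^ κ₁ ≤ D ^ 3 * D ^ κ₁ := mul_le_mul_of_nonneg_right h5 (by positivity)
      linarith
    refine h3.trans ?_
    rw [← pow_add]
    refine pow_le_pow_right₀ hD1 ?_
    have : 3 ≤ 1 + 504 * n + 2 * n ^ 2 := by nlinarith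
    omega
  · intro e H U hH hU hT hz hG
    obtain ⟨L, hL, h3⟩ := arr0x n B A C₁ C₃ C K₀ hB hC₃ hC hK₀ hnlp (6 * C + 1) rfl C' hC'1 hfew e H U hH hU hT hG hz
    refine ⟨L, hL, ?_⟩
    intro e' he' hl S hS
    refine h3 e' ?_ ?_ hl S fun P hP => ⟨(hS P hP).2.1, (hS P hP).2.2.1, (hS P hP).1, (hS P hP).2.2.2⟩
    · intro v w hvw
      have h2 : ∑ j ∈ range (n + 1), e' (n - j) j * (v ^ (n - j) * w ^ j) = ∑ j ∈ range (n + 1), e (n - j) j * (v ^ (n - j) * w ^ j) :=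
        sum_congr rfl fun j hj => by
          have hj' := mem_range.1 hj
          rw [he' j (by omega)]
      rw [h2]
      exact hz v w hvw
    · have h3 := he' n le_rfl
      rw [Nat.sub_self] at h3
      rw [h3]
      have h4 := hT.1 n le_rfl
      rwa [Nat.sub_self] at h4

end Pool.Agent.H88.TY
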