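import Pool.Agent.H88.TX.Def
import Pool.Agent.H88.TU.Mix

/-! # [H88 TY BGXE] (explicit exponent; copy of TX/Bgx by helper95) `j = 2`: assembly of both charts, the middle range and the far points

Take `E, κ_F` from `h1`, `κ_G` from `Pool.Agent.H88.TU.gdx_ex` (GdxS n κ_G: `Bas n B' (ar G)` and `Bas n B' (sw (ar G))` for `B' = B^κ_G`), `κ_1, κ_2` from `h2` for
an exponent `E'` with `(B H)^E ≤ (B' H)^E'` (`E' = E`, as `B ≤ B'`), `κ_0, κ_3` from `h3 κ_1`. Let `T` be as in BgxS, `κ ≥ κ_G κ_0`. Each `c ∈ T` has a zero `P` with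
`B^κ S ≤ max`. Cases: `max > (B H)^E`: FaxS (`Fintype.card (Ix 2) = 6`, so `(2H+1)^5`). Otherwise `|P 1| ≤ |P 0|`: chart `e = ar G`, with `x = P 0, y = P 1`;
`|P 0| ≤ |P 1|`: chart `e = sw (ar G)`, `x = P 1, y = P 0`, the vector `c` replaced by its image under the swap of the variables
(`sp`, `co_sp`, `Fc_sp` in H82/A3/Cnt.lean; see also how H82/TO/Uq4.lean `big` and H88/TU, H12/TG/Mxg.lean do it). In each chart: `|x| ≤ B'^κ_1 H`: NerS, otherwise ChxS.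
`T.card ≤ κ_F (2H+1)^5 + 2 B'^κ_3 (2H+1)^5 + 2 B'^κ_2 (2H+1)^5 ≤ B^κ (2H+1)^5`. Nothing analytic. `H82/TO/Uq4.lean` (theorem `big`) is the same assembly: copy it. -/

namespace Pool.Agent.H88.TY

open Finset Polynomial Pool.Agent.H8.AA Pool.Agent.H88.A2 Pool.Agent.H88.TU Pool.Agent.H12.A3 Pool.Agent.H88.TX

/-- one chart: near the border by NerS, the rest by ChxS -/
private theorem chart (n E κ₀ κ₁ κ₂ κ₃ B' : ℕ) (hB' : 2 ≤ B') (h2 : ChxS n E κ₁ κ₂) (h3 : NerS n κ₀ κ₁ κ₃)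
    (e : ℕ → ℕ → ℤ) (he : Bas n B' e) (H : ℕ) (S : ℝ) (hH : 1 ≤ H) (hS : 1 ≤ S) (hSH : S ^ (n - 2) = H)
    (T : Finset (Ix 2 → ℤ))
    (hT : ∀ c ∈ T, (∀ p, |c p| ≤ (H : ℤ)) ∧ ∃ x y : ℤ, |y| ≤ |x| ∧ (B' : ℝ) ^ κ₀ * S ≤ |(x : ℝ)| ∧
      |(x : ℝ)| ≤ ((B' * H : ℕ) : ℝ) ^ E ∧ ev n e x y + ev 2 (co c) x y = 0) :
    (T.card : ℝ) ≤ ((B' : ℝ) ^ κ₃ + (B' : ℝ) ^ κ₂) * (2 * (H : ℝ) + 1) ^ 5 := by
  classical
  obtain ⟨Q, hQ⟩ : ∃ Q : (Ix 2 → ℤ) → Prop, Q = fun c => ∃ x y : ℤ, |y| ≤ |x| ∧ (B' : ℝ) ^ κ₀ * S ≤ |(x : ℝ)| ∧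
      |(x : ℝ)| ≤ (B' : ℝ) ^ κ₁ * H ∧ ev n e x y + ev 2 (co c) x y = 0 := ⟨_, rfl⟩
  have e1 := h3 B' hB' e he H S hH hS hSH (T.filter Q) (by
    intro c hc
    rw [Finset.mem_filter, hQ] at hc
    exact ⟨(hT c hc.1).1, hc.2⟩)
  have e2 := h2 B' hB' e he H hH (T.filter fun c => ¬ Q c) (by
    intro c hc
    rw [Finset.mem_filter] at hc
    obtain ⟨hc1, hc2⟩ := hc
    obtain ⟨hb, x, y, h4, h5, h6, h7⟩ := hT c hc1
    refine ⟨hb, x, y, h4, ?_, h6, h7⟩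
    by_contra hcon
    apply hc2
    rw [hQ]
    exact ⟨x, y, h4, h5, (not_le.1 hcon).le, h7⟩)
  have hcard : (T.card : ℝ) = (T.filter Q).card + (T.filter fun c => ¬ Q c).card := by
    have h4 := Finset.card_filter_add_card_filter_not (s := T) Q
    exact_mod_cast h4.symm
  rw [hcard, add_mul]
  exact add_le_add e1 e2

open MvPolynomial in
/-- the points beyond `(B H)^E`, `j = 2` -/
def Fx2S (n E κ : ℕ) : Prop :=
    ∀ G : MvPolynomial (Fin 2) ℤ, Hyp0 n 2 G → ∀ (B H : ℕ), 2 ≤ B → (∀ m, |G.coeff m| + 1 ≤ (B : ℤ)) → 1 ≤ H →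
    ∀ T : Finset (Ix 2 → ℤ), (∀ c ∈ T, (∀ p, |c p| ≤ (H : ℤ)) ∧
      ∃ P : Fin 2 → ℤ, eval P (G + pol c) = 0 ∧ ∃ i, ((B * H : ℕ) : ℤ) ^ E < |P i|) →
    (T.card : ℝ) ≤ κ * (2 * (H : ℝ) + 1) ^ (Fintype.card (Ix 2) - 1)

theorem bgx_ex (n E κF κ₁ κ₂ κ₀ κ₃ : ℕ) (hn : 4 ≤ n) (hF : Fx2S n E κF) (hC : ChxS n E κ₁ κ₂) (hN : NerS n κ₀ κ₁ κ₃) :
    BgxS n (10 * n ^ 2 * κ₀ + 10 * n ^ 2 * κ₂ + 10 * n ^ 2 * κ₃ + κF + 3) := by
  classical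
  obtain ⟨κG, hκG⟩ : ∃ κG : ℕ, κG = 10 * n ^ 2 := ⟨_, rfl⟩
  have hκG1 : 1 ≤ κG := by
    rw [hκG]
    nlinarith
  have hG := gdx_ex n (by omega)
  rw [← hκG] at hG
  rw [← hκG]
  obtain ⟨κ, hκ⟩ : ∃ κ : ℕ, κ = κG * κ₀ + κG * κ₂ + κG * κ₃ + κF + 3 := ⟨_, rfl⟩
  rw [← hκ]
  intro B hB G hG0 hco H S hH hS hSH T hT
  obtain ⟨b1, b2⟩ := hG B hB G hG0.deg hG0.irr hco (B ^ κG) le_rfl
  have hB2 : (2 : ℝ) ≤ B := by exact_mod_cast hB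
  have hB1 : (1 : ℝ) ≤ B := by linarith
  have hBB : B ≤ B ^ κG := Nat.le_self_pow (by omega) B
  have hBB2 : 2 ≤ B ^ κG := hB.trans hBB
  have hS0 : 0 < S := by linarith
  have hcast : ((B ^ κG : ℕ) : ℝ) = (B : ℝ) ^ κG := Nat.cast_pow B κG
  have hlow : ∀ x : ℝ, (B : ℝ) ^ κ * S ≤ x → ((B ^ κG : ℕ) : ℝ) ^ κ₀ * S ≤ x := by
    intro x hx
    refine le_trans ?_ hx
    refine mul_le_mul_of_nonneg_right ?_ hS0.le
    rw [hcast, ← pow_mul]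
    exact pow_le_pow_right₀ hB1 (by omega)
  have hup : ∀ x : ℝ, x ≤ ((B * H : ℕ) : ℝ) ^ E → x ≤ ((B ^ κG * H : ℕ) : ℝ) ^ E := by
    intro x hx
    refine hx.trans (pow_le_pow_left₀ (Nat.cast_nonneg _) ?_ E)
    exact_mod_cast Nat.mul_le_mul_right H hBB
  have hev : ∀ (c : Ix 2 → ℤ) (P : Fin 2 → ℤ), MvPolynomial.eval P (G + pol c) = 0 →
      ev n (ar G) (P 0) (P 1) + ev 2 (co c) (P 0) (P 1) = 0 := by
    intro c P hP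
    rw [ar_ev hG0.deg, ← Pool.Agent.H8.AA.pol_eval, ← map_add]
    exact hP
  -- the three parts
  obtain ⟨Q, hQ⟩ : ∃ Q : (Ix 2 → ℤ) → Prop, Q = fun c => ∃ x y : ℤ, |y| ≤ |x| ∧
      (B : ℝ) ^ κ * S ≤ |(x : ℝ)| ∧ |(x : ℝ)| ≤ ((B * H : ℕ) : ℝ) ^ E ∧
      ev n (ar G) x y + ev 2 (co c) x y = 0 := ⟨_, rfl⟩
  obtain ⟨R, hR⟩ : ∃ R : (Ix 2 → ℤ) → Prop, R = fun c => ∃ P : Fin 2 → ℤ, MvPolynomial.eval P (G + pol c) = 0 ∧
      ∃ i, ((B * H : ℕ) : ℤ) ^ E < |P i| := ⟨_, rfl⟩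
  have c1 := chart n E κ₀ κ₁ κ₂ κ₃ (B ^ κG) hBB2 hC hN (ar G) b1 H S hH hS hSH (T.filter Q) (by
    intro c hc
    rw [Finset.mem_filter, hQ] at hc
    obtain ⟨hcT, x, y, h4, h5, h6, h7⟩ := hc
    exact ⟨(hT c hcT).1, x, y, h4, hlow _ h5, hup _ h6, h7⟩)
  have c3 := hF G hG0 B H hB hco hH (T.filter R) (by
    intro c hc
    rw [Finset.mem_filter, hR] at hc
    exact ⟨(hT c hc.1).1, hc.2⟩)
  have c2 := chart n E κ₀ κ₁ κ₂ κ₃ (B ^ κG) hBB2 hC hN (sw (ar G)) b2 H S hH hS hSH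
    ((T.filter fun c => ¬ Q c ∧ ¬ R c).image Pool.Agent.H88.TS.sv) (by
    intro c hc
    obtain ⟨d, hd, rfl⟩ := Finset.mem_image.1 hc
    rw [Finset.mem_filter] at hd
    obtain ⟨hdT, hdQ, hdR⟩ := hd
    obtain ⟨hb, P, hP, hmax⟩ := hT d hdT
    have hle : ∀ i, |(P i : ℝ)| ≤ ((B * H : ℕ) : ℝ) ^ E := by
      intro i
      have h4 : ¬ ((B * H : ℕ) : ℤ) ^ E < |P i| := by
        intro h5
        apply hdR
        rw [hR]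
        exact ⟨P, hP, i, h5⟩
      have h6 := not_lt.1 h4
      exact_mod_cast h6
    refine ⟨fun p => hb _, P 1, P 0, ?_⟩
    rcases le_total |P 1| |P 0| with h | h
    · exfalso
      apply hdQ
      rw [hQ]
      have hm : max |(P 0 : ℝ)| |(P 1 : ℝ)| = |(P 0 : ℝ)| := max_eq_left (by exact_mod_cast h)
      rw [hm] at hmax
      exact ⟨P 0, P 1, h, hmax, hle 0, hev d P hP⟩
    · have hm : max |(P 0 : ℝ)| |(P 1 : ℝ)| = |(P 1 : ℝ)| := max_eq_right (by exact_mod_cast h)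
      rw [hm] at hmax
      refine ⟨h, hlow _ hmax, hup _ (hle 1), ?_⟩
      rw [ev_sw, Pool.Agent.H88.TS.sv_ev]
      exact hev d P hP)
  have hinj : Function.Injective (Pool.Agent.H88.TS.sv (n := 2)) := fun a b hab => by
    rw [← Pool.Agent.H88.TS.sv_sv a, hab, Pool.Agent.H88.TS.sv_sv]
  rw [Finset.card_image_of_injective _ hinj] at c2
  have hsub : T ⊆ T.filter Q ∪ (T.filter fun c => ¬ Q c ∧ ¬ R c) ∪ T.filter R := by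
    intro c hc
    simp only [Finset.mem_union, Finset.mem_filter]
    by_cases hq : Q c
    · exact Or.inl (Or.inl ⟨hc, hq⟩)
    · by_cases hr : R c
      · exact Or.inr ⟨hc, hr⟩
      · exact Or.inl (Or.inr ⟨hc, hq, hr⟩)
  have hcT : (T.card : ℝ) ≤ (T.filter Q).card + (T.filter fun c => ¬ Q c ∧ ¬ R c).card + (T.filter R).card := by
    have e1 := card_le_card hsub
    have e2 := card_union_le (T.filter Q ∪ (T.filter fun c => ¬ Q c ∧ ¬ R c)) (T.filter R)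
    have e3 := card_union_le (T.filter Q) (T.filter fun c => ¬ Q c ∧ ¬ R c)
    have e5 : T.card ≤ (T.filter Q).card + (T.filter fun c => ¬ Q c ∧ ¬ R c).card + (T.filter R).card := by omega
    exact_mod_cast e5
  have hcard : Fintype.card (Ix 2) - 1 = 5 := by
    rw [Pool.Agent.H8.AA.card_ix]
  rw [hcard] at c3
  obtain ⟨W, hW⟩ : ∃ W : ℝ, W = (2 * (H : ℝ) + 1) ^ 5 := ⟨_, rfl⟩
  have hW0 : 0 ≤ W := by
    rw [hW]
    positivity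
  rw [← hW] at c1 c2 c3 ⊢
  rw [hcast, ← pow_mul, ← pow_mul] at c1 c2
  have p2 : (B : ℝ) ^ (κG * κ₂) ≤ (B : ℝ) ^ (κ - 3) := pow_le_pow_right₀ hB1 (by omega)
  have p3 : (B : ℝ) ^ (κG * κ₃) ≤ (B : ℝ) ^ (κ - 3) := pow_le_pow_right₀ hB1 (by omega)
  have pF : (κF : ℝ) ≤ (B : ℝ) ^ (κ - 3) := by
    have q1 : (κF : ℝ) ≤ (B : ℝ) ^ κF := by
      have q2 : κF < 2 ^ κF := Nat.lt_two_pow_self
      have q3 : (κF : ℝ) ≤ (2 : ℝ) ^ κF := by exact_mod_cast q2.le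
      exact q3.trans (pow_le_pow_left₀ (by norm_num) hB2 _)
    exact q1.trans (pow_le_pow_right₀ hB1 (by omega))
  obtain ⟨X, hX⟩ : ∃ X : ℝ, X = (B : ℝ) ^ (κ - 3) := ⟨_, rfl⟩
  rw [← hX] at p2 p3 pF
  have hX0 : 0 ≤ X := by
    rw [hX]
    positivity
  have hXk : 8 * X ≤ (B : ℝ) ^ κ := by
    have q1 : κ = 3 + (κ - 3) := by omega
    rw [q1, pow_add, ← hX]
    refine mul_le_mul_of_nonneg_right ?_ hX0
    have q2 := pow_le_pow_left₀ (by norm_num : (0 : ℝ) ≤ 2) hB2 3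
    linarith
  have f1 : (T.card : ℝ) ≤ 5 * X * W := by
    have g1 : ((B : ℝ) ^ (κG * κ₃) + (B : ℝ) ^ (κG * κ₂)) * W ≤ 2 * X * W :=
      mul_le_mul_of_nonneg_right (by linarith) hW0
    have g2 : (κF : ℝ) * W ≤ X * W := mul_le_mul_of_nonneg_right pF hW0
    linarith
  refine f1.trans (mul_le_mul_of_nonneg_right ?_ hW0)
  linarith

end Pool.Agent.H88.TY
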