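import Pool.Agent.H88.TF.Def
import Pool.Agent.H88.A2.Asm

/-! # [H88 TY DEF] Far points with contact `r ≤ n - 2` (for the explicit constant in the stratum `j = 2`, `n ≥ 5`) -/

namespace Pool.Agent.H88.TY

open Finset Polynomial Pool.Agent.H72.ES Pool.Agent.H88.TF

section

variable {n Q : ℕ} {f : ℤ[X]} {θ : ℝ}

/-- `r` is the first index `≥ 2` with nonzero coefficient, `r ≤ n - 2` -/
structure Rd {O : Ord ℝ n Q f θ} {F : ℕ → ℕ → ℤ} (br : Branch O F) (r : ℕ) : Prop where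
  r2 : 2 ≤ r
  rn : r + 2 ≤ n
  ne : cb br r ≠ 0
  lo : ∀ k, 2 ≤ k → k < r → cb br k = 0

end

/-- every real branch has such an `r` -/
def Ncd (n Q : ℕ) (f : ℤ[X]) (G : ℕ → ℕ → ℤ) : Prop :=
  ∀ θ : ℝ, aeval θ f = 0 → ∀ O : Ord ℝ n Q f θ, ∀ br : Branch O G, ∃ r, Rd br r

/-- NCD: contact `r = n - 2`: no three collinear points in a short window, on one side -/
def NcdS : Prop := ∀ (n Q : ℕ) (f : ℤ[X]) (θ : ℝ) (O : Ord ℝ n Q f θ) (G : ℕ → ℕ → ℤ), 5 ≤ n → Norml n Q f G →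
  ∀ (br : Branch O G), Rd br (n - 2) → ∀ X : ℝ, bb n Q ^ (60 * n ^ 2) ≤ X → ∀ P : Fin 3 → ℤ × ℤ,
  Function.Injective P → ((∀ i, X ≤ ((P i).1 : ℝ)) ∨ ∀ i, X ≤ -((P i).1 : ℝ)) →
  (∀ i, |((P i).1 : ℝ)| ≤ X ^ (1 + 1 / (10 * (n : ℝ)))) → (∀ i, Nb br (P i)) → ¬ Col (P 0) (P 1) (P 2)

/-- WND: the number of far points on all curves of a fibre over the terms of degree `≥ 2`, contact `r ≤ n - 2` -/
def WndS : Prop := ∀ (n Q : ℕ) (f : ℤ[X]) (G : ℕ → ℕ → ℤ), 5 ≤ n → Norml n Q f G → Irreducible f → Ncd n Q f G →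
  ∀ S : Finset (ℤ × ℤ), (∀ P ∈ S, ∃ F, Norml n Q f F ∧ Top2 n F G ∧ ev n F P.1 P.2 = 0) →
  (∀ P ∈ S, (Q : ℝ) ^ 2 * bb n Q ^ (60 * n ^ 2) ≤ ((max |P.1| |P.2| : ℤ) : ℝ)) → S.card ≤ 1920 * n ^ 3

/-- DGD: `r ≤ n - 2` exists if `G(X, θ X + b)` has degree at least `2` for all real `θ`, `b` -/
def DgdS : Prop := ∀ (n Q : ℕ) (f : ℤ[X]) (G : ℕ → ℕ → ℤ), 5 ≤ n → Norml n Q f G →
  (∀ t b : ℝ, 2 ≤ (ev n (cst ℝ[X] G) X (C t * X + C b)).natDegree) → Ncd n Q f G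

/-- NRD: bounded exceptions in a fibre over the terms of degree `≥ 2`, contact `r ≤ n - 2` -/
def NrdS : Prop := ∀ (n H : ℕ), 5 ≤ n → 2 ≤ H → ∀ G : MvPolynomial (Fin 2) ℤ, G.totalDegree = n →
  Irreducible (MvPolynomial.map (Int.castRingHom ℚ) (MvPolynomial.homogeneousComponent n G)) →
  (∀ t b : ℝ, 2 ≤ (MvPolynomial.aeval ![X, C t * X + C b] G : ℝ[X]).natDegree) →
  ∀ T : Finset (MvPolynomial (Fin 2) ℤ × (ℤ × ℤ)), (∀ q ∈ T, (q.1 - G).totalDegree ≤ 1 ∧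
    (∀ m, |q.1.coeff m| ≤ (H : ℤ)) ∧ MvPolynomial.eval ![q.2.1, q.2.2] q.1 = 0 ∧
    (H : ℤ) ^ (600 * n ^ 5) < max |q.2.1| |q.2.2|) → T.card ≤ 1920 * n ^ 3

open MvPolynomial Pool.Agent.H8.AA Pool.Agent.H88.A2 in
/-- FAD: `j = 2`, `n ≥ 5`: the members with a point beyond `(B H)^(1200 n^5)`, every `G` -/
def FadS (n : ℕ) : Prop :=
    ∀ G : MvPolynomial (Fin 2) ℤ, Hyp0 n 2 G → ∀ (B H : ℕ), 2 ≤ B → (∀ m, |G.coeff m| + 1 ≤ (B : ℤ)) → 1 ≤ H →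
    ∀ T : Finset (Ix 2 → ℤ), (∀ c ∈ T, (∀ p, |c p| ≤ (H : ℤ)) ∧
      ∃ P : Fin 2 → ℤ, eval P (G + pol c) = 0 ∧ ∃ i, ((B * H : ℕ) : ℤ) ^ (1200 * n ^ 5) < |P i|) →
    (T.card : ℝ) ≤ (1921 * n ^ 3 : ℕ) * (2 * (H : ℝ) + 1) ^ 3

end Pool.Agent.H88.TY
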