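import Pool.Agent.H88.TY.Def

/-! # [H88 TY DGD] Contact at infinity, `r ≤ n - 2`

Copy of H88/TF/Dgr.lean (helper55) with one coefficient more: if `cb br k = 0` for all `2 ≤ k ≤ n - 2` then `w ≡ w_1 X` modulo `X^(n-1)`, so the
coefficients of `u^s`, `s ≤ n - 2`, of `evt n G u (θ + b u)` vanish and `ev n G X (θ X + b)` has degree `≤ 1`, contradiction. -/

namespace Pool.Agent.H88.TY

open Finset Polynomial Pool.Agent.H72.ES Pool.Agent.H88.TF

/-- the Taylor coefficients over power series are constants -/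
private theorem tc_C (n : ℕ) (G : ℕ → ℕ → ℤ) (θ : ℝ) (i j : ℕ) :
    tc n G (PowerSeries.C θ) i j = PowerSeries.C (tc n G θ i j) := by
  unfold tc
  rw [map_sum]
  refine sum_congr rfl fun l _ => ?_
  rw [map_mul, map_mul, map_pow, map_intCast, map_natCast]

/-- the top coefficients of the restriction to the line from the branch equation -/
private theorem coeff_of_branch {n : ℕ} (G : ℕ → ℕ → ℤ) (θ κ : ℝ) (hκ : κ ≠ 0)
    (W : PowerSeries ℝ) (h0 : PowerSeries.coeff 0 W = 0)
    (hW : ∀ k, 2 ≤ k → k + 2 ≤ n → PowerSeries.coeff k W = 0)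
    (he : evt n (cst (PowerSeries ℝ) G) (PowerSeries.C κ ^ 2 * PowerSeries.X)
      (PowerSeries.C θ + PowerSeries.C κ * W) = 0) (s : ℕ) (hs : s + 2 ≤ n) :
    ∑ i ∈ range (s + 1), tc n G θ i (s - i) * (PowerSeries.coeff 1 W / κ) ^ (s - i) = 0 := by
  obtain ⟨V, hV⟩ : ∃ V : PowerSeries ℝ,
      W = PowerSeries.C (PowerSeries.coeff 1 W) * PowerSeries.X + PowerSeries.X ^ (n - 1) * V := by
    have hd : PowerSeries.X ^ (n - 1) ∣
        W - PowerSeries.C (PowerSeries.coeff 1 W) * PowerSeries.X := by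
      rw [PowerSeries.X_pow_dvd_iff]
      intro m hm
      rw [map_sub, PowerSeries.coeff_C_mul, PowerSeries.coeff_X]
      rcases Nat.lt_or_ge m 2 with h2 | h2
      · interval_cases m
        · simp [h0]
        · simp
      · rw [if_neg (by omega), hW m h2 (by omega)]
        simp
    obtain ⟨V, hV⟩ := hd
    exact ⟨V, by rw [← hV]; ring⟩
  set w1 := PowerSeries.coeff 1 W with hw1
  -- powers of `W`
  have hpow : ∀ j : ℕ, ∃ V' : PowerSeries ℝ, (PowerSeries.C κ * W) ^ j =
      PowerSeries.C ((κ * w1) ^ j) * PowerSeries.X ^ j + PowerSeries.X ^ (n - 1) * V' := by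
    intro j
    have h1 : (PowerSeries.X : PowerSeries ℝ) ^ (n - 1) ∣
        (PowerSeries.C κ * W) ^ j - (PowerSeries.C (κ * w1) * PowerSeries.X) ^ j := by
      refine dvd_trans ?_ (sub_dvd_pow_sub_pow _ _ j)
      refine ⟨PowerSeries.C κ * V, ?_⟩
      rw [hV, map_mul]
      ring
    obtain ⟨V', hV'⟩ := h1
    refine ⟨V', ?_⟩
    rw [← hV', mul_pow, map_pow]
    ring
  rw [evt_taylor] at he
  have hc := congrArg (PowerSeries.coeff s) he
  rw [map_sum, map_zero] at hc
  have hterm : ∀ i j, PowerSeries.coeff s (tc n G (PowerSeries.C θ) i j *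
      (PowerSeries.C κ ^ 2 * PowerSeries.X) ^ i * (PowerSeries.C κ * W) ^ j) =
      if s = i + j then tc n G θ i j * (κ ^ 2) ^ i * (κ * w1) ^ j else 0 := by
    intro i j
    obtain ⟨V', hV'⟩ := hpow j
    have h1 : tc n G (PowerSeries.C θ) i j *
        (PowerSeries.C κ ^ 2 * PowerSeries.X) ^ i * (PowerSeries.C κ * W) ^ j =
        PowerSeries.C (tc n G θ i j * (κ ^ 2) ^ i * (κ * w1) ^ j) * PowerSeries.X ^ (i + j) +
        PowerSeries.X ^ (n - 1) * (PowerSeries.C (tc n G θ i j * (κ ^ 2) ^ i) *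
          PowerSeries.X ^ i * V') := by
      rw [hV', tc_C, mul_pow, map_mul, map_mul, ← map_pow, map_pow PowerSeries.C (κ ^ 2) i, pow_add]
      ring
    rw [h1, map_add, PowerSeries.coeff_C_mul, PowerSeries.coeff_X_pow,
      PowerSeries.coeff_X_pow_mul', if_neg (show ¬ (n - 1 ≤ s) by omega), add_zero]
    split_ifs <;> ring
  have hc2 : ∑ i ∈ range (n + 1), ∑ j ∈ range (n + 1),
      (if s = i + j then tc n G θ i j * (κ ^ 2) ^ i * (κ * w1) ^ j else 0) = 0 := by
    refine Eq.trans ?_ hc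
    refine sum_congr rfl fun i _ => ?_
    rw [map_sum]
    exact sum_congr rfl fun j _ => (hterm i j).symm
  have hsub : range (s + 1) ⊆ range (n + 1) := range_subset_range.2 (by omega)
  rw [← sum_subset hsub] at hc2
  · have hc3 : κ ^ (2 * s) * ∑ i ∈ range (s + 1), tc n G θ i (s - i) * (w1 / κ) ^ (s - i) = 0 := by
      rw [mul_sum, ← hc2]
      refine sum_congr rfl fun i hi => ?_
      simp only [mem_range] at hi
      rw [sum_eq_single (s - i)]
      · rw [if_pos (by omega)]
        have e1 : 2 * s = 2 * i + 2 * (s - i) := by omega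
        rw [e1, pow_add, pow_mul, pow_mul, div_pow, mul_pow]
        generalize s - i = d
        have hk : κ ^ d ≠ 0 := pow_ne_zero _ hκ
        have e2 : (κ ^ 2) ^ d = κ ^ d * κ ^ d := by rw [← pow_mul, two_mul, pow_add]
        rw [e2]
        field_simp
      · intro j _ hne
        rw [if_neg (by omega)]
      · intro h
        exact absurd (mem_range.2 (by omega)) h
    exact (mul_eq_zero.1 hc3).resolve_left (pow_ne_zero _ hκ)
  · intro i _ hi'
    simp only [mem_range] at hi'
    refine sum_eq_zero fun j _ => ?_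
    rw [if_neg (by omega)]

theorem dgd : DgdS := by
  intro n Q f G hn hG hdeg θ hθ O br
  have hk : O.φ O.κ ≠ 0 := abs_pos.1 (exp_kappa (O := O) hG).1
  by_cases hex : ∃ k, 2 ≤ k ∧ k + 2 ≤ n ∧ cb br k ≠ 0
  · classical
    refine ⟨Nat.find hex, (Nat.find_spec hex).1, (Nat.find_spec hex).2.1,
      (Nat.find_spec hex).2.2, ?_⟩
    intro k h2 hlt
    by_contra hne
    exact Nat.find_min hex hlt ⟨h2, by have := (Nat.find_spec hex).2.1; omega, hne⟩
  · exfalso
    have hcb : ∀ k, 2 ≤ k → k + 2 ≤ n → cb br k = 0 := by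
      intro k h2 h3
      by_contra hne
      exact hex ⟨k, h2, h3, hne⟩
    set W : PowerSeries ℝ := PowerSeries.map O.φ br.w with hW
    have h0 : PowerSeries.coeff 0 W = 0 := by
      rw [hW, PowerSeries.coeff_map, PowerSeries.coeff_zero_eq_constantCoeff_apply, br.h0, map_zero]
    have hWk : ∀ k, 2 ≤ k → k + 2 ≤ n → PowerSeries.coeff k W = 0 := by
      intro k h2 h3
      have h4 := hcb k h2 h3
      unfold cb at h4
      rw [hW, PowerSeries.coeff_map]
      exact (div_eq_zero_iff.1 h4).resolve_right (pow_ne_zero _ hk)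
    have he : evt n (cst (PowerSeries ℝ) G) (PowerSeries.C (O.φ O.κ) ^ 2 * PowerSeries.X)
        (PowerSeries.C θ + PowerSeries.C (O.φ O.κ) * W) = 0 := by
      have h1 := congrArg (PowerSeries.map O.φ) br.eq
      rw [evt_map, cst_map, map_zero] at h1
      simp only [map_mul, map_pow, map_add, PowerSeries.map_C, PowerSeries.map_X, O.φ_α] at h1
      exact h1
    have hlt : (ev n (cst ℝ[X] G) X
        (C θ * X + C (PowerSeries.coeff 1 W / O.φ O.κ))).natDegree ≤ 1 := by
      rw [line_poly, natDegree_le_iff_coeff_eq_zero]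
      intro N hN
      by_cases hNn : n < N
      · exact coeff_line_big n
          (fun i j => tc n G θ i j * (PowerSeries.coeff 1 W / O.φ O.κ) ^ j) N hNn
      · obtain ⟨s, hs, rfl⟩ : ∃ s, s + 2 ≤ n ∧ N = n - s := ⟨n - N, by omega, by omega⟩
        rw [coeff_line n
          (fun i j => tc n G θ i j * (PowerSeries.coeff 1 W / O.φ O.κ) ^ j) s (by omega)]
        exact coeff_of_branch G θ (O.φ O.κ) hk W h0 hWk he s hs
    have := hdeg θ (PowerSeries.coeff 1 W / O.φ O.κ)
    omega

end Pool.Agent.H88.TY
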