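import Pool.Agent.H88.TX.Fin

/-! # [H88 TY EFFE] The effective statement with explicit exponents -/

namespace Pool.Agent.H88.TY

open Finset MvPolynomial Pool.Agent.H8.AA Pool.Agent.H88.A2 Pool.Agent.H88.TS Pool.Agent.H82.TO Pool.Agent.H15.SC Pool.Agent.H88.TX

/-- upper bound for the number of solvable members, `j = 2` -/
def Cn2S (n κ : ℕ) : Prop := ∀ B : ℕ, 2 ≤ B → ∀ G : MvPolynomial (Fin 2) ℤ,
    Hyp0 n 2 G → (∀ m, |G.coeff m| + 1 ≤ (B : ℤ)) → ∀ H : ℕ, 2 ≤ H →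
    (cnt 2 G H : ℝ) ≤ (B : ℝ) ^ κ * ((H : ℝ) ^ 5 * Real.log H)

/-- `j = 2`: upper bound for the number of solvable members -/
theorem cnt2_ex (n κb κm k : ℕ) (hn : 4 ≤ n) (hb : BgxS n κb) (hm : Mo2S κm) (hk : 486 + 27 * (κm : ℝ) * (5 + 2 * κb) < 2 ^ k) :
    Cn2S n (k + (2 * κb + 1)) := by
  classical
  intro B hB G hG hGB H hH
  have hB2 : (2 : ℝ) ≤ B := by exact_mod_cast hB
  have hH2 : (2 : ℝ) ≤ H := by exact_mod_cast hH
  have hH1 : (1 : ℝ) ≤ H := by linarith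
  have hH0 : (0 : ℝ) < H := by linarith
  have hlog := log_two_le hH
  have hnr : (0 : ℝ) < ((n - 2 : ℕ) : ℝ) := by exact_mod_cast (by omega : 0 < n - 2)
  obtain ⟨S, hS⟩ : ∃ S : ℝ, S = (H : ℝ) ^ (1 / ((n - 2 : ℕ) : ℝ)) := ⟨_, rfl⟩
  have hS1 : 1 ≤ S := by rw [hS]; exact Real.one_le_rpow hH1 (by positivity)
  have hS0 : 0 < S := by linarith
  have hSH : S ^ (n - 2) = H := by
    rw [hS, ← Real.rpow_natCast, ← Real.rpow_mul hH0.le, one_div, inv_mul_cancel₀ hnr.ne', Real.rpow_one]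
  have hS2 : S ^ 2 ≤ H := by
    rw [← hSH]
    exact pow_le_pow_right₀ hS1 (by omega)
  have hSleH : S ≤ H := by nlinarith
  obtain ⟨A, hA⟩ : ∃ A : ℝ, A = (B : ℝ) ^ κb := ⟨_, rfl⟩
  have hA1 : 1 ≤ A := by rw [hA]; exact one_le_pow₀ (by linarith)
  have hAS1 : 1 ≤ A * S := by nlinarith
  obtain ⟨R, hR⟩ : ∃ R : ℕ, R = ⌊A * S⌋₊ := ⟨_, rfl⟩
  have hR1 : 1 ≤ R := by rw [hR]; exact Nat.floor_pos.2 hAS1
  have hRle : (R : ℝ) ≤ A * S := by rw [hR]; exact Nat.floor_le (by positivity)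
  have hRr : (1 : ℝ) ≤ (R : ℝ) := by exact_mod_cast hR1
  -- the vectors
  obtain ⟨Z, hZ⟩ : ∃ Z : Finset (Ix 2 → ℤ), Z = (box 2 H).filter fun c => ∃ P : Fin 2 → ℤ, eval P (G + pol c) = 0 := ⟨_, rfl⟩
  have hcz : cnt 2 G H = Z.card := ncard_filter 2 H (fun L => ∃ P : Fin 2 → ℤ, eval P (G + L) = 0) Z
    (fun c => by rw [hZ, Finset.mem_filter])
  obtain ⟨Tb, hTb⟩ : ∃ Tb : Finset (Ix 2 → ℤ), Tb = Z.filter fun c => ∃ P : Fin 2 → ℤ, eval P (G + pol c) = 0 ∧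
    A * S ≤ max |(P 0 : ℝ)| |(P 1 : ℝ)| := ⟨_, rfl⟩
  obtain ⟨Ts, hTs⟩ : ∃ Ts : Finset (Ix 2 → ℤ), Ts = Z.filter fun c => ∃ x y : ℤ, |x| ≤ (R : ℤ) ∧ |y| ≤ (R : ℤ) ∧
    ev 2 (co c) x y = - eval ![x, y] G := ⟨_, rfl⟩
  have hbox : ∀ c ∈ Z, ∀ p, |c p| ≤ (H : ℤ) := by
    intro c hc
    rw [hZ, Finset.mem_filter] at hc
    exact mem_box.1 hc.1
  have hev1 : ∀ (c : Ix 2 → ℤ) (P : Fin 2 → ℤ), eval P (G + pol c) = 0 → ev 2 (co c) (P 0) (P 1) = - eval ![P 0, P 1] G := by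
    intro c P h0
    have h3 := ar_ev (Pool.Agent.H88.A2.pol_deg c) P
    rw [ar_pol] at h3
    have hvec : ![P 0, P 1] = P := by
      funext i
      fin_cases i <;> rfl
    rw [h3, hvec]
    rw [map_add] at h0
    linarith
  have hsub : Z ⊆ Tb ∪ Ts := by
    intro c hc
    rw [Finset.mem_union]
    have hc' := hc
    rw [hZ, Finset.mem_filter] at hc'
    obtain ⟨_, P, hP⟩ := hc'
    by_cases hbig : A * S ≤ max |(P 0 : ℝ)| |(P 1 : ℝ)|
    · left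
      rw [hTb, Finset.mem_filter]
      exact ⟨hc, P, hP, hbig⟩
    · right
      push Not at hbig
      rw [hTs, Finset.mem_filter]
      have h2 := max_lt_iff.1 hbig
      have key : ∀ z : ℤ, |(z : ℝ)| < A * S → |z| ≤ (R : ℤ) := by
        intro z hz
        have h3 : ((z.natAbs : ℕ) : ℝ) ≤ A * S := by
          rw [Nat.cast_natAbs, Int.cast_abs]
          exact hz.le
        have h4 := Nat.le_floor h3
        rw [← hR] at h4
        rw [Int.abs_eq_natAbs]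
        exact_mod_cast h4
      exact ⟨hc, P 0, P 1, key _ h2.1, key _ h2.2, hev1 c P hP⟩
  have hc1 := hb B hB G hG hGB H S (by omega) hS1 hSH Tb (by
    intro c hc
    rw [hTb, Finset.mem_filter] at hc
    refine ⟨hbox c hc.1, ?_⟩
    rw [← hA]
    exact hc.2)
  have hc2 := hm H R (by omega) hR1 (fun x y => - eval ![x, y] G) Ts (by
    intro c hc
    rw [hTs, Finset.mem_filter] at hc
    exact ⟨hbox c hc.1, hc.2⟩)
  rw [← hA] at hc1
  have hK3 : 2 * (H : ℝ) + 1 ≤ 3 * H := by linarith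
  have e2 : (2 * (H : ℝ) + 1) ^ 3 ≤ 27 * (H : ℝ) ^ 3 := by
    calc (2 * (H : ℝ) + 1) ^ 3 ≤ (3 * H) ^ 3 := pow_le_pow_left₀ (by positivity) hK3 3
      _ = _ := by ring
  have e3 : (2 * (H : ℝ) + 1) ^ 5 ≤ 243 * (H : ℝ) ^ 5 := by
    calc (2 * (H : ℝ) + 1) ^ 5 ≤ (3 * H) ^ 5 := pow_le_pow_left₀ (by positivity) hK3 5
      _ = _ := by ring
  have hlog0 : 0 < Real.log H := by linarith
  have hl1 : (1 : ℝ) ≤ 2 * Real.log H := by linarith
  -- log R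
  have hfin := num2 κb κm k B H R hB hH hR1 A S hA hS1 hSleH hS2 hRle hk (Tb.card : ℝ) (Ts.card : ℝ) hc1 hc2
  have hle : (Z.card : ℝ) ≤ Tb.card + Ts.card := by
    exact_mod_cast (Finset.card_le_card hsub).trans (Finset.card_union_le _ _)
  rw [hcz]
  exact hle.trans hfin

theorem loc2_ex (n κc κu : ℕ) (hc : Cn2S n κc) (hu : UqxS n κu) : LocS n 2 (κu + κc) := by
  intro B hB G hG hGB H T hH hT
  have hB2 : (2 : ℝ) ≤ B := by exact_mod_cast hB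
  have hB1 : (1 : ℝ) ≤ B := by linarith
  have hH2 : (2 : ℝ) ≤ H := by exact_mod_cast hH
  have hH0 : (0 : ℝ) < H := by linarith
  have hlog := log_two_le hH
  have hlog0 : 0 < Real.log H := by linarith
  have hT1 : (1 : ℝ) ≤ T := by exact_mod_cast hT
  have hT0 : (0 : ℝ) < T := by linarith
  have hE : Eh n 2 H = (H : ℝ) ^ 5 * Real.log H := by
    unfold Eh
    rw [if_neg (by norm_num), if_pos rfl]
  have hsz : sz n 2 H = (H : ℝ) ^ (1 / ((n - 2 : ℕ) : ℝ)) := by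
    unfold sz
    rw [if_neg (by norm_num), if_pos rfl]
  have hS0 : 0 ≤ (H : ℝ) ^ (1 / ((n - 2 : ℕ) : ℝ)) := by positivity
  rw [hE, hsz]
  obtain ⟨Q, hQ⟩ : ∃ Q : ℝ, Q = (H : ℝ) ^ 5 * Real.log H := ⟨_, rfl⟩
  have hQ0 : 0 < Q := by rw [hQ]; positivity
  have hQl : (H : ℝ) ^ 5 = 1 / Real.log H * Q := by
    rw [hQ]
    field_simp
  have hil : 0 < 1 / Real.log H := by positivity
  have hiT : 0 < 1 / (T : ℝ) := by positivity
  rcases le_total ((B : ℝ) ^ κu) (T : ℝ) with hle | hle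
  · have h1 : (bad 2 G H ((T : ℝ) * (H : ℝ) ^ (1 / ((n - 2 : ℕ) : ℝ))) : ℝ) ≤ (bad 2 G H ((B : ℝ) ^ κu * (H : ℝ) ^ (1 / ((n - 2 : ℕ) : ℝ))) : ℝ) := by
      exact_mod_cast bad_mono 2 G H (mul_le_mul_of_nonneg_right hle hS0)
    have h2 := hu B hB G hG hGB H (by omega)
    refine h1.trans (h2.trans ?_)
    rw [← hQ, hQl]
    calc (B : ℝ) ^ κu * (1 / Real.log H * Q) ≤ (B : ℝ) ^ (κu + κc) * ((1 / (T : ℝ) + 1 / Real.log H) * Q) := by
          refine mul_le_mul (pow_le_pow_right₀ hB1 (by omega)) ?_ (by positivity) (by positivity)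
          exact mul_le_mul_of_nonneg_right (by linarith) hQ0.le
      _ = _ := by ring
  · have h1 : (bad 2 G H ((T : ℝ) * (H : ℝ) ^ (1 / ((n - 2 : ℕ) : ℝ))) : ℝ) ≤ (cnt 2 G H : ℝ) := by
      exact_mod_cast bad_le_cnt 2 G H _
    refine h1.trans ((hc B hB G hG hGB H hH).trans ?_)
    rw [← hQ]
    have h3 : 1 ≤ (B : ℝ) ^ κu * (1 / (T : ℝ)) := by
      rw [mul_one_div, le_div_iff₀ hT0, one_mul]
      exact hle
    calc (B : ℝ) ^ κc * Q = (B : ℝ) ^ κc * Q * 1 := (mul_one _).symm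
      _ ≤ (B : ℝ) ^ κc * Q * ((B : ℝ) ^ κu * (1 / (T : ℝ))) := mul_le_mul_of_nonneg_left h3 (by positivity)
      _ = (B : ℝ) ^ (κu + κc) * (1 / (T : ℝ)) * Q := by rw [pow_add]; ring
      _ ≤ (B : ℝ) ^ (κu + κc) * (1 / (T : ℝ) + 1 / Real.log H) * Q := by
        refine mul_le_mul_of_nonneg_right (mul_le_mul_of_nonneg_left (by linarith) (by positivity)) hQ0.le

/-- `j = 1` -/
theorem eff1_ex (n κ k : ℕ) (hn : 4 ≤ n) (h : Te1S n κ) (hk : 1 + 40 * (n : ℝ) ^ 2 < 2 ^ k) : EffS n 1 (2 * κ + k + 1) := by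
  intro B hB G hG hGB H hH
  have hB2 : (2 : ℝ) ≤ B := by exact_mod_cast hB
  have hB1 : (1 : ℝ) ≤ B := by linarith
  have hBH : (B : ℝ) ≤ H := by
    refine le_trans ?_ hH
    exact le_self_pow₀ hB1 (by omega)
  have hH2 : (2 : ℝ) ≤ H := hB2.trans hBH
  have hH1 : 1 ≤ H := by
    have : (1 : ℝ) ≤ H := by linarith
    exact_mod_cast this
  have hBk : (B : ℝ) ^ κ ≤ H := le_trans (pow_le_pow_right₀ hB1 (by omega)) hH
  obtain ⟨h1, h2, h3⟩ := h B hB G hG hGB H hH1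
  have h2 := h2 hBk
  have hE : Eh n 1 H = (H : ℝ) ^ (2 + 1 / ((n - 1 : ℕ) : ℝ)) := by
    unfold Eh
    rw [if_pos rfl]
  have hsz : sz n 1 H = (H : ℝ) ^ (1 / ((n - 1 : ℕ) : ℝ)) := by
    unfold sz
    rw [if_pos rfl]
  rw [hE, hsz]
  obtain ⟨E, hEd⟩ : ∃ E : ℝ, E = (H : ℝ) ^ (2 + 1 / ((n - 1 : ℕ) : ℝ)) := ⟨_, rfl⟩
  have hE0 : 0 ≤ E := by rw [hEd]; positivity
  have hc0 : (0 : ℝ) ≤ (cnt 1 G H : ℝ) := Nat.cast_nonneg _
  rw [← hEd] at h1 h2 ⊢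
  have hmon : (B : ℝ) ^ κ ≤ (B : ℝ) ^ (2 * κ + k + 1) := pow_le_pow_right₀ hB1 (by omega)
  refine ⟨h2.trans (mul_le_mul_of_nonneg_right hmon hc0), h1.trans (mul_le_mul_of_nonneg_right hmon hE0), fun T hT => ?_⟩
  have hT1 : (1 : ℝ) ≤ T := by exact_mod_cast hT
  have hl : 0 < Real.log H := Real.log_pos (by linarith)
  obtain ⟨T', hT'1, hT'T, hT'⟩ := num1 n hn H T (by linarith) hT1
  have hS0 : 0 ≤ (H : ℝ) ^ (1 / ((n - 1 : ℕ) : ℝ)) := by positivity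
  have h4 : (bad 1 G H ((T : ℝ) * (H : ℝ) ^ (1 / ((n - 1 : ℕ) : ℝ))) : ℝ) ≤ (bad 1 G H (T' * (H : ℝ) ^ (1 / ((n - 1 : ℕ) : ℝ))) : ℝ) := by
    exact_mod_cast bad_mono 1 G H (mul_le_mul_of_nonneg_right hT'T hS0)
  have h5 := h3 T' hT'1
  rw [← hEd] at h5
  refine h4.trans (h5.trans ?_)
  obtain ⟨w, hw⟩ : ∃ w : ℝ, w = 1 / (T : ℝ) + 1 / Real.log H := ⟨_, rfl⟩
  rw [← hw] at hT' ⊢
  have hw0 : 0 ≤ w := by rw [hw]; positivity
  have h2k : (2 : ℝ) ^ k ≤ (B : ℝ) ^ k := pow_le_pow_left₀ (by norm_num) hB2 k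
  calc (B : ℝ) ^ κ * (1 / T' + T' ^ 4 * (H : ℝ) ^ (-(1 / (4 * (n : ℝ) ^ 2)))) * E
      ≤ (B : ℝ) ^ κ * ((B : ℝ) ^ k * w) * ((B : ℝ) ^ κ * (cnt 1 G H : ℝ)) := by
        refine mul_le_mul (mul_le_mul_of_nonneg_left ?_ (by positivity)) h2 hE0 (by positivity)
        exact hT'.trans (mul_le_mul_of_nonneg_right (hk.le.trans h2k) hw0)
    _ = (B : ℝ) ^ (2 * κ + k) * w * (cnt 1 G H : ℝ) := by ring
    _ ≤ (B : ℝ) ^ (2 * κ + k + 1) * w * (cnt 1 G H : ℝ) := by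
        refine mul_le_mul_of_nonneg_right (mul_le_mul_of_nonneg_right (pow_le_pow_right₀ hB1 (by omega)) hw0) hc0

/-- `j = 2` -/
theorem eff2_ex (n κc κo κl : ℕ) (hc : Cn2S n κc) (ho : LocS n 2 κo) (hl : LoxS n κl) : EffS n 2 (κl + κc + κo + 1) := by
  intro B hB G hG hGB H hH
  have hB2 : (2 : ℝ) ≤ B := by exact_mod_cast hB
  have hB1 : (1 : ℝ) ≤ B := by linarith
  have hBH : (B : ℝ) ≤ H := by
    refine le_trans ?_ hH
    exact le_self_pow₀ hB1 (by omega)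
  have hH2 : 2 ≤ H := by
    have : (2 : ℝ) ≤ H := hB2.trans hBH
    exact_mod_cast this
  have hH1r : (1 : ℝ) < H := by linarith
  have hlg : 0 < Real.log H := Real.log_pos hH1r
  have h1 := hl B hB G hG.deg hGB H (le_trans (pow_le_pow_right₀ hB1 (by omega)) hH)
  have h2 := hc B hB G hG hGB H hH2
  have hE : Eh n 2 H = (H : ℝ) ^ 5 * Real.log H := by
    unfold Eh
    rw [if_neg (by norm_num), if_pos rfl]
  obtain ⟨E, hEd⟩ : ∃ E : ℝ, E = (H : ℝ) ^ 5 * Real.log H := ⟨_, rfl⟩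
  have hE0 : 0 ≤ E := by rw [hEd]; positivity
  have hc0 : (0 : ℝ) ≤ (cnt 2 G H : ℝ) := Nat.cast_nonneg _
  rw [← hEd] at h1 h2
  rw [hE, ← hEd]
  refine ⟨h1.trans (mul_le_mul_of_nonneg_right (pow_le_pow_right₀ hB1 (by omega)) hc0),
    h2.trans (mul_le_mul_of_nonneg_right (pow_le_pow_right₀ hB1 (by omega)) hE0), fun T hT => ?_⟩
  have h3 := ho B hB G hG hGB H T hH2 hT
  rw [hE, ← hEd] at h3
  refine h3.trans ?_
  obtain ⟨w, hw⟩ : ∃ w : ℝ, w = 1 / (T : ℝ) + 1 / Real.log H := ⟨_, rfl⟩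
  rw [← hw]
  have hw0 : 0 ≤ w := by rw [hw]; positivity
  calc (B : ℝ) ^ κo * w * E ≤ (B : ℝ) ^ κo * w * ((B : ℝ) ^ κl * (cnt 2 G H : ℝ)) := mul_le_mul_of_nonneg_left h1 (by positivity)
    _ = (B : ℝ) ^ (κl + κo) * w * (cnt 2 G H : ℝ) := by rw [pow_add]; ring
    _ ≤ (B : ℝ) ^ (κl + κc + κo + 1) * w * (cnt 2 G H : ℝ) :=
        mul_le_mul_of_nonneg_right (mul_le_mul_of_nonneg_right (pow_le_pow_right₀ hB1 (by omega)) hw0) hc0

theorem kaps_le (j : ℕ) (hj : 3 ≤ j) : kaps j ≤ 2 ^ (j + 5) := by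
  classical
  have h1 := (kaps_tail j hj 1 le_rfl).2
  have h5 : (1 : ℝ) ≤ 2 ^ j := one_le_pow₀ (by norm_num)
  have h2 : ∑ P ∈ Pts 1, kap j P ≤ 1 + 8 * 2 ^ j := by
    have h0 : (0, 0) ∈ Pts 1 := by
      rw [mem_Pts]
      unfold msz
      norm_num
    rw [← Finset.add_sum_erase _ _ h0, kap_zero j (by omega)]
    have h3 : ∑ P ∈ (Pts 1).erase (0, 0), kap j P ≤ ∑ _P ∈ (Pts 1).erase (0, 0), (2 : ℝ) ^ j := by
      refine Finset.sum_le_sum fun P hP => ?_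
      have hP' := Finset.mem_erase.1 hP
      have hm : 1 ≤ msz P := by
        by_contra hc
        push Not at hc
        apply hP'.1
        unfold msz at hc
        have h7 := max_lt_iff.1 hc
        have h8 : P.1 = 0 := Int.abs_lt_one_iff.1 h7.1
        have h9 : P.2 = 0 := Int.abs_lt_one_iff.1 h7.2
        exact Prod.ext h8 h9
      refine (kap_le j (by omega) P hm).trans ?_
      have hm' : (1 : ℝ) ≤ (msz P : ℝ) := by exact_mod_cast hm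
      exact div_le_self (by positivity) (one_le_pow₀ hm')
    rw [Finset.sum_const, Finset.card_erase_of_mem h0, card_Pts, nsmul_eq_mul] at h3
    norm_num at h3
    linarith
  have h4 : (16 * 2 ^ j / ((1 : ℕ) : ℝ) ^ (j - 2) : ℝ) = 16 * 2 ^ j := by
    rw [Nat.cast_one, one_pow, div_one]
  rw [h4] at h1
  have h6 : (2 : ℝ) ^ (j + 5) = 32 * 2 ^ j := by rw [pow_add]; norm_num; ring
  rw [h6]
  linarith

/-- the constant of `eff3g` -/
noncomputable def C3 (n j : ℕ) : ℝ := 3 ^ ((j + 1) * (j + 2) / 2 - 1) * (2 + kaps j + (4 * n + 9))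

theorem C3_le (n j : ℕ) (hn : 5 ≤ n) (hj : 3 ≤ j) (hjn : j < n) : 3 * C3 n j ≤ 2 ^ (2 * n ^ 2) := by
  have h1 := kaps_le j hj
  obtain ⟨N, hN⟩ : ∃ N : ℕ, N = (j + 1) * (j + 2) / 2 - 1 := ⟨_, rfl⟩
  have hN2 : 2 * (N + 1) ≤ n * (n + 1) := by
    have e1 : (j + 1) * (j + 2) ≤ n * (n + 1) := Nat.mul_le_mul (by omega) (by omega)
    have e2 : (j + 1) * (j + 2) / 2 * 2 ≤ (j + 1) * (j + 2) := Nat.div_mul_le_self _ _
    have e3 : 1 ≤ (j + 1) * (j + 2) / 2 := by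
      have e4 : 2 ≤ (j + 1) * (j + 2) := by nlinarith
      omega
    omega
  unfold C3
  rw [← hN]
  have h2 : (3 : ℝ) ^ (N + 1) ≤ 2 ^ (2 * (N + 1)) := by
    rw [pow_mul]
    exact pow_le_pow_left₀ (by norm_num) (by norm_num) _
  have h3 : (n : ℝ) ≤ 2 ^ n := by
    have : n < 2 ^ n := Nat.lt_two_pow_self
    exact_mod_cast this.le
  have h4 : (2 : ℝ) ^ (j + 5) ≤ 2 ^ (n + 4) := pow_le_pow_right₀ (by norm_num) (by omega)
  have h5 : (2 : ℝ) ^ (n + 4) = 16 * 2 ^ n := by rw [pow_add]; norm_num; ring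
  have h6 : (32 : ℝ) ≤ 2 ^ n := by
    calc (32 : ℝ) = 2 ^ 5 := by norm_num
      _ ≤ 2 ^ n := pow_le_pow_right₀ (by norm_num) hn
  have h7 : 2 + kaps j + (4 * (n : ℝ) + 9) ≤ 2 ^ (n + 5) := by
    have h8 : (2 : ℝ) ^ (n + 5) = 32 * 2 ^ n := by rw [pow_add]; norm_num; ring
    rw [h8]
    linarith
  have h9 : 0 ≤ 2 + kaps j + (4 * (n : ℝ) + 9) := by
    have := (kaps_pos j hj).le
    positivity
  calc 3 * (3 ^ N * (2 + kaps j + (4 * (n : ℝ) + 9))) = 3 ^ (N + 1) * (2 + kaps j + (4 * (n : ℝ) + 9)) := by rw [pow_succ]; ring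
    _ ≤ 2 ^ (2 * (N + 1)) * 2 ^ (n + 5) := mul_le_mul h2 h7 h9 (by positivity)
    _ = 2 ^ (2 * (N + 1) + (n + 5)) := (pow_add _ _ _).symm
    _ ≤ 2 ^ (2 * n ^ 2) := by
      refine pow_le_pow_right₀ (by norm_num) ?_
      nlinarith

/-- `j ≥ 3`, one `G` -/
theorem eff3g_ex (n j : ℕ) (hj : 3 ≤ j) (G : MvPolynomial (Fin 2) ℤ) (W V : ℝ)
    (hW : Pool.Agent.H88.TU.Cou n j G W) (hV : |((eval (0 : Fin 2 → ℤ) G : ℤ) : ℝ)| ≤ V) : Eff n j G (C3 n j * (1 + |W| + V)) := by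
  obtain ⟨N, hN⟩ : ∃ N : ℕ, N = (j + 1) * (j + 2) / 2 - 1 := ⟨_, rfl⟩
  have hκ := kaps_pos j hj
  unfold C3
  rw [← hN]
  intro H hH
  have hV0 : 0 ≤ V := (abs_nonneg _).trans hV
  have hn0 : (0 : ℝ) ≤ n := Nat.cast_nonneg n
  obtain ⟨q, hq⟩ : ∃ q : ℝ, q = (3 : ℝ) ^ N := ⟨_, rfl⟩
  have hq1 : 1 ≤ q := by rw [hq]; exact one_le_pow₀ (by norm_num)
  rw [← hq] at hH ⊢
  have hab : 0 ≤ |W| := abs_nonneg W
  obtain ⟨Z, hZ⟩ : ∃ Z : ℝ, Z = q * (2 + kaps j + (4 * n + 9)) * (1 + |W| + V) := ⟨_, rfl⟩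
  rw [← hZ] at hH ⊢
  -- lower bounds for `Z`
  have hY1 : 1 ≤ 1 + |W| + V := by linarith
  have hZ1 : 2 + V ≤ Z := by
    have e1 : 2 * 1 ≤ (q * (2 + kaps j + (4 * n + 9))) := by nlinarith
    have e2 : 2 * (1 + |W| + V) ≤ Z := by
      rw [hZ]
      exact mul_le_mul_of_nonneg_right (by linarith) (by linarith)
    linarith
  have hZ2 : q ≤ Z := by
    rw [hZ, mul_assoc]
    refine le_mul_of_one_le_right (by linarith) ?_
    nlinarith
  have hZ3 : kaps j + |W| ≤ Z := by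
    have e1 : kaps j + |W| ≤ (2 + kaps j + (4 * n + 9)) * (1 + |W| + V) := by
      have e2 : 0 ≤ kaps j * (|W| + V) := by positivity
      have e3 : 0 ≤ (2 + (4 * (n : ℝ) + 9)) * (1 + |W| + V) - |W| := by nlinarith
      nlinarith
    rw [hZ, mul_assoc]
    refine e1.trans (le_mul_of_one_le_left (by positivity) hq1)
  have hZ4 : q * ((4 * n + 9) * |W|) ≤ Z := by
    rw [hZ, mul_assoc]
    refine mul_le_mul_of_nonneg_left ?_ (by linarith)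
    refine mul_le_mul (by linarith) (by linarith) hab (by positivity)
  have hH2 : (2 : ℝ) ≤ H := by linarith
  have hH1r : (1 : ℝ) < H := by linarith
  have hH0 : (0 : ℝ) < H := by linarith
  have hH1 : 1 ≤ H := by exact_mod_cast hH1r.le
  have hlg : 0 < Real.log H := Real.log_pos hH1r
  have hE : Eh n j H = (2 * (H : ℝ) + 1) ^ N := by
    unfold Eh
    rw [if_neg (by omega), if_neg (by omega), hN]
  have hsz : sz n j H = 1 := by
    unfold sz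
    rw [if_neg (by omega), if_neg (by omega)]
  rw [hE, hsz]
  obtain ⟨E, hEd⟩ : ∃ E : ℝ, E = (2 * (H : ℝ) + 1) ^ N := ⟨_, rfl⟩
  have hE0 : 0 ≤ E := by rw [hEd]; positivity
  rw [← hEd]
  obtain ⟨c, hc⟩ : ∃ c : ℝ, c = (cnt j G H : ℝ) := ⟨_, rfl⟩
  have hc0 : 0 ≤ c := by rw [hc]; exact Nat.cast_nonneg _
  have hlo : E ≤ q * c := by
    have h1 := lo3 j G H (by
      have h2 : |((eval (0 : Fin 2 → ℤ) G : ℤ) : ℝ)| ≤ (H : ℝ) := by linarith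
      exact_mod_cast h2)
    rw [← hN] at h1
    rw [hEd, hq, hc]
    calc (2 * (H : ℝ) + 1) ^ N ≤ (3 * H) ^ N := pow_le_pow_left₀ (by positivity) (by linarith) _
      _ = 3 ^ N * (H : ℝ) ^ N := mul_pow _ _ _
      _ ≤ 3 ^ N * (cnt j G H : ℝ) := mul_le_mul_of_nonneg_left h1 (by positivity)
  obtain ⟨g1, g2, g3⟩ := hW H hH1
  obtain ⟨u, hu⟩ : ∃ u : ℝ, u = (H : ℝ) ^ (-(1 / (2 * (n : ℝ) + 4))) := ⟨_, rfl⟩
  rw [← hN, ← hu, ← hEd] at g1 g2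
  have hu0 : 0 ≤ u := by rw [hu]; positivity
  have hu1 : u ≤ 1 := by
    rw [hu]
    exact Real.rpow_le_one_of_one_le_of_nonpos hH1r.le (by
      have : 0 ≤ 1 / (2 * (n : ℝ) + 4) := by positivity
      linarith)
  have hul : u ≤ (2 * n + 4) * (1 / Real.log H) := by
    have h1 := pow_log (δ := 1 / (2 * (n : ℝ) + 4)) (by positivity) hH1r
    rw [one_div_one_div] at h1
    rw [hu]
    exact h1
  rw [← hc]
  refine ⟨hlo.trans (mul_le_mul_of_nonneg_right hZ2 hc0), ?_, fun T hT => ?_⟩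
  · have h1 : c - kaps j * E ≤ W * u * E := (le_abs_self _).trans (by rw [hc]; exact g1)
    have h2 : W * u * E ≤ |W| * E := by
      refine mul_le_mul_of_nonneg_right ?_ hE0
      calc W * u ≤ |W| * u := mul_le_mul_of_nonneg_right (le_abs_self W) hu0
        _ ≤ |W| * 1 := mul_le_mul_of_nonneg_left hu1 hab
        _ = |W| := mul_one _
    calc c ≤ (kaps j + |W|) * E := by linarith
      _ ≤ Z * E := mul_le_mul_of_nonneg_right hZ3 hE0
  · have g3 := g3 T hT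
    rw [← hN, ← hu, ← hEd] at g3
    have hT1 : (1 : ℝ) ≤ T := by exact_mod_cast hT
    have hT0 : (0 : ℝ) < T := by linarith
    rw [mul_one]
    have h1 := bad_two j G H T
    obtain ⟨w, hw⟩ : ∃ w : ℝ, w = 1 / (T : ℝ) + 1 / Real.log H := ⟨_, rfl⟩
    rw [← hw]
    have hiT : 0 < 1 / (T : ℝ) := by positivity
    have hil : 0 < 1 / Real.log H := by positivity
    have hw0 : 0 ≤ w := by rw [hw]; linarith
    have h2 : 1 / (T : ℝ) ^ (j - 2) ≤ 1 / (T : ℝ) := by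
      refine one_div_le_one_div_of_le hT0 ?_
      exact le_self_pow₀ hT1 (by omega)
    have h3 : W * u * E ≤ |W| * ((2 * n + 4) * w) * E := by
      refine mul_le_mul_of_nonneg_right ?_ hE0
      refine (mul_le_mul_of_nonneg_right (le_abs_self W) hu0).trans (mul_le_mul_of_nonneg_left ?_ hab)
      refine hul.trans (mul_le_mul_of_nonneg_left (by rw [hw]; linarith) (by positivity))
    have h4 : W * (1 / (T : ℝ) ^ (j - 2) + u) * E ≤ |W| * ((2 * n + 5) * w) * E := by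
      refine mul_le_mul_of_nonneg_right ?_ hE0
      have h5 : 0 ≤ 1 / (T : ℝ) ^ (j - 2) + u := by positivity
      refine (mul_le_mul_of_nonneg_right (le_abs_self W) h5).trans (mul_le_mul_of_nonneg_left ?_ hab)
      have h6 : (2 * (n : ℝ) + 4) * (1 / Real.log H) ≤ (2 * n + 4) * w := mul_le_mul_of_nonneg_left (by rw [hw]; linarith) (by positivity)
      have h7 : 1 / (T : ℝ) ≤ w := by rw [hw]; linarith
      have h8 : (2 * (n : ℝ) + 5) * w = w + (2 * n + 4) * w := by ring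
      rw [h8]
      linarith
    calc (bad j G H (T : ℝ) : ℝ) ≤ W * u * E + W * (1 / (T : ℝ) ^ (j - 2) + u) * E := h1.trans (add_le_add g2 g3)
      _ ≤ |W| * ((2 * n + 4) * w) * E + |W| * ((2 * n + 5) * w) * E := add_le_add h3 h4
      _ = ((4 * n + 9) * |W|) * w * E := by ring
      _ ≤ ((4 * n + 9) * |W|) * w * (q * c) := mul_le_mul_of_nonneg_left hlo (by positivity)
      _ = (q * ((4 * n + 9) * |W|)) * (w * c) := by ring
      _ ≤ Z * (w * c) := mul_le_mul_of_nonneg_right hZ4 (by positivity)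
      _ = Z * w * c := by ring

/-- `j ≥ 3`, `n ≥ 5`, explicit -/
theorem eff3_ex (n j : ℕ) (hn : 5 ≤ n) (hj : 3 ≤ j) (hjn : j < n) : EffS n j (2 * n ^ 2 + (n ^ 16 + 1)) := by
  have hk := C3_le n j hn hj hjn
  have hC : 1 ≤ C3 n j := by
    unfold C3
    have h1 : (1 : ℝ) ≤ 3 ^ ((j + 1) * (j + 2) / 2 - 1) := one_le_pow₀ (by norm_num)
    have h2 : (0 : ℝ) ≤ n := Nat.cast_nonneg n
    have h3 := kaps_pos j hj
    nlinarith
  intro B hB G hG hGB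
  have hB2 : (2 : ℝ) ≤ B := by exact_mod_cast hB
  have hB1 : (1 : ℝ) ≤ B := by linarith
  obtain ⟨W, hW, hC2⟩ := Pool.Agent.H88.TF.wcf n j G (by omega) hj hjn hG.deg hG.irr
  have hW1 := hW hn B hB fun m => by
    have := hGB m
    omega
  have hW0 := cou_nonneg hC2
  have hV := val_zero G B hGB
  have h1 := eff3g_ex n j hj G W B hC2 hV
  rw [abs_of_nonneg hW0] at h1
  refine h1.mono ?_ ?_
  · have : 1 ≤ 1 + W + (B : ℝ) := by linarith
    nlinarith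
  · have h2 : (1 : ℝ) ≤ (B : ℝ) ^ (n ^ 16 + 1) := one_le_pow₀ hB1
    have h3 : (B : ℝ) ≤ (B : ℝ) ^ (n ^ 16 + 1) := le_self_pow₀ hB1 (by omega)
    have h4 : W ≤ (B : ℝ) ^ (n ^ 16 + 1) := hW1.trans (pow_le_pow_right₀ hB1 (by omega))
    have h2k : (2 : ℝ) ^ (2 * n ^ 2) ≤ (B : ℝ) ^ (2 * n ^ 2) := pow_le_pow_left₀ (by norm_num) hB2 _
    calc C3 n j * (1 + W + B) ≤ C3 n j * (3 * (B : ℝ) ^ (n ^ 16 + 1)) := mul_le_mul_of_nonneg_left (by linarith) (by linarith)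
      _ = (3 * C3 n j) * (B : ℝ) ^ (n ^ 16 + 1) := by ring
      _ ≤ (B : ℝ) ^ (2 * n ^ 2) * (B : ℝ) ^ (n ^ 16 + 1) := mul_le_mul_of_nonneg_right (hk.trans h2k) (by positivity)
      _ = (B : ℝ) ^ (2 * n ^ 2 + (n ^ 16 + 1)) := (pow_add _ _ _).symm

end Pool.Agent.H88.TY
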