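import Pool.Agent.H88.TY.Effr
import Pool.Agent.H99.UP.Allc

/-! # [H88 TY EFFN] All plane curves (`j = n`, `G = 0`): the effective statement from the count -/

namespace Pool.Agent.H88.TY

open Finset MvPolynomial Pool.Agent.H8.AA Pool.Agent.H88.A2 Pool.Agent.H88.TS Pool.Agent.H82.TO Pool.Agent.H15.SC Pool.Agent.H88.TX

theorem effn (n : ℕ) (hn : 5 ≤ n) : ∃ W : ℝ, 2 ≤ W ∧
    (∀ H : ℕ, W ≤ (H : ℝ) → Eh n n H ≤ W * (cnt n 0 H : ℝ) ∧ (cnt n 0 H : ℝ) ≤ W * Eh n n H ∧ ∀ T : ℕ, 1 ≤ T →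
      (bad n 0 H ((T : ℝ) * sz n n H) : ℝ) ≤ W * (1 / (T : ℝ) + (H : ℝ) ^ (-(1 / 100 : ℝ))) * (cnt n 0 H : ℝ)) ∧
    ∀ H : ℕ, 1 ≤ H →
      |(cnt n 0 H : ℝ) - kaps n * Eh n n H| ≤ W * (H : ℝ) ^ (-(1 / 100 : ℝ)) * Eh n n H ∧
      ((Set.ncard {L : MvPolynomial (Fin 2) ℤ | L.totalDegree ≤ n ∧ (∀ m, |L.coeff m| ≤ (H : ℤ)) ∧
        ∃ P Q : Fin 2 → ℤ, P ≠ Q ∧ eval P (0 + L) = 0 ∧ eval Q (0 + L) = 0} : ℕ) : ℝ) ≤
        W * (H : ℝ) ^ (-(1 / 100 : ℝ)) * Eh n n H ∧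
      ∀ T : ℕ, 1 ≤ T →
        ((Set.ncard {L : MvPolynomial (Fin 2) ℤ | L.totalDegree ≤ n ∧ (∀ m, |L.coeff m| ≤ (H : ℤ)) ∧
          ∃ P : Fin 2 → ℤ, (T : ℤ) < max |P 0| |P 1| ∧ eval P (0 + L) = 0} : ℕ) : ℝ) ≤
          W * (1 / (T : ℝ) ^ (n - 2) + (H : ℝ) ^ (-(1 / 100 : ℝ))) * Eh n n H := by
  obtain ⟨W0, hW0⟩ := Pool.Agent.H99.UP.allc n hn
  obtain ⟨N, hN⟩ : ∃ N : ℕ, N = (n + 1) * (n + 2) / 2 - 1 := ⟨_, rfl⟩
  have hκ := kaps_pos n (by omega)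
  obtain ⟨q, hq⟩ : ∃ q : ℝ, q = (3 : ℝ) ^ N := ⟨_, rfl⟩
  have hq1 : 1 ≤ q := by rw [hq]; exact one_le_pow₀ (by norm_num)
  have hab : 0 ≤ |W0| := abs_nonneg W0
  obtain ⟨Z, hZ⟩ : ∃ Z : ℝ, Z = q * (2 + kaps n + 2 * |W0|) := ⟨_, rfl⟩
  have hZ1 : 2 ≤ Z := by rw [hZ]; nlinarith
  have hZ2 : q ≤ Z := by rw [hZ]; nlinarith
  have hZ3 : kaps n + |W0| ≤ Z := by rw [hZ]; nlinarith
  have hZ4 : q * (2 * |W0|) ≤ Z := by rw [hZ]; nlinarith
  have hEh : ∀ H : ℕ, Eh n n H = (2 * (H : ℝ) + 1) ^ N := by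
    intro H
    unfold Eh
    rw [if_neg (by omega), if_neg (by omega), hN]
  have hcnt : ∀ H : ℕ, cnt n 0 H = Set.ncard {L : MvPolynomial (Fin 2) ℤ | L.totalDegree ≤ n ∧ (∀ m, |L.coeff m| ≤ (H : ℤ)) ∧
      ∃ P : Fin 2 → ℤ, eval P L = 0} := by
    intro H
    unfold Pool.Agent.H82.TO.cnt
    simp only [zero_add]
  have hsz : ∀ H : ℕ, sz n n H = 1 := by
    intro H
    unfold sz
    rw [if_neg (by omega), if_neg (by omega)]
  have hu : ∀ H : ℕ, 1 ≤ H → 0 ≤ (H : ℝ) ^ (-(1 / 100 : ℝ)) ∧ (H : ℝ) ^ (-(1 / 100 : ℝ)) ≤ 1 := by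
    intro H hH
    have hH1 : (1 : ℝ) ≤ H := by exact_mod_cast hH
    exact ⟨by positivity, Real.rpow_le_one_of_one_le_of_nonpos hH1 (by norm_num)⟩
  refine ⟨Z, hZ1, fun H hH => ?_, fun H hH => ?_⟩
  · have hH2 : (2 : ℝ) ≤ H := by linarith
    have hH1 : 1 ≤ H := by
      have : (1 : ℝ) ≤ H := by linarith
      exact_mod_cast this
    obtain ⟨g1, g2, g3⟩ := hW0 H hH1
    obtain ⟨hu0, hu1⟩ := hu H hH1
    obtain ⟨u, hue⟩ : ∃ u : ℝ, u = (H : ℝ) ^ (-(1 / 100 : ℝ)) := ⟨_, rfl⟩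
    obtain ⟨E, hE⟩ : ∃ E : ℝ, E = (2 * (H : ℝ) + 1) ^ N := ⟨_, rfl⟩
    have hE0 : 0 ≤ E := by rw [hE]; positivity
    rw [← hcnt, ← hN, ← hue, ← hE] at g1
    rw [← hN, ← hue, ← hE] at g2
    rw [← hue] at hu0 hu1
    rw [hEh, hsz, ← hue, ← hE]
    obtain ⟨c, hc⟩ : ∃ c : ℝ, c = (cnt n 0 H : ℝ) := ⟨_, rfl⟩
    have hc0 : 0 ≤ c := by rw [hc]; exact Nat.cast_nonneg _
    rw [← hc] at g1 ⊢
    have hlo : E ≤ q * c := by
      have h1 := lo3 n 0 H (by rw [map_zero, abs_zero]; exact Int.natCast_nonneg H)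
      rw [← hN] at h1
      rw [hE, hq, hc]
      calc (2 * (H : ℝ) + 1) ^ N ≤ (3 * H) ^ N := pow_le_pow_left₀ (by positivity) (by linarith) _
        _ = 3 ^ N * (H : ℝ) ^ N := mul_pow _ _ _
        _ ≤ 3 ^ N * (cnt n 0 H : ℝ) := mul_le_mul_of_nonneg_left h1 (by positivity)
    refine ⟨hlo.trans (mul_le_mul_of_nonneg_right hZ2 hc0), ?_, fun T hT => ?_⟩
    · have h1 : c - kaps n * E ≤ W0 * u * E := (le_abs_self _).trans g1
      have h2 : W0 * u * E ≤ |W0| * E := by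
        refine mul_le_mul_of_nonneg_right ?_ hE0
        calc W0 * u ≤ |W0| * u := mul_le_mul_of_nonneg_right (le_abs_self W0) hu0
          _ ≤ |W0| * 1 := mul_le_mul_of_nonneg_left hu1 hab
          _ = |W0| := mul_one _
      calc c ≤ (kaps n + |W0|) * E := by linarith
        _ ≤ Z * E := mul_le_mul_of_nonneg_right hZ3 hE0
    · have g3 := g3 T hT
      rw [← hN, ← hue, ← hE] at g3
      have hT1 : (1 : ℝ) ≤ T := by exact_mod_cast hT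
      have hT0 : (0 : ℝ) < T := by linarith
      rw [mul_one]
      have h1 := bad_two n 0 H T
      simp only [zero_add] at h1
      obtain ⟨w, hw⟩ : ∃ w : ℝ, w = 1 / (T : ℝ) + u := ⟨_, rfl⟩
      rw [← hw]
      have hiT : 0 < 1 / (T : ℝ) := by positivity
      have hw0 : 0 ≤ w := by rw [hw]; linarith
      have h2 : 1 / (T : ℝ) ^ (n - 2) ≤ 1 / (T : ℝ) := by
        refine one_div_le_one_div_of_le hT0 ?_
        exact le_self_pow₀ hT1 (by omega)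
      have h3 : W0 * u * E ≤ |W0| * w * E := by
        refine mul_le_mul_of_nonneg_right ?_ hE0
        exact (mul_le_mul_of_nonneg_right (le_abs_self W0) hu0).trans (mul_le_mul_of_nonneg_left (by rw [hw]; linarith) hab)
      have h4 : W0 * (1 / (T : ℝ) ^ (n - 2) + u) * E ≤ |W0| * w * E := by
        refine mul_le_mul_of_nonneg_right ?_ hE0
        have h5 : 0 ≤ 1 / (T : ℝ) ^ (n - 2) + u := by positivity
        exact (mul_le_mul_of_nonneg_right (le_abs_self W0) h5).trans (mul_le_mul_of_nonneg_left (by rw [hw]; linarith) hab)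
      calc (bad n 0 H (T : ℝ) : ℝ) ≤ W0 * u * E + W0 * (1 / (T : ℝ) ^ (n - 2) + u) * E := h1.trans (add_le_add g2 g3)
        _ ≤ |W0| * w * E + |W0| * w * E := add_le_add h3 h4
        _ = (2 * |W0|) * w * E := by ring
        _ ≤ (2 * |W0|) * w * (q * c) := mul_le_mul_of_nonneg_left hlo (by positivity)
        _ = (q * (2 * |W0|)) * (w * c) := by ring
        _ ≤ Z * (w * c) := mul_le_mul_of_nonneg_right hZ4 (by positivity)
        _ = Z * w * c := by ring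
  · obtain ⟨g1, g2, g3⟩ := hW0 H hH
    obtain ⟨hu0, hu1⟩ := hu H hH
    have hWZ : W0 ≤ Z := by
      have := le_abs_self W0
      linarith
    rw [hEh, hcnt]
    simp only [zero_add]
    rw [hN]
    have hE0 : 0 ≤ (2 * (H : ℝ) + 1) ^ ((n + 1) * (n + 2) / 2 - 1) := by positivity
    refine ⟨g1.trans (mul_le_mul_of_nonneg_right (mul_le_mul_of_nonneg_right hWZ hu0) hE0),
      g2.trans (mul_le_mul_of_nonneg_right (mul_le_mul_of_nonneg_right hWZ hu0) hE0), fun T hT => ?_⟩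
    refine (g3 T hT).trans (mul_le_mul_of_nonneg_right (mul_le_mul_of_nonneg_right hWZ ?_) hE0)
    positivity

end Pool.Agent.H88.TY
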