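import Pool.Agent.H88.TY.Fine

/-! # [H88 TY EFFR] The effective statement with the error term `er` -/

namespace Pool.Agent.H88.TY

open Finset MvPolynomial Pool.Agent.H8.AA Pool.Agent.H88.A2 Pool.Agent.H88.TS Pool.Agent.H82.TO Pool.Agent.H15.SC Pool.Agent.H88.TX

/-- the error term -/
noncomputable def er (n j H : ℕ) : ℝ :=
  if j = 1 then (H : ℝ) ^ (-(1 / (20 * (n : ℝ) ^ 2))) else if j = 2 then 1 / Real.log H else
    (H : ℝ) ^ (-(1 / (2 * (n : ℝ) + 4)))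

theorem er_nonneg (n j H : ℕ) (hH : 1 ≤ H) : 0 ≤ er n j H := by
  have h1 : (1 : ℝ) ≤ (H : ℝ) := by exact_mod_cast hH
  have h2 := Real.log_nonneg h1
  unfold er
  split_ifs
  · positivity
  · positivity
  · positivity

/-- the effective statement with the error term `er` -/
def Efr (n j : ℕ) (G : MvPolynomial (Fin 2) ℤ) (W : ℝ) : Prop := ∀ H : ℕ, W ≤ (H : ℝ) →
    Eh n j H ≤ W * (cnt j G H : ℝ) ∧ (cnt j G H : ℝ) ≤ W * Eh n j H ∧ ∀ T : ℕ, 1 ≤ T →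
    (bad j G H ((T : ℝ) * sz n j H) : ℝ) ≤ W * (1 / (T : ℝ) + er n j H) * (cnt j G H : ℝ)

theorem Efr.mono {n j : ℕ} {G : MvPolynomial (Fin 2) ℤ} {W W' : ℝ} (hW : 1 ≤ W) (h : Efr n j G W) (hWW : W ≤ W') : Efr n j G W' := by
  intro H hH
  have hWH : W ≤ (H : ℝ) := hWW.trans hH
  have hH1 : (1 : ℝ) ≤ H := hW.trans hWH
  have hH1' : 1 ≤ H := by exact_mod_cast hH1
  obtain ⟨h1, h2, h3⟩ := h H hWH
  have hc0 : (0 : ℝ) ≤ (cnt j G H : ℝ) := Nat.cast_nonneg _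
  have hE0 := Eh_nonneg n j H hH1'
  refine ⟨h1.trans (mul_le_mul_of_nonneg_right hWW hc0), h2.trans (mul_le_mul_of_nonneg_right hWW hE0), fun T hT => ?_⟩
  refine (h3 T hT).trans ?_
  have h4 := er_nonneg n j H hH1'
  have h5 : 0 ≤ 1 / (T : ℝ) + er n j H := by positivity
  exact mul_le_mul_of_nonneg_right (mul_le_mul_of_nonneg_right hWW h5) hc0

/-- `j = 2` -/
theorem efr_of_eff {n : ℕ} {G : MvPolynomial (Fin 2) ℤ} {W : ℝ} (h : Eff n 2 G W) : Efr n 2 G W := by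
  intro H hH
  obtain ⟨h1, h2, h3⟩ := h H hH
  refine ⟨h1, h2, fun T hT => ?_⟩
  have h4 := h3 T hT
  have h5 : er n 2 H = 1 / Real.log H := by
    unfold er
    rw [if_neg (by norm_num), if_pos rfl]
  rw [h5]
  exact h4

theorem num2 (n : ℕ) (hn : 4 ≤ n) (x T : ℝ) (hx : 1 < x) (hT : 1 ≤ T) : ∃ T' : ℝ, 1 ≤ T' ∧ T' ≤ T ∧
    1 / T' + T' ^ 4 * x ^ (-(1 / (4 * (n : ℝ) ^ 2))) ≤ 2 * (1 / T + x ^ (-(1 / (20 * (n : ℝ) ^ 2)))) := by
  have hx0 : 0 < x := by linarith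
  have hn0 : (0 : ℝ) < n := by exact_mod_cast (by omega : 0 < n)
  obtain ⟨δ, hδ⟩ : ∃ δ : ℝ, δ = 1 / (20 * (n : ℝ) ^ 2) := ⟨_, rfl⟩
  have hδ0 : 0 < δ := by rw [hδ]; positivity
  have hd4 : -(1 / (4 * (n : ℝ) ^ 2)) = -(5 * δ) := by rw [hδ]; field_simp; norm_num
  have hy : 0 < x ^ δ := Real.rpow_pos_of_pos hx0 δ
  have hy1 : 1 ≤ x ^ δ := Real.one_le_rpow hx.le hδ0.le
  have hT0 : 0 < T := by linarith
  refine ⟨min T (x ^ δ), le_min hT hy1, min_le_left _ _, ?_⟩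
  obtain ⟨u, hu⟩ : ∃ u : ℝ, u = min T (x ^ δ) := ⟨_, rfl⟩
  rw [← hu, hd4, ← hδ]
  have hu1 : 1 ≤ u := by rw [hu]; exact le_min hT hy1
  have huy : u ≤ x ^ δ := by rw [hu]; exact min_le_right _ _
  have e1 : 1 / u ≤ 1 / T + x ^ (-δ) := by
    rw [Real.rpow_neg hx0.le, ← one_div]
    rcases min_choice T (x ^ δ) with h | h
    · rw [hu, h]
      have : 0 < 1 / x ^ δ := by positivity
      linarith
    · rw [hu, h]
      have : 0 < 1 / T := by positivity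
      linarith
  have e2 : u ^ 4 * x ^ (-(5 * δ)) ≤ x ^ (-δ) := by
    have e3 : u ^ 4 ≤ x ^ (4 * δ) := by
      calc u ^ 4 ≤ (x ^ δ) ^ 4 := pow_le_pow_left₀ (by linarith) huy 4
        _ = x ^ (4 * δ) := by
          rw [← Real.rpow_natCast, ← Real.rpow_mul hx0.le]
          congr 1
          push_cast
          ring
    calc u ^ 4 * x ^ (-(5 * δ)) ≤ x ^ (4 * δ) * x ^ (-(5 * δ)) := mul_le_mul_of_nonneg_right e3 (Real.rpow_nonneg hx0.le _)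
      _ = x ^ (-δ) := by
        rw [← Real.rpow_add hx0]
        congr 1
        ring
  have e4 : 0 < 1 / T := by positivity
  linarith

/-- `j = 1` -/
theorem efr1 (n κ : ℕ) (hn : 4 ≤ n) (h : Te1S n κ) : ∀ B : ℕ, 2 ≤ B → ∀ G : MvPolynomial (Fin 2) ℤ, Hyp0 n 1 G →
    (∀ m, |G.coeff m| + 1 ≤ (B : ℤ)) → Efr n 1 G ((B : ℝ) ^ (2 * κ + 1)) := by
  intro B hB G hG hGB H hH
  have hB2 : (2 : ℝ) ≤ B := by exact_mod_cast hB
  have hB1 : (1 : ℝ) ≤ B := by linarith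
  have hBH : (B : ℝ) ≤ H := by
    refine le_trans ?_ hH
    exact le_self_pow₀ hB1 (by omega)
  have hH2 : (2 : ℝ) ≤ H := hB2.trans hBH
  have hH1 : 1 ≤ H := by
    have : (1 : ℝ) ≤ H := by linarith
    exact_mod_cast this
  have hBk : (B : ℝ) ^ κ ≤ H := le_trans (pow_le_pow_right₀ hB1 (by omega)) hH
  obtain ⟨h1, h2, h3⟩ := h B hB G hG hGB H hH1
  have h2 := h2 hBk
  have hE : Eh n 1 H = (H : ℝ) ^ (2 + 1 / ((n - 1 : ℕ) : ℝ)) := by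
    unfold Eh
    rw [if_pos rfl]
  have hsz : sz n 1 H = (H : ℝ) ^ (1 / ((n - 1 : ℕ) : ℝ)) := by
    unfold sz
    rw [if_pos rfl]
  have her : er n 1 H = (H : ℝ) ^ (-(1 / (20 * (n : ℝ) ^ 2))) := by
    unfold er
    rw [if_pos rfl]
  rw [hE, hsz, her]
  obtain ⟨E, hEd⟩ : ∃ E : ℝ, E = (H : ℝ) ^ (2 + 1 / ((n - 1 : ℕ) : ℝ)) := ⟨_, rfl⟩
  have hE0 : 0 ≤ E := by rw [hEd]; positivity
  have hc0 : (0 : ℝ) ≤ (cnt 1 G H : ℝ) := Nat.cast_nonneg _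
  rw [← hEd] at h1 h2 ⊢
  have hmon : (B : ℝ) ^ κ ≤ (B : ℝ) ^ (2 * κ + 1) := pow_le_pow_right₀ hB1 (by omega)
  refine ⟨h2.trans (mul_le_mul_of_nonneg_right hmon hc0), h1.trans (mul_le_mul_of_nonneg_right hmon hE0), fun T hT => ?_⟩
  have hT1 : (1 : ℝ) ≤ T := by exact_mod_cast hT
  obtain ⟨T', hT'1, hT'T, hT'⟩ := num2 n hn H T (by linarith) hT1
  have hS0 : 0 ≤ (H : ℝ) ^ (1 / ((n - 1 : ℕ) : ℝ)) := by positivity
  have h4 : (bad 1 G H ((T : ℝ) * (H : ℝ) ^ (1 / ((n - 1 : ℕ) : ℝ))) : ℝ) ≤ (bad 1 G H (T' * (H : ℝ) ^ (1 / ((n - 1 : ℕ) : ℝ))) : ℝ) := by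
    exact_mod_cast bad_mono 1 G H (mul_le_mul_of_nonneg_right hT'T hS0)
  have h5 := h3 T' hT'1
  rw [← hEd] at h5
  refine h4.trans (h5.trans ?_)
  obtain ⟨w, hw⟩ : ∃ w : ℝ, w = 1 / (T : ℝ) + (H : ℝ) ^ (-(1 / (20 * (n : ℝ) ^ 2))) := ⟨_, rfl⟩
  rw [← hw] at hT' ⊢
  have hw0 : 0 ≤ w := by rw [hw]; positivity
  calc (B : ℝ) ^ κ * (1 / T' + T' ^ 4 * (H : ℝ) ^ (-(1 / (4 * (n : ℝ) ^ 2)))) * E
      ≤ (B : ℝ) ^ κ * (B * w) * ((B : ℝ) ^ κ * (cnt 1 G H : ℝ)) := by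
        refine mul_le_mul (mul_le_mul_of_nonneg_left ?_ (by positivity)) h2 hE0 (by positivity)
        exact hT'.trans (mul_le_mul_of_nonneg_right hB2 hw0)
    _ = (B : ℝ) ^ (2 * κ + 1) * w * (cnt 1 G H : ℝ) := by ring

/-- `j ≥ 3`, one `G` -/
theorem efr3 (n j : ℕ) (hj : 3 ≤ j) (G : MvPolynomial (Fin 2) ℤ) (W V : ℝ)
    (hW : Pool.Agent.H88.TU.Cou n j G W) (hV : |((eval (0 : Fin 2 → ℤ) G : ℤ) : ℝ)| ≤ V) : Efr n j G (C3 n j * (1 + |W| + V)) := by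
  intro H hH
  obtain ⟨k1, k2, _⟩ := eff3g_ex n j hj G W V hW hV H hH
  refine ⟨k1, k2, ?_⟩
  clear k1 k2
  obtain ⟨N, hN⟩ : ∃ N : ℕ, N = (j + 1) * (j + 2) / 2 - 1 := ⟨_, rfl⟩
  have hκ := kaps_pos j hj
  unfold C3 at hH ⊢
  rw [← hN] at hH ⊢
  have hV0 : 0 ≤ V := (abs_nonneg _).trans hV
  have hn0 : (0 : ℝ) ≤ n := Nat.cast_nonneg n
  obtain ⟨q, hq⟩ : ∃ q : ℝ, q = (3 : ℝ) ^ N := ⟨_, rfl⟩
  have hq1 : 1 ≤ q := by rw [hq]; exact one_le_pow₀ (by norm_num)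
  rw [← hq] at hH ⊢
  have hab : 0 ≤ |W| := abs_nonneg W
  obtain ⟨Z, hZ⟩ : ∃ Z : ℝ, Z = q * (2 + kaps j + (4 * n + 9)) * (1 + |W| + V) := ⟨_, rfl⟩
  rw [← hZ] at hH ⊢
  have hY1 : 1 ≤ 1 + |W| + V := by linarith
  have hZ1 : 2 + V ≤ Z := by
    have e1 : 2 * 1 ≤ (q * (2 + kaps j + (4 * n + 9))) := by nlinarith
    have e2 : 2 * (1 + |W| + V) ≤ Z := by
      rw [hZ]
      exact mul_le_mul_of_nonneg_right (by linarith) (by linarith)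
    linarith
  have hZ4 : q * (2 * |W|) ≤ Z := by
    rw [hZ, mul_assoc]
    refine mul_le_mul_of_nonneg_left ?_ (by linarith)
    refine mul_le_mul (by linarith) (by linarith) hab (by positivity)
  have hH2 : (2 : ℝ) ≤ H := by linarith
  have hH1r : (1 : ℝ) < H := by linarith
  have hH0 : (0 : ℝ) < H := by linarith
  have hH1 : 1 ≤ H := by exact_mod_cast hH1r.le
  have hsz : sz n j H = 1 := by
    unfold sz
    rw [if_neg (by omega), if_neg (by omega)]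
  have her : er n j H = (H : ℝ) ^ (-(1 / (2 * (n : ℝ) + 4))) := by
    unfold er
    rw [if_neg (by omega), if_neg (by omega)]
  rw [hsz, her]
  obtain ⟨E, hEd⟩ : ∃ E : ℝ, E = (2 * (H : ℝ) + 1) ^ N := ⟨_, rfl⟩
  have hE0 : 0 ≤ E := by rw [hEd]; positivity
  obtain ⟨c, hc⟩ : ∃ c : ℝ, c = (cnt j G H : ℝ) := ⟨_, rfl⟩
  have hc0 : 0 ≤ c := by rw [hc]; exact Nat.cast_nonneg _
  have hlo : E ≤ q * c := by
    have h1 := lo3 j G H (by
      have h2 : |((eval (0 : Fin 2 → ℤ) G : ℤ) : ℝ)| ≤ (H : ℝ) := by linarith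
      exact_mod_cast h2)
    rw [← hN] at h1
    rw [hEd, hq, hc]
    calc (2 * (H : ℝ) + 1) ^ N ≤ (3 * H) ^ N := pow_le_pow_left₀ (by positivity) (by linarith) _
      _ = 3 ^ N * (H : ℝ) ^ N := mul_pow _ _ _
      _ ≤ 3 ^ N * (cnt j G H : ℝ) := mul_le_mul_of_nonneg_left h1 (by positivity)
  obtain ⟨g1, g2, g3⟩ := hW H hH1
  obtain ⟨u, hu⟩ : ∃ u : ℝ, u = (H : ℝ) ^ (-(1 / (2 * (n : ℝ) + 4))) := ⟨_, rfl⟩
  rw [← hN, ← hu, ← hEd] at g1 g2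
  have hu0 : 0 ≤ u := by rw [hu]; positivity
  rw [← hc, ← hu]
  intro T hT
  have g3 := g3 T hT
  rw [← hN, ← hu, ← hEd] at g3
  have hT1 : (1 : ℝ) ≤ T := by exact_mod_cast hT
  have hT0 : (0 : ℝ) < T := by linarith
  rw [mul_one]
  have h1 := bad_two j G H T
  obtain ⟨w, hw⟩ : ∃ w : ℝ, w = 1 / (T : ℝ) + u := ⟨_, rfl⟩
  rw [← hw]
  have hiT : 0 < 1 / (T : ℝ) := by positivity
  have hw0 : 0 ≤ w := by rw [hw]; linarith
  have h2 : 1 / (T : ℝ) ^ (j - 2) ≤ 1 / (T : ℝ) := by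
    refine one_div_le_one_div_of_le hT0 ?_
    exact le_self_pow₀ hT1 (by omega)
  have h3 : W * u * E ≤ |W| * w * E := by
    refine mul_le_mul_of_nonneg_right ?_ hE0
    exact (mul_le_mul_of_nonneg_right (le_abs_self W) hu0).trans (mul_le_mul_of_nonneg_left (by rw [hw]; linarith) hab)
  have h4 : W * (1 / (T : ℝ) ^ (j - 2) + u) * E ≤ |W| * w * E := by
    refine mul_le_mul_of_nonneg_right ?_ hE0
    have h5 : 0 ≤ 1 / (T : ℝ) ^ (j - 2) + u := by positivity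
    exact (mul_le_mul_of_nonneg_right (le_abs_self W) h5).trans (mul_le_mul_of_nonneg_left (by rw [hw]; linarith) hab)
  calc (bad j G H (T : ℝ) : ℝ) ≤ W * u * E + W * (1 / (T : ℝ) ^ (j - 2) + u) * E := h1.trans (add_le_add g2 g3)
    _ ≤ |W| * w * E + |W| * w * E := add_le_add h3 h4
    _ = (2 * |W|) * w * E := by ring
    _ ≤ (2 * |W|) * w * (q * c) := mul_le_mul_of_nonneg_left hlo (by positivity)
    _ = (q * (2 * |W|)) * (w * c) := by ring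
    _ ≤ Z * (w * c) := mul_le_mul_of_nonneg_right hZ4 (by positivity)
    _ = Z * w * c := by ring

/-- `j ≥ 3`, `n ≥ 5`, explicit -/
theorem efr3_ex (n j : ℕ) (hn : 5 ≤ n) (hj : 3 ≤ j) (hjn : j < n) : ∀ B : ℕ, 2 ≤ B → ∀ G : MvPolynomial (Fin 2) ℤ, Hyp0 n j G →
    (∀ m, |G.coeff m| + 1 ≤ (B : ℤ)) → Efr n j G ((B : ℝ) ^ (2 * n ^ 2 + (n ^ 16 + 1))) := by
  have hk := C3_le n j hn hj hjn
  have hC : 1 ≤ C3 n j := by
    unfold C3
    have h1 : (1 : ℝ) ≤ 3 ^ ((j + 1) * (j + 2) / 2 - 1) := one_le_pow₀ (by norm_num)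
    have h2 : (0 : ℝ) ≤ n := Nat.cast_nonneg n
    have h3 := kaps_pos j hj
    nlinarith
  intro B hB G hG hGB
  have hB2 : (2 : ℝ) ≤ B := by exact_mod_cast hB
  have hB1 : (1 : ℝ) ≤ B := by linarith
  obtain ⟨W, hW, hC2⟩ := Pool.Agent.H88.TF.wcf n j G (by omega) hj hjn hG.deg hG.irr
  have hW1 := hW hn B hB fun m => by
    have := hGB m
    omega
  have hW0 := cou_nonneg hC2
  have hV := val_zero G B hGB
  have h1 := efr3 n j hj G W B hC2 hV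
  rw [abs_of_nonneg hW0] at h1
  refine h1.mono ?_ ?_
  · have : 1 ≤ 1 + W + (B : ℝ) := by linarith
    nlinarith
  · have h2 : (1 : ℝ) ≤ (B : ℝ) ^ (n ^ 16 + 1) := one_le_pow₀ hB1
    have h3 : (B : ℝ) ≤ (B : ℝ) ^ (n ^ 16 + 1) := le_self_pow₀ hB1 (by omega)
    have h4 : W ≤ (B : ℝ) ^ (n ^ 16 + 1) := hW1.trans (pow_le_pow_right₀ hB1 (by omega))
    have h2k : (2 : ℝ) ^ (2 * n ^ 2) ≤ (B : ℝ) ^ (2 * n ^ 2) := pow_le_pow_left₀ (by norm_num) hB2 _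
    calc C3 n j * (1 + W + B) ≤ C3 n j * (3 * (B : ℝ) ^ (n ^ 16 + 1)) := mul_le_mul_of_nonneg_left (by linarith) (by linarith)
      _ = (3 * C3 n j) * (B : ℝ) ^ (n ^ 16 + 1) := by ring
      _ ≤ (B : ℝ) ^ (2 * n ^ 2) * (B : ℝ) ^ (n ^ 16 + 1) := mul_le_mul_of_nonneg_right (hk.trans h2k) (by positivity)
      _ = (B : ℝ) ^ (2 * n ^ 2 + (n ^ 16 + 1)) := (pow_add _ _ _).symm

theorem exp1r (n : ℕ) (hn : 4 ≤ n) : 2 * (20000 * n ^ 5) + 1 ≤ n ^ 17 := by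
  have h1 : 4 ^ 12 * n ^ 5 ≤ n ^ 17 := by
    calc 4 ^ 12 * n ^ 5 ≤ n ^ 12 * n ^ 5 := Nat.mul_le_mul_right _ (Nat.pow_le_pow_left hn 12)
      _ = n ^ 17 := by rw [← pow_add]
  have h2 : 1 ≤ n ^ 5 := Nat.one_le_pow _ _ (by omega)
  have h3 : 4 ^ 12 = 16777216 := by norm_num
  rw [h3] at h1
  omega

/-- `n ≥ 5` or `j = 1`, explicit -/
theorem efrx (n j : ℕ) (hnj : 5 ≤ n ∨ j = 1) (B : ℕ) (hB : 2 ≤ B) (G : MvPolynomial (Fin 2) ℤ) (hG : Hyp0 n j G)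
    (hGB : ∀ m, |G.coeff m| + 1 ≤ (B : ℤ)) : Efr n j G ((B : ℝ) ^ (n ^ 17)) := by
  have hn := hG.hn
  have hj := hG.hj
  have hjn := hG.hjn
  have hB1 : (1 : ℝ) ≤ B := by
    have : 1 ≤ B := by omega
    exact_mod_cast this
  by_cases h1 : j = 1
  · subst h1
    exact (efr1 n _ hn (Pool.Agent.H82.TE.te1_ex n hn) B hB G hG hGB).mono (one_le_pow₀ hB1)
      (pow_le_pow_right₀ hB1 (exp1r n hn))
  · have h5 : 5 ≤ n := by
      rcases hnj with h | h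
      · exact h
      · exact absurd h h1
    by_cases h2 : j = 2
    · subst h2
      exact efr_of_eff (eff2x n h5 B hB G hG hGB)
    · exact (efr3_ex n j h5 (by omega) hjn B hB G hG hGB).mono (one_le_pow₀ hB1) (pow_le_pow_right₀ hB1 (exp3 n h5))

/-- the effective statement with one constant and the error term -/
theorem finr : ∃ q : ℕ, ∀ (n j : ℕ) (G : MvPolynomial (Fin 2) ℤ), Hyp0 n j G → ∃ W : ℝ, 2 ≤ W ∧
    (∀ B : ℕ, 2 ≤ B → (∀ m, |G.coeff m| < (B : ℤ)) → (5 ≤ n ∨ j = 1 → W ≤ (B : ℝ) ^ (n ^ 17)) ∧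
      (n = 4 ∧ j = 2 → W ≤ (B : ℝ) ^ q)) ∧ Efr n j G W ∧
    (3 ≤ j → Pool.Agent.H88.TU.Cou n j G W) := by
  classical
  obtain ⟨q, hq⟩ := Pool.Agent.H88.TX.fin
  refine ⟨q 4, ?_⟩
  intro n j G hG
  have hn := hG.hn
  by_cases h5 : 5 ≤ n ∨ j = 1
  · have hex := Pool.Agent.H88.A2.exists_bound G
    obtain ⟨B0, hB0⟩ : ∃ B0 : ℕ, B0 = Nat.find hex := ⟨_, rfl⟩
    have hs : 2 ≤ B0 ∧ ∀ m, |G.coeff m| + 1 ≤ (B0 : ℤ) := by rw [hB0]; exact Nat.find_spec hex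
    have hB2 : (2 : ℝ) ≤ B0 := by exact_mod_cast hs.1
    have hB1 : (1 : ℝ) ≤ B0 := by linarith
    have hn17 : 1 ≤ n ^ 17 := Nat.one_le_pow _ _ (by omega)
    refine ⟨(B0 : ℝ) ^ (n ^ 17), hB2.trans (le_self_pow₀ hB1 (by omega)), ?_, efrx n j h5 B0 hs.1 G hG hs.2, ?_⟩
    · intro B hB hGB
      have h3 : B0 ≤ B := by
        rw [hB0]
        exact Nat.find_min' hex ⟨hB, fun m => by have := hGB m; omega⟩
      refine ⟨fun _ => pow_le_pow_left₀ (by linarith) (by exact_mod_cast h3) _, fun h => ?_⟩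
      omega
    · intro h3
      have h5' : 5 ≤ n := by
        rcases h5 with h | h
        · exact h
        · omega
      obtain ⟨W, hW, hC⟩ := Pool.Agent.H88.TF.wcf n j G hn h3 hG.hjn hG.deg hG.irr
      refine cou_mono hC ((hW h5' B0 hs.1 fun m => by have := hs.2 m; omega).trans ?_)
      exact pow_le_pow_right₀ hB1 (Nat.pow_le_pow_right (by omega) (by norm_num))
  · have hn4 : n = 4 := by
      by_contra h
      exact h5 (Or.inl (by omega))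
    subst hn4
    by_cases h3 : 3 ≤ j
    · obtain ⟨W3, _, hC⟩ := Pool.Agent.H88.TF.wcf 4 j G hn h3 hG.hjn hG.deg hG.irr
      have hE := efr3 4 j h3 G W3 _ hC le_rfl
      have h1 : 1 ≤ C3 4 j * (1 + |W3| + |((eval (0 : Fin 2 → ℤ) G : ℤ) : ℝ)|) := by
        have hc : 1 ≤ C3 4 j := by
          unfold C3
          have k1 : (1 : ℝ) ≤ 3 ^ ((j + 1) * (j + 2) / 2 - 1) := one_le_pow₀ (by norm_num)
          have k3 := kaps_pos j h3
          push_cast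
          nlinarith
        have h2 : 1 ≤ 1 + |W3| + |((eval (0 : Fin 2 → ℤ) G : ℤ) : ℝ)| := by
          have k1 := abs_nonneg W3
          have k2 := abs_nonneg ((eval (0 : Fin 2 → ℤ) G : ℤ) : ℝ)
          linarith
        nlinarith
      obtain ⟨Y, hY⟩ : ∃ Y : ℝ, Y = C3 4 j * (1 + |W3| + |((eval (0 : Fin 2 → ℤ) G : ℤ) : ℝ)|) := ⟨_, rfl⟩
      rw [← hY] at hE h1
      refine ⟨max 2 (max Y W3), le_max_left _ _, fun B _ _ => ⟨fun h => absurd h h5, fun h => ?_⟩,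
        hE.mono h1 ((le_max_left _ _).trans (le_max_right _ _)), fun _ =>
        cou_mono hC ((le_max_right _ _).trans (le_max_right _ _))⟩
      omega
    · obtain ⟨W, hW2, hW, hE⟩ := hq 4 j G hG
      have hj2 : j = 2 := by
        have h1 := hG.hj
        have h2 : j ≠ 1 := fun h => h5 (Or.inr h)
        omega
      subst hj2
      exact ⟨W, hW2, fun B hB hGB => ⟨fun h => absurd h h5, fun _ => hW (Or.inr le_rfl) B hB hGB⟩, efr_of_eff hE, fun h => absurd h h3⟩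

end Pool.Agent.H88.TY
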