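import Pool.Agent.H88.TY.Def
import Pool.Agent.H88.TF.Cxr
import Pool.Agent.H88.TF.Bgr

/-! # [H88 TY FAD] `j = 2`, `n ≥ 5`: the members with a point beyond `(B H)^(1200 n^5)`, every `G` -/

namespace Pool.Agent.H88.TY

open MvPolynomial Pool.Agent.H8.AA Pool.Agent.H88.A2

/-- restriction to a line -/
private theorem aeval_line {n : ℕ} {F : MvPolynomial (Fin 2) ℤ} (hd : F.totalDegree ≤ n) (θ β : ℝ) :
    MvPolynomial.aeval ![Polynomial.X, Polynomial.C θ * Polynomial.X + Polynomial.C β] F =
      ∑ i ∈ Finset.range (n + 1), ∑ j ∈ Finset.range (n + 1 - i),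
        Polynomial.C (Pool.Agent.H72.ES.tc n (Pool.Agent.H72.ES.arrM F) θ i j * β ^ j) *
          (Polynomial.X : Polynomial ℝ) ^ (n - i - j) := by
  rw [← Pool.Agent.H72.ES.line_poly, ← Pool.Agent.H72.ES.eval₂_arrM hd, MvPolynomial.aeval_def]
  congr 1

private theorem arrM_eq (F : MvPolynomial (Fin 2) ℤ) (a b : ℕ) : Pool.Agent.H72.ES.arrM F a b = ar F a b := rfl

private theorem arrM_add {j : ℕ} (G : MvPolynomial (Fin 2) ℤ) (c : Ix j → ℤ) (a b : ℕ) :
    Pool.Agent.H72.ES.arrM (G + pol c) a b = Pool.Agent.H72.ES.arrM G a b + co c a b := by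
  rw [arrM_eq, ar_add, ar_pol, arrM_eq]

private theorem part_congr {n k : ℕ} {F F' : ℕ → ℕ → ℤ} (hk : k ≤ n) (h : ∀ a b, a + b = n - k → F a b = F' a b) :
    Pool.Agent.H72.ES.part n k F = Pool.Agent.H72.ES.part n k F' := by
  unfold Pool.Agent.H72.ES.part
  refine Finset.sum_congr rfl fun b hb => ?_
  have := Finset.mem_range.1 hb
  rw [h (n - k - b) b (by omega)]

private theorem part_coeff {n k : ℕ} (E : ℕ → ℕ → ℤ) (a b : ℕ) (hk : k ≤ n) (hab : a + b = n - k) :
    (Pool.Agent.H72.ES.part n k E).coeff b = E a b := by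
  unfold Pool.Agent.H72.ES.part
  simp only [Polynomial.finsetSum_coeff, Polynomial.coeff_C_mul, Polynomial.coeff_X_pow]
  rw [Finset.sum_eq_single b]
  · have h1 : n - k - b = a := by omega
    rw [if_pos rfl, mul_one, h1]
  · intro l _ hl
    rw [if_neg (fun h2 => hl h2.symm), mul_zero]
  · intro h1
    exact absurd (Finset.mem_range.2 (by omega)) h1

private theorem part_deg (n k : ℕ) (E : ℕ → ℕ → ℤ) : (Pool.Agent.H72.ES.part n k E).natDegree ≤ n - k := by
  unfold Pool.Agent.H72.ES.part
  refine Polynomial.natDegree_sum_le_of_forall_le _ _ fun j hj => ?_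
  have := Finset.mem_range.1 hj
  exact (Polynomial.natDegree_C_mul_X_pow_le _ _).trans (by omega)

private theorem deg_add {n j : ℕ} {G : MvPolynomial (Fin 2) ℤ} (hj : j < n) (hd : G.totalDegree ≤ n) (c : Ix j → ℤ) :
    (G + pol c).totalDegree ≤ n :=
  (MvPolynomial.totalDegree_add _ _).trans (max_le hd ((Pool.Agent.H8.AA.pol_deg c).trans (by omega)))

/-- a real zero of the leading polynomial is no zero of a nonzero integer polynomial of degree `< n` -/
private theorem indep {n : ℕ} (E : ℕ → ℕ → ℤ) (ha : E 0 n ≠ 0) (hirr : Irreducible (Pool.Agent.H72.ES.leadQ n E)) (t : ℝ)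
    (ht : Polynomial.aeval t (Pool.Agent.H72.ES.part n 0 E) = 0) (q : Polynomial ℤ) (hq : q.natDegree < n)
    (hq0 : Polynomial.aeval t q = 0) : q = 0 := by
  have hmap : (Pool.Agent.H72.ES.part n 0 E).map (algebraMap ℤ ℚ) = Pool.Agent.H72.ES.leadQ n E := by
    unfold Pool.Agent.H72.ES.part Pool.Agent.H72.ES.leadQ
    rw [Polynomial.map_sum]
    refine Finset.sum_congr rfl fun j _ => ?_
    simp
  have h2 : Polynomial.aeval t (Pool.Agent.H72.ES.leadQ n E) = 0 := by
    rw [← hmap, Polynomial.aeval_map_algebraMap]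
    exact ht
  have h3 : Polynomial.aeval t (q.map (algebraMap ℤ ℚ)) = 0 := by
    rw [Polynomial.aeval_map_algebraMap]
    exact hq0
  have hint : IsIntegral ℚ t := IsAlgebraic.isIntegral ⟨Pool.Agent.H72.ES.leadQ n E, hirr.ne_zero, h2⟩
  have hmin : Associated (minpoly ℚ t) (Pool.Agent.H72.ES.leadQ n E) :=
    (minpoly.irreducible hint).associated_of_dvd hirr (minpoly.dvd ℚ t h2)
  have hd : Pool.Agent.H72.ES.leadQ n E ∣ q.map (algebraMap ℤ ℚ) := hmin.symm.dvd.trans (minpoly.dvd ℚ t h3)
  have hdeg : n ≤ (Pool.Agent.H72.ES.leadQ n E).natDegree := by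
    refine Polynomial.le_natDegree_of_ne_zero ?_
    rw [← hmap, Polynomial.coeff_map, part_coeff E 0 n (by omega) (by omega)]
    simpa using ha
  by_contra hne
  have hne' : q.map (algebraMap ℤ ℚ) ≠ 0 := by
    intro h4
    exact hne ((Polynomial.map_eq_zero_iff (RingHom.injective_int (algebraMap ℤ ℚ))).1 h4)
  have h5 := Polynomial.natDegree_le_of_dvd hd hne'
  have h6 : (q.map (algebraMap ℤ ℚ)).natDegree ≤ q.natDegree := Polynomial.natDegree_map_le
  omega

/-- a line of contact at least `n - 1` at infinity -/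
private def Ld (F : MvPolynomial (Fin 2) ℤ) (t b : ℝ) : Prop :=
  (MvPolynomial.aeval ![Polynomial.X, Polynomial.C t * Polynomial.X + Polynomial.C b] F : Polynomial ℝ).natDegree ≤ 1

private theorem cxd (n j : ℕ) (G : MvPolynomial (Fin 2) ℤ) (h : Hyp0 n j G) (hj2 : 2 ≤ j) (hj : j + 3 ≤ n) (H : ℕ) (T : Finset (Ix j → ℤ))
    (hT : ∀ c ∈ T, (∀ p, |c p| ≤ (H : ℤ)) ∧ ∃ t b : ℝ, Ld (G + pol c) t b) :
    T.card ≤ n * (2 * H + 1) ^ (Fintype.card (Ix j) - 3) := by
  classical
  have hn := h.hn
  have hj3 := hj2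
  have hjn := h.hjn
  obtain ⟨ha, hirr⟩ := Pool.Agent.H72.ES.leadQ_of_irreducible (by omega) h.irr
  obtain ⟨f, hf⟩ : ∃ f : Polynomial ℤ, f = Pool.Agent.H72.ES.part n 0 (Pool.Agent.H72.ES.arrM G) := ⟨_, rfl⟩
  have hz : ∀ (e : Ix j → ℤ) (a b : ℕ), j < a + b → co e a b = 0 := by
    intro e a b hab
    unfold co
    rw [dif_neg (by omega)]
  have hp : ∀ (e : Ix j → ℤ) (k : ℕ), k ≤ n → j < n - k → Pool.Agent.H72.ES.part n k (Pool.Agent.H72.ES.arrM (G + pol e)) =
      Pool.Agent.H72.ES.part n k (Pool.Agent.H72.ES.arrM G) := by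
    intro e k hk hk2
    refine part_congr hk fun a b hab => ?_
    rw [arrM_add, hz e a b (by omega), add_zero]
  have hf0 : f ≠ 0 := by
    intro h0
    have h1 := part_coeff (n := n) (k := 0) (Pool.Agent.H72.ES.arrM G) 0 n (by omega) (by omega)
    rw [← hf, h0, Polynomial.coeff_zero] at h1
    exact ha h1.symm
  -- the coefficients on the line
  have hco : ∀ (e : Ix j → ℤ) (t b : ℝ), Ld (G + pol e) t b → ∀ s, s + 2 ≤ n → ∑ i ∈ Finset.range (s + 1),
      Pool.Agent.H72.ES.tc n (Pool.Agent.H72.ES.arrM (G + pol e)) t i (s - i) * b ^ (s - i) = 0 := by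
    intro e t b hl s hs
    rw [← Pool.Agent.H72.ES.coeff_line n
      (fun i j => Pool.Agent.H72.ES.tc n (Pool.Agent.H72.ES.arrM (G + pol e)) t i j * b ^ j) s (by omega)]
    unfold Ld at hl
    rw [aeval_line (deg_add hjn h.deg e)] at hl
    exact Polynomial.coeff_eq_zero_of_natDegree_lt (by omega)
  have hroot : ∀ (e : Ix j → ℤ) (t b : ℝ), Ld (G + pol e) t b → Polynomial.aeval t f = 0 := by
    intro e t b hl
    have c0 := hco e t b hl 0 (by omega)
    rw [Finset.sum_range_succ, Finset.sum_range_zero] at c0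
    simp only [Nat.sub_self, pow_zero, mul_one, zero_add] at c0
    rw [Pool.Agent.H72.ES.tc_eq_eval, hp e 0 (by omega) (by omega), Polynomial.hasseDeriv_zero, LinearMap.id_apply, ← hf] at c0
    exact c0
  have hder : ∀ t : ℝ, Polynomial.aeval t f = 0 → Polynomial.aeval t (Polynomial.derivative f) ≠ 0 := by
    intro t ht hd
    have hdeg : f.natDegree ≤ n := by
      rw [hf]
      exact (part_deg n 0 _).trans (by omega)
    have h1 : (Polynomial.derivative f).natDegree < n := by
      refine lt_of_le_of_lt (Polynomial.natDegree_derivative_le f) ?_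
      omega
    have h2 := indep (Pool.Agent.H72.ES.arrM G) ha hirr t (by rw [← hf]; exact ht) _ h1 hd
    have h3 := Polynomial.derivative_eq_zero.1 h2
    have h4 : n ≤ f.natDegree := by
      refine Polynomial.le_natDegree_of_ne_zero ?_
      rw [hf, part_coeff (Pool.Agent.H72.ES.arrM G) 0 n (by omega) (by omega)]
      exact ha
    omega
  -- uniqueness for one slope
  have huniq : ∀ (e e' : Ix j → ℤ) (t b b' : ℝ), Ld (G + pol e) t b → Ld (G + pol e') t b' →
      (∀ p : Ix j, p.1.1.val + p.1.2.val ≠ j → e' p = e p) → e' = e := by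
    intro e e' t b b' hl hl' he
    have ht := hroot e t b hl
    have hd := hder t ht
    have htc : ∀ (x : Ix j → ℤ) (i l : ℕ), i ≤ n → j < n - i → Pool.Agent.H72.ES.tc n (Pool.Agent.H72.ES.arrM (G + pol x)) t i l =
        Polynomial.aeval t (Polynomial.hasseDeriv l (Pool.Agent.H72.ES.part n i (Pool.Agent.H72.ES.arrM G))) := by
      intro x i l hi hji
      rw [Pool.Agent.H72.ES.tc_eq_eval, hp x i hi hji]
    have h01 : ∀ x : Ix j → ℤ, Pool.Agent.H72.ES.tc n (Pool.Agent.H72.ES.arrM (G + pol x)) t 0 1 =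
        Polynomial.aeval t (Polynomial.derivative f) := by
      intro x
      rw [htc x 0 1 (by omega) (by omega), Polynomial.hasseDeriv_one, ← hf]
    have hbb : b' = b := by
      have c1 := hco e t b hl 1 (by omega)
      have c1' := hco e' t b' hl' 1 (by omega)
      rw [Finset.sum_range_succ, Finset.sum_range_succ, Finset.sum_range_zero] at c1 c1'
      simp only [Nat.sub_zero, Nat.sub_self, pow_zero, mul_one, zero_add, pow_one] at c1 c1'
      rw [h01, htc _ 1 0 (by omega) (by omega)] at c1 c1'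
      have h1 : Polynomial.aeval t (Polynomial.derivative f) * (b' - b) = 0 := by linear_combination c1' - c1
      rcases mul_eq_zero.1 h1 with h2 | h2
      · exact absurd h2 hd
      · linarith
    subst hbb
    have cj := hco e t b' hl (n - j) (by omega)
    have cj' := hco e' t b' hl' (n - j) (by omega)
    rw [Finset.sum_range_succ] at cj cj'
    have hsum : ∑ i ∈ Finset.range (n - j), Pool.Agent.H72.ES.tc n (Pool.Agent.H72.ES.arrM (G + pol e)) t i (n - j - i) * b' ^ (n - j - i) =
        ∑ i ∈ Finset.range (n - j), Pool.Agent.H72.ES.tc n (Pool.Agent.H72.ES.arrM (G + pol e')) t i (n - j - i) * b' ^ (n - j - i) := by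
      refine Finset.sum_congr rfl fun i hi => ?_
      have := Finset.mem_range.1 hi
      rw [htc e i _ (by omega) (by omega), htc e' i _ (by omega) (by omega)]
    rw [hsum] at cj
    have hlast : Pool.Agent.H72.ES.tc n (Pool.Agent.H72.ES.arrM (G + pol e)) t (n - j) 0 =
        Pool.Agent.H72.ES.tc n (Pool.Agent.H72.ES.arrM (G + pol e')) t (n - j) 0 := by
      rw [Nat.sub_self, pow_zero, mul_one] at cj cj'
      linarith
    rw [Pool.Agent.H72.ES.tc_eq_eval, Pool.Agent.H72.ES.tc_eq_eval, Polynomial.hasseDeriv_zero, LinearMap.id_apply,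
      LinearMap.id_apply] at hlast
    have hq := indep (Pool.Agent.H72.ES.arrM G) ha hirr t (by rw [← hf]; exact ht)
      (Pool.Agent.H72.ES.part n (n - j) (Pool.Agent.H72.ES.arrM (G + pol e)) -
        Pool.Agent.H72.ES.part n (n - j) (Pool.Agent.H72.ES.arrM (G + pol e')))
      (by
        refine lt_of_le_of_lt (Polynomial.natDegree_sub_le _ _) ?_
        have h1 := part_deg n (n - j) (Pool.Agent.H72.ES.arrM (G + pol e))
        have h2 := part_deg n (n - j) (Pool.Agent.H72.ES.arrM (G + pol e'))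
        omega)
      (by rw [map_sub, hlast, sub_self])
    have hq' := sub_eq_zero.1 hq
    funext p
    by_cases hp2 : p.1.1.val + p.1.2.val = j
    · have h3 := congrArg (fun q : Polynomial ℤ => q.coeff p.1.2.val) hq'
      rw [part_coeff _ p.1.1.val p.1.2.val (by omega) (by omega), part_coeff _ p.1.1.val p.1.2.val (by omega) (by omega),
        arrM_add, arrM_add, co_of_le e p.2, co_of_le e' p.2] at h3
      have h4 : ix p.1.1.val p.1.2.val p.2 = p := rfl
      rw [h4] at h3
      linarith
    · exact he p hp2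
  obtain ⟨J, hJ⟩ : ∃ J : Finset (Ix j), J = Finset.univ.filter fun p => p.1.1.val + p.1.2.val = j := ⟨_, rfl⟩
  have h1 : T.card ≤ n * (2 * H + 1) ^ (Fintype.card (Ix j) - J.card) := by
    refine fib J H n T (fun c hc => (hT c hc).1) ?_
    intro c hc R hR
    have hch : ∀ e : Ix j → ℤ, ∃ t : ℝ, e ∈ R → ∃ b : ℝ, Ld (G + pol e) t b := by
      intro e
      by_cases he : e ∈ R
      · obtain ⟨t, b, hl⟩ := (hT e (hR e he).1).2
        exact ⟨t, fun _ => ⟨b, hl⟩⟩
      · exact ⟨0, fun h0 => absurd h0 he⟩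
    choose t ht using hch
    have hmaps : ∀ e ∈ R, t e ∈ (f.map (Int.castRingHom ℝ)).roots.toFinset := by
      intro e he
      obtain ⟨b, hl⟩ := ht e he
      have h2 := hroot e (t e) b hl
      rw [Multiset.mem_toFinset, Polynomial.mem_roots, Polynomial.IsRoot.def, Polynomial.eval_map,
        ← algebraMap_int_eq, ← Polynomial.aeval_def]
      · exact h2
      · intro h3
        exact hf0 ((Polynomial.map_eq_zero_iff (RingHom.injective_int (Int.castRingHom ℝ))).1 h3)
    have hinj : Set.InjOn t R := by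
      intro e he e' he' hee
      obtain ⟨b, hl⟩ := ht e he
      obtain ⟨b', hl'⟩ := ht e' he'
      rw [← hee] at hl'
      refine (huniq e e' (t e) b b' hl hl' ?_).symm
      intro p hp
      have hpJ : p ∉ J := by
        rw [hJ, Finset.mem_filter]
        exact fun h2 => hp h2.2
      rw [(hR e he).2 p hpJ, (hR e' he').2 p hpJ]
    have h2 : R.card ≤ (f.map (Int.castRingHom ℝ)).roots.toFinset.card :=
      Finset.card_le_card_of_injOn t hmaps hinj
    refine h2.trans ((Multiset.toFinset_card_le _).trans ((Polynomial.card_roots' _).trans ?_))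
    refine Polynomial.natDegree_map_le.trans ?_
    rw [hf]
    exact (part_deg n 0 _).trans (by omega)
  have hcard : 3 ≤ J.card := by
    have hsub : ({ix 0 j (by omega), ix 1 (j - 1) (by omega), ix 2 (j - 2) (by omega)} : Finset (Ix j)) ⊆ J := by
      intro p hp
      rw [hJ, Finset.mem_filter]
      refine ⟨Finset.mem_univ _, ?_⟩
      simp only [Finset.mem_insert, Finset.mem_singleton] at hp
      rcases hp with rfl | rfl | rfl
      · show 0 + j = j
        omega
      · show 1 + (j - 1) = j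
        omega
      · show 2 + (j - 2) = j
        omega
    refine le_trans ?_ (Finset.card_le_card hsub)
    rw [Finset.card_insert_of_notMem, Finset.card_insert_of_notMem, Finset.card_singleton]
    · rw [Finset.mem_singleton]
      intro h2
      have h3 := congrArg (fun q : Ix j => q.1.1.val) h2
      simp [ix] at h3
    · rw [Finset.mem_insert, Finset.mem_singleton]
      intro h2
      rcases h2 with h2 | h2
      · have h3 := congrArg (fun q : Ix j => q.1.1.val) h2
        simp [ix] at h3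
      · have h3 := congrArg (fun q : Ix j => q.1.1.val) h2
        simp [ix] at h3
  exact h1.trans (Nat.mul_le_mul_left _ (Nat.pow_le_pow_right (by omega) (by omega)))

/-- two vectors which agree at the exponents of degree `> k` -/
private theorem deg_sub {j k : ℕ} (c c' : Ix j → ℤ)
    (h : ∀ p : Ix j, ¬ (p.1.1.val + p.1.2.val ≤ k) → c' p = c p) :
    (pol c' - pol c).totalDegree ≤ k := by
  classical
  rw [MvPolynomial.totalDegree]
  apply Finset.sup_le
  intro m hm
  rw [MvPolynomial.mem_support_iff] at hm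
  by_contra hlt
  apply hm
  have h2 : (m.sum fun _ e => e) = m 0 + m 1 := by
    rw [Finsupp.sum_fintype _ _ (by simp)]
    simp
  rw [h2, not_le] at hlt
  rw [MvPolynomial.coeff_sub, pol_coeff, pol_coeff]
  unfold co
  split_ifs with h1
  · rw [h _ ?_, sub_self]
    simp only [ix]
    omega
  · simp

private theorem bgd (hN : NrdS) (n : ℕ) (hn5 : 5 ≤ n) (G : MvPolynomial (Fin 2) ℤ) (h : Hyp0 n 2 G) : ∀ B H : ℕ, 2 ≤ B →
    (∀ m, |G.coeff m| + 1 ≤ (B : ℤ)) → 1 ≤ H → ∀ T : Finset (Ix 2 → ℤ),
      (∀ c ∈ T, (∀ p, |c p| ≤ (H : ℤ)) ∧ ∃ P : Fin 2 → ℤ, eval P (G + pol c) = 0 ∧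
        ((B * H : ℕ) : ℝ) ^ (600 * n ^ 5) < max |(P 0 : ℝ)| |(P 1 : ℝ)|) →
      (T.card : ℝ) ≤ ((n : ℝ) + 1920 * (n : ℝ) ^ 3) * (2 * (H : ℝ) + 1) ^ (Fintype.card (Ix 2) - 3) := by
  classical
  have hn := h.hn
  have hj := h.hj
  have hjn := h.hjn
  intro B H hB hG hH T hT
  -- the degree of `G + pol c`
  have hhom : ∀ c : Ix 2 → ℤ, homogeneousComponent n (G + pol c) = homogeneousComponent n G := by
    intro c
    rw [map_add, MvPolynomial.homogeneousComponent_eq_zero (n := n) (φ := pol c)
      (lt_of_le_of_lt (Pool.Agent.H8.AA.pol_deg c) hjn), add_zero]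
  have hdeg : ∀ c : Ix 2 → ℤ, (G + pol c).totalDegree = n := by
    intro c
    apply le_antisymm
    · exact (MvPolynomial.totalDegree_add _ _).trans (max_le h.deg ((Pool.Agent.H8.AA.pol_deg c).trans hjn.le))
    · by_contra hlt
      rw [not_le] at hlt
      have h1 := MvPolynomial.homogeneousComponent_eq_zero (n := n) (φ := G + pol c) hlt
      rw [hhom c] at h1
      have h2 := h.irr.ne_zero
      rw [h1] at h2
      simp at h2
  -- split
  have h1 : (T.filter fun c => ∃ t b : ℝ, Ld (G + pol c) t b).card ≤ n * (2 * H + 1) ^ (Fintype.card (Ix 2) - 3) := by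
    apply cxd n 2 G h le_rfl (by omega) H
    intro c hc
    rw [Finset.mem_filter] at hc
    exact ⟨(hT c hc.1).1, hc.2⟩
  have h2 : (T.filter fun c => ¬ ∃ t b : ℝ, Ld (G + pol c) t b).card ≤
      1920 * n ^ 3 * (2 * H + 1) ^ (Fintype.card (Ix 2) - 3) := by
    refine (fib (Finset.univ.filter fun p : Ix 2 => p.1.1.val + p.1.2.val ≤ 1) H (1920 * n ^ 3)
      (T.filter fun c => ¬ ∃ t b : ℝ, Ld (G + pol c) t b) ?_ ?_).trans ?_
    · intro c hc
      rw [Finset.mem_filter] at hc
      exact (hT c hc.1).1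
    · intro c hc R hR
      rw [Finset.mem_filter] at hc
      have hP : ∀ c' : Ix 2 → ℤ, ∃ P : Fin 2 → ℤ, c' ∈ R → eval P (G + pol c') = 0 ∧
          ((B * H : ℕ) : ℝ) ^ (600 * n ^ 5) < max |(P 0 : ℝ)| |(P 1 : ℝ)| := by
        intro c'
        by_cases hc' : c' ∈ R
        · obtain ⟨P, hP⟩ := (hT c' (Finset.mem_filter.1 (hR c' hc').1).1).2
          exact ⟨P, fun _ => hP⟩
        · exact ⟨0, fun h => absurd h hc'⟩
      choose P hP using hP
      have hinj : Function.Injective
          (fun c' : Ix 2 → ℤ => ((G + pol c' : MvPolynomial (Fin 2) ℤ), (P c' 0, P c' 1))) := by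
        intro c1 c2 h12
        have h3 : G + pol c1 = G + pol c2 := congrArg Prod.fst h12
        exact Pool.Agent.H85.AA.pol_inj (add_left_cancel h3)
      rw [← Finset.card_image_of_injective R hinj]
      refine hN n (B * H) (by omega) (by nlinarith) (G + pol c) (hdeg c) ?_ ?_ _ ?_
      · rw [hhom c]
        exact h.irr
      · intro t b
        by_contra hlt
        refine hc.2 ⟨t, b, ?_⟩
        unfold Ld
        omega
      · intro q hq
        rw [Finset.mem_image] at hq
        obtain ⟨c', hc', rfl⟩ := hq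
        have hc2 := Finset.mem_filter.1 (hR c' hc').1
        refine ⟨?_, ?_, ?_, ?_⟩
        · have h3 : G + pol c' - (G + pol c) = pol c' - pol c := by ring
          show (G + pol c' - (G + pol c)).totalDegree ≤ 1
          rw [h3]
          apply deg_sub
          intro p hp
          apply (hR c' hc').2
          simpa using hp
        · intro m
          show |(G + pol c').coeff m| ≤ _
          rw [MvPolynomial.coeff_add, pol_coeff]
          have h4 : |co c' (m 0) (m 1)| ≤ (H : ℤ) := by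
            unfold co
            split_ifs with h5
            · exact (hT c' hc2.1).1 _
            · simp
          have h5 := hG m
          have h6 := abs_add_le (G.coeff m) (co c' (m 0) (m 1))
          have h7 : (0 : ℤ) ≤ ((B : ℤ) - 1) * ((H : ℤ) - 1) :=
            mul_nonneg (by omega) (by omega)
          push_cast
          nlinarith
        · have h3 := (hP c' hc').1
          have h4 : (![P c' 0, P c' 1] : Fin 2 → ℤ) = P c' := by
            ext i
            fin_cases i <;> rfl
          show eval ![P c' 0, P c' 1] (G + pol c') = 0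
          rw [h4]
          exact h3
        · have h3 := (hP c' hc').2
          show (((B * H : ℕ) : ℤ)) ^ (600 * n ^ 5) < max |P c' 0| |P c' 1|
          have h4 : (((((B * H : ℕ) : ℤ)) ^ (600 * n ^ 5) : ℤ) : ℝ) < ((max |P c' 0| |P c' 1| : ℤ) : ℝ) := by
            push_cast
            push_cast at h3
            exact h3
          exact_mod_cast h4
    · apply Nat.mul_le_mul_left
      apply Nat.pow_le_pow_right (by omega)
      have h2 : (Finset.univ.filter fun p : Ix 2 => p.1.1.val + p.1.2.val ≤ 1).card = 3 := by decide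
      omega
  have h3 : T.card = (T.filter fun c => ∃ t b : ℝ, Ld (G + pol c) t b).card +
      (T.filter fun c => ¬ ∃ t b : ℝ, Ld (G + pol c) t b).card := by
    rw [Finset.card_filter_add_card_filter_not]
  have h4 : T.card ≤ 1920 * n ^ 3 * (2 * H + 1) ^ (Fintype.card (Ix 2) - 3) +
      n * (2 * H + 1) ^ (Fintype.card (Ix 2) - 3) := by
    rw [h3, add_comm]
    exact Nat.add_le_add h2 h1
  have h5 : ((T.card : ℕ) : ℝ) ≤ ((1920 * n ^ 3 * (2 * H + 1) ^ (Fintype.card (Ix 2) - 3) +
      n * (2 * H + 1) ^ (Fintype.card (Ix 2) - 3) : ℕ) : ℝ) := by exact_mod_cast h4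
  refine h5.trans (le_of_eq ?_)
  push_cast
  ring


theorem fad (h : NrdS) (n : ℕ) (hn : 5 ≤ n) : FadS n := by
  intro G hG B H hB hGB hH T hT
  have h1 := bgd h n hn G hG B H hB hGB hH T (fun c hc => ?_)
  · have hcard : Fintype.card (Ix 2) - 3 = 3 := by
      rw [card_ix]
    rw [hcard] at h1
    refine h1.trans (mul_le_mul_of_nonneg_right ?_ (by positivity))
    have hn1 : (1 : ℝ) ≤ (n : ℝ) := by
      have : 1 ≤ n := by omega
      exact_mod_cast this
    have h2 : (n : ℝ) ≤ (n : ℝ) ^ 3 := le_self_pow₀ hn1 (by norm_num)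
    push_cast
    linarith
  · obtain ⟨hbox, P, hP, i, hi⟩ := hT c hc
    refine ⟨hbox, P, hP, ?_⟩
    have hBH : 1 ≤ B * H := by nlinarith
    have e1 : ((B * H : ℕ) : ℤ) ^ (600 * n ^ 5) ≤ ((B * H : ℕ) : ℤ) ^ (1200 * n ^ 5) :=
      pow_le_pow_right₀ (by exact_mod_cast hBH) (Nat.mul_le_mul_right _ (by norm_num))
    have e2 : ((B * H : ℕ) : ℤ) ^ (600 * n ^ 5) < |P i| := lt_of_le_of_lt e1 hi
    have e3 : ((((B * H : ℕ) : ℤ) ^ (600 * n ^ 5) : ℤ) : ℝ) < ((|P i| : ℤ) : ℝ) := by exact_mod_cast e2
    push_cast at e3 ⊢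
    fin_cases i
    · exact lt_of_lt_of_le e3 (le_max_left _ _)
    · exact lt_of_lt_of_le e3 (le_max_right _ _)

end Pool.Agent.H88.TY
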