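import Pool.Agent.H88.TX.Lox
import Pool.Agent.H88.TU.Dge

/-! # [H88 TY LOXE] `j = 2`: effective lower bound for the number of solvable members, explicit exponent

`H88/TX/Lox.lean` with the absolute constant of the pair count explicit (`2^6 = 64`, `H88/TU/Dge.lean`). -/

namespace Pool.Agent.H88.TY

open Finset MvPolynomial Pool.Agent.H8.AA Pool.Agent.H88.A2 Pool.Agent.H88.TS Pool.Agent.H88.TX
open Pool.Agent.H82.TO (pts mem_pts card_pts sum_pts lb2)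

/-- first moment minus pairs -/
private theorem momx (j : ℕ) (hj : 1 ≤ j) (Cp : ℝ) (hCp : 0 ≤ Cp) (hCe : Cp = 2 ^ Fintype.card (Ix j)) : ∀ (H : ℕ), 1 ≤ H → ∀ (G : MvPolynomial (Fin 2) ℤ) (X : ℕ) (a : ℕ → ℝ),
    (∀ p ∈ pts X, a p.1 ≤ (((box j H).filter fun c => ev j (co c) (p.1 : ℤ) (p.2 : ℤ) = - eval ![(p.1 : ℤ), (p.2 : ℤ)] G).card : ℝ)) →
    ∑ x ∈ Icc 1 X, (x : ℝ) * a x - (X : ℝ) ^ 4 * (Cp * (2 * (H : ℝ) + 1) ^ (Fintype.card (Ix j) - 2)) ≤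
    (Set.ncard {L : MvPolynomial (Fin 2) ℤ | L.totalDegree ≤ j ∧ (∀ m, |L.coeff m| ≤ (H : ℤ)) ∧
      ∃ P : Fin 2 → ℤ, eval P (G + L) = 0} : ℝ) := by
  classical
  have hp := Pool.Agent.H88.TU.pairs_ex j hj
  rw [← hCe] at hp
  intro H hH G X a ha
  obtain ⟨z, hz⟩ : ∃ z : (Ix j → ℤ) → ℕ × ℕ → Prop, z = fun c p =>
    ev j (co c) (p.1 : ℤ) (p.2 : ℤ) = - eval ![(p.1 : ℤ), (p.2 : ℤ)] G := ⟨_, rfl⟩
  have hb := (Pool.Agent.H15.SC.bonf (box j H) (pts X) z (Cp * (2 * (H : ℝ) + 1) ^ (Fintype.card (Ix j) - 2)) (by positivity) (by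
    intro P _ Q _ hPQ
    refine hp H hH ((P.1 : ℤ), (P.2 : ℤ)) ((Q.1 : ℤ), (Q.2 : ℤ)) (- eval ![(P.1 : ℤ), (P.2 : ℤ)] G) (- eval ![(Q.1 : ℤ), (Q.2 : ℤ)] G) ?_ _ ?_
    · intro h
      apply hPQ
      have h1 := congrArg Prod.fst h
      have h2 := congrArg Prod.snd h
      simp only at h1 h2
      exact Prod.ext (by exact_mod_cast h1) (by exact_mod_cast h2)
    · intro c hc
      rw [mem_filter, mem_box, hz] at hc
      exact ⟨hc.1, hc.2.1, hc.2.2⟩)).1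
  have h1 := (abs_le.1 hb).1
  have h2 : ∑ x ∈ Icc 1 X, (x : ℝ) * a x ≤ ∑ P ∈ pts X, (((box j H).filter fun c => z c P).card : ℝ) := by
    rw [← sum_pts]
    refine sum_le_sum fun p hp' => ?_
    have e : ((box j H).filter fun c => z c p) =
        ((box j H).filter fun c => ev j (co c) (p.1 : ℤ) (p.2 : ℤ) = - eval ![(p.1 : ℤ), (p.2 : ℤ)] G) := by
      ext c
      rw [mem_filter, mem_filter, hz]
    rw [e]
    exact ha p hp'
  have h3 : ((pts X).card : ℝ) ^ 2 ≤ (X : ℝ) ^ 4 := by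
    have h4 : ((pts X).card : ℝ) ≤ (X : ℝ) ^ 2 := by exact_mod_cast card_pts X
    calc ((pts X).card : ℝ) ^ 2 ≤ ((X : ℝ) ^ 2) ^ 2 := pow_le_pow_left₀ (by positivity) h4 2
      _ = _ := by ring
  have h5 : ((pts X).card : ℝ) ^ 2 * (Cp * (2 * (H : ℝ) + 1) ^ (Fintype.card (Ix j) - 2)) ≤
      (X : ℝ) ^ 4 * (Cp * (2 * (H : ℝ) + 1) ^ (Fintype.card (Ix j) - 2)) :=
    mul_le_mul_of_nonneg_right h3 (by positivity)
  have h6 : (((box j H).filter fun c => ∃ P ∈ pts X, z c P).card : ℝ) ≤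
      (Set.ncard {L : MvPolynomial (Fin 2) ℤ | L.totalDegree ≤ j ∧ (∀ m, |L.coeff m| ≤ (H : ℤ)) ∧
        ∃ P : Fin 2 → ℤ, eval P (G + L) = 0} : ℝ) := by
    rw [pol_set j H (fun L => ∃ P : Fin 2 → ℤ, eval P (G + L) = 0)]
    have h7 : (((box j H).filter fun c => ∃ P ∈ pts X, z c P : Finset (Ix j → ℤ)) : Set (Ix j → ℤ)) ⊆
        {c : Ix j → ℤ | c ∈ box j H ∧ ∃ P : Fin 2 → ℤ, eval P (G + pol c) = 0} := by
      intro c hc
      rw [mem_coe, mem_filter] at hc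
      obtain ⟨hc1, p, _, hc3⟩ := hc
      refine ⟨hc1, ![(p.1 : ℤ), (p.2 : ℤ)], ?_⟩
      rw [hz] at hc3
      have h8 := ar_ev (Pool.Agent.H88.A2.pol_deg c) ![(p.1 : ℤ), (p.2 : ℤ)]
      rw [ar_pol] at h8
      rw [map_add, ← h8]
      have h9 : ev j (co c) (![(p.1 : ℤ), (p.2 : ℤ)] 0) (![(p.1 : ℤ), (p.2 : ℤ)] 1) = ev j (co c) (p.1 : ℤ) (p.2 : ℤ) := rfl
      rw [h9, hc3]
      ring
    have h8 : {c : Ix j → ℤ | c ∈ box j H ∧ ∃ P : Fin 2 → ℤ, eval P (G + pol c) = 0}.Finite :=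
      (box j H).finite_toSet.subset fun c hc => hc.1
    have h9 := Set.ncard_le_ncard h7 h8
    rw [Set.ncard_coe_finset] at h9
    exact_mod_cast h9
  linarith

/-- the value of `G` at a point -/
private theorem val_lex {n : ℕ} {G : MvPolynomial (Fin 2) ℤ} (hG : G.totalDegree ≤ n) {B : ℕ} (hB : ∀ m, |G.coeff m| + 1 ≤ (B : ℤ))
    (P : Fin 2 → ℤ) (R : ℝ) (hR : 1 ≤ R) (h0 : |(P 0 : ℝ)| ≤ R) (h1 : |(P 1 : ℝ)| ≤ R) :
    |((eval P G : ℤ) : ℝ)| ≤ ((n + 1) ^ 2 * B) * R ^ n := by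
  have hRn : (0 : ℝ) ≤ R ^ n := by positivity
  have hB0 : (0 : ℝ) ≤ B := Nat.cast_nonneg _
  rw [← ar_ev hG P]
  unfold ev
  push_cast
  calc |∑ k ∈ Finset.range (n + 1), ∑ j ∈ Finset.range (k + 1), (ar G (k - j) j : ℝ) * ((P 0 : ℝ) ^ (k - j) * (P 1 : ℝ) ^ j)|
      ≤ ∑ k ∈ Finset.range (n + 1), |∑ j ∈ Finset.range (k + 1), (ar G (k - j) j : ℝ) * ((P 0 : ℝ) ^ (k - j) * (P 1 : ℝ) ^ j)| :=
        Finset.abs_sum_le_sum_abs _ _
    _ ≤ ∑ k ∈ Finset.range (n + 1), ((n + 1) * (B * R ^ n)) := by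
        refine Finset.sum_le_sum fun k hk => ?_
        have hk' : k ≤ n := by
          have := Finset.mem_range.1 hk
          omega
        calc |∑ j ∈ Finset.range (k + 1), (ar G (k - j) j : ℝ) * ((P 0 : ℝ) ^ (k - j) * (P 1 : ℝ) ^ j)|
            ≤ ∑ j ∈ Finset.range (k + 1), |(ar G (k - j) j : ℝ) * ((P 0 : ℝ) ^ (k - j) * (P 1 : ℝ) ^ j)| :=
              Finset.abs_sum_le_sum_abs _ _
          _ ≤ ∑ j ∈ Finset.range (k + 1), (B * R ^ n) := by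
              refine Finset.sum_le_sum fun j hj => ?_
              have hj' : j ≤ k := by
                have := Finset.mem_range.1 hj
                omega
              rw [abs_mul, abs_mul, abs_pow, abs_pow]
              have h2 : |(ar G (k - j) j : ℝ)| ≤ B := by
                have h3 := hB (Finsupp.single 0 (k - j) + Finsupp.single 1 j)
                have h4 : |ar G (k - j) j| ≤ (B : ℤ) := by
                  unfold ar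
                  linarith
                exact_mod_cast h4
              have h5 : |(P 0 : ℝ)| ^ (k - j) * |(P 1 : ℝ)| ^ j ≤ R ^ n := by
                calc |(P 0 : ℝ)| ^ (k - j) * |(P 1 : ℝ)| ^ j ≤ R ^ (k - j) * R ^ j := by gcongr
                  _ = R ^ (k - j + j) := (pow_add _ _ _).symm
                  _ ≤ R ^ n := pow_le_pow_right₀ hR (by omega)
              exact mul_le_mul h2 h5 (by positivity) hB0
          _ = (k + 1) * (B * R ^ n) := by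
              rw [Finset.sum_const, Finset.card_range, nsmul_eq_mul]
              push_cast
              ring
          _ ≤ (n + 1) * (B * R ^ n) := by
              have : (k : ℝ) ≤ n := by exact_mod_cast hk'
              have h6 : (0 : ℝ) ≤ B * R ^ n := by positivity
              nlinarith
    _ = ((n + 1) ^ 2 * B) * R ^ n := by
        rw [Finset.sum_const, Finset.card_range, nsmul_eq_mul]
        push_cast
        ring

/-- `j = 2` with explicit constants -/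
private theorem lo2x (Cp : ℝ) (hCp : 0 ≤ Cp) (hCe : Cp = 2 ^ Fintype.card (Ix 2)) : ∀ (n : ℕ) (_hn : 4 ≤ n) (G : MvPolynomial (Fin 2) ℤ) (D : ℝ) (_hD : 1 ≤ D)
    (_hval : ∀ (P : Fin 2 → ℤ) (R : ℝ), 1 ≤ R → |(P 0 : ℝ)| ≤ R → |(P 1 : ℝ)| ≤ R → |((eval P G : ℤ) : ℝ)| ≤ D * R ^ n) (H : ℕ)
    (_hQH : (16 + 8 * D + 2 * (81 * Cp) / ((1 / 4 ^ 9) * (1 / (4 * n)))) ^ 2 ≤ (H : ℝ)) (_hH3 : 3 ≤ H),
    (1 / 4 ^ 9) * (1 / (4 * n)) / 2 * ((H : ℝ) ^ 5 * Real.log H) ≤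
    (Set.ncard {L : MvPolynomial (Fin 2) ℤ | L.totalDegree ≤ 2 ∧ (∀ m, |L.coeff m| ≤ (H : ℤ)) ∧
      ∃ P : Fin 2 → ℤ, eval P (G + L) = 0} : ℝ) := by
  have hm := momx 2 (by norm_num) Cp hCp hCe
  intro n hn G D hD hval
  have hn0 : (4 : ℝ) ≤ n := by exact_mod_cast hn
  obtain ⟨η, hη⟩ : ∃ η : ℝ, η = 1 / (4 * n) := ⟨_, rfl⟩
  have hη0 : 0 < η := by rw [hη]; positivity
  have hη16 : 16 * η ≤ 1 := by
    rw [hη, mul_one_div, div_le_one (by positivity)]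
    linarith
  have hηn : η * n = 1 / 4 := by
    rw [hη]
    field_simp
  -- the constant
  obtain ⟨κ, hκ⟩ : ∃ κ : ℝ, κ = 1 / 4 ^ 9 := ⟨_, rfl⟩
  have hκ0 : 0 < κ := by rw [hκ]; positivity
  obtain ⟨Q, hQ⟩ : ∃ Q : ℝ, Q = 16 + 8 * D + 2 * (81 * Cp) / (κ * η) := ⟨_, rfl⟩
  have hQ0 : 0 < Q := by rw [hQ]; positivity
  intro H hQH hH3n
  have hH : 1 ≤ H := by omega
  have hH' : (1 : ℝ) ≤ (H : ℝ) := by exact_mod_cast hH
  have hH0 : (0 : ℝ) < (H : ℝ) := by linarith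
  rw [← hη, ← hκ, ← hQ] at hQH
  rw [← hη, ← hκ]
  have hH3 : (3 : ℝ) ≤ H := by exact_mod_cast hH3n
  have hs0 : 0 < √(H : ℝ) := Real.sqrt_pos.2 hH0
  have hss : √(H : ℝ) * √(H : ℝ) = H := Real.mul_self_sqrt hH0.le
  have hQs : Q ≤ √(H : ℝ) := by
    rw [← Real.sqrt_sq hQ0.le]
    exact Real.sqrt_le_sqrt hQH
  -- H^(1/4) <= sqrt H
  obtain ⟨r, hr⟩ : ∃ r : ℝ, r = (H : ℝ) ^ (1 / 4 : ℝ) := ⟨_, rfl⟩
  have hr1 : 1 ≤ r := by rw [hr]; exact Real.one_le_rpow hH' (by norm_num)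
  have hrr : r ^ 2 = √(H : ℝ) := by
    rw [hr, ← Real.rpow_natCast, ← Real.rpow_mul hH0.le, Real.sqrt_eq_rpow]
    norm_num
  have hr4 : r ≤ √(H : ℝ) := by rw [← hrr]; nlinarith
  obtain ⟨Y, hY⟩ : ∃ Y : ℝ, Y = (H : ℝ) ^ η := ⟨_, rfl⟩
  have hY1 : 1 ≤ Y := by rw [hY]; exact Real.one_le_rpow hH' hη0.le
  have hYn : Y ^ n = r := by
    rw [hY, hr, ← Real.rpow_natCast, ← Real.rpow_mul hH0.le, hηn]
  have hYr : Y ≤ r := by
    rw [← hYn]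
    exact le_self_pow₀ hY1 (by omega)
  have hY4 : Y ^ 4 ≤ r := by
    rw [← hYn]
    exact pow_le_pow_right₀ hY1 hn
  obtain ⟨X, hX⟩ : ∃ X : ℕ, X = ⌊Y⌋₊ := ⟨_, rfl⟩
  have hXle : (X : ℝ) ≤ Y := by rw [hX]; exact Nat.floor_le (by linarith)
  have hXlt : Y < ((X + 1 : ℕ) : ℝ) := by
    rw [hX]
    push_cast
    exact Nat.lt_floor_add_one _
  have h1 := hm H hH G X (fun x => (H : ℝ) ^ 5 / (4 ^ 9 * (x : ℝ) ^ 2)) (by
    intro p hp
    obtain ⟨hp1, hp2, hp3⟩ := mem_pts hp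
    have hpr : (1 : ℝ) ≤ p.1 := by exact_mod_cast hp1
    have hpX : (p.1 : ℝ) ≤ Y := le_trans (by exact_mod_cast hp2) hXle
    have h16 : 16 * (p.1 : ℝ) ≤ H := by
      have h17 : 16 ≤ √(H : ℝ) := by
        refine le_trans ?_ hQs
        rw [hQ]
        have : 0 ≤ 2 * (81 * Cp) / (κ * η) := by positivity
        linarith
      calc 16 * (p.1 : ℝ) ≤ √H * √H := mul_le_mul h17 (hpX.trans (hYr.trans hr4)) (by positivity) hs0.le
        _ = H := hss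
    have hv := hval ![(p.1 : ℤ), (p.2 : ℤ)] (p.1 : ℝ) hpr (by simp) (by
      simp only [Matrix.cons_val_one, Matrix.cons_val_fin_one, Int.cast_natCast, Nat.abs_cast]
      exact_mod_cast hp3.le)
    have hN : 8 * |((- eval ![(p.1 : ℤ), (p.2 : ℤ)] G : ℤ) : ℝ)| ≤ H * (p.1 : ℝ) ^ 2 := by
      push_cast
      rw [abs_neg]
      have e1 : (p.1 : ℝ) ^ n ≤ √H := by
        calc (p.1 : ℝ) ^ n ≤ Y ^ n := pow_le_pow_left₀ (by positivity) hpX _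
          _ = r := hYn
          _ ≤ _ := hr4
      have e2 : 8 * D ≤ √(H : ℝ) := by
        refine le_trans ?_ hQs
        rw [hQ]
        have : 0 ≤ 2 * (81 * Cp) / (κ * η) := by positivity
        linarith
      calc 8 * |((eval ![(p.1 : ℤ), (p.2 : ℤ)] G : ℤ) : ℝ)| ≤ 8 * (D * (p.1 : ℝ) ^ n) := by gcongr
        _ = (8 * D) * (p.1 : ℝ) ^ n := by ring
        _ ≤ √H * √H := mul_le_mul e2 e1 (by positivity) hs0.le
        _ = H := hss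
        _ ≤ H * (p.1 : ℝ) ^ 2 := by
            have : (1 : ℝ) ≤ (p.1 : ℝ) ^ 2 := one_le_pow₀ hpr
            nlinarith
    have h2 := lb2 H (p.1 : ℤ) (p.2 : ℤ) (- eval ![(p.1 : ℤ), (p.2 : ℤ)] G) (by exact_mod_cast hp1) (by
      rw [Nat.abs_cast]
      exact_mod_cast hp3.le) (by exact_mod_cast h16) (by exact_mod_cast hN)
    simp only [Int.cast_natCast] at h2
    exact h2)
  rw [card_ix, show (2 + 1) * (2 + 2) / 2 - 2 = 4 from rfl] at h1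
  have h2 : κ * (H : ℝ) ^ 5 * (η * Real.log H) ≤ ∑ x ∈ Icc 1 X, (x : ℝ) * ((H : ℝ) ^ 5 / (4 ^ 9 * (x : ℝ) ^ 2)) := by
    have h3 : ∀ x ∈ Icc 1 X, (x : ℝ) * ((H : ℝ) ^ 5 / (4 ^ 9 * (x : ℝ) ^ 2)) = κ * (H : ℝ) ^ 5 * (x : ℝ)⁻¹ := by
      intro x hx
      have hx' : (x : ℝ) ≠ 0 := by
        have := (mem_Icc.1 hx).1
        exact_mod_cast (by omega : x ≠ 0)
      rw [hκ]
      field_simp
    rw [sum_congr rfl h3, ← mul_sum]
    refine mul_le_mul_of_nonneg_left ?_ (by positivity)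
    have h4 := log_add_one_le_harmonic X
    have h5 : ((harmonic X : ℚ) : ℝ) = ∑ x ∈ Icc 1 X, (x : ℝ)⁻¹ := by
      rw [harmonic_eq_sum_Icc]
      push_cast
      rfl
    rw [h5] at h4
    refine le_trans ?_ h4
    have h6 : η * Real.log H = Real.log Y := by rw [hY, Real.log_rpow hH0]
    rw [h6]
    exact Real.log_le_log (by linarith) hXlt.le
  have h3 : (X : ℝ) ^ 4 * (Cp * (2 * (H : ℝ) + 1) ^ 4) ≤ κ * (H : ℝ) ^ 5 * (η * Real.log H) / 2 := by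
    have e1 : (X : ℝ) ^ 4 ≤ √H := (pow_le_pow_left₀ (by positivity) hXle 4).trans (hY4.trans hr4)
    have e2 : 2 * (81 * Cp) ≤ κ * η * √(H : ℝ) := by
      have h4 : 2 * (81 * Cp) / (κ * η) ≤ √(H : ℝ) := by
        refine le_trans ?_ hQs
        rw [hQ]
        linarith
      rw [div_le_iff₀ (by positivity)] at h4
      linarith
    have e3 : 1 ≤ Real.log H := by
      rw [Real.le_log_iff_exp_le hH0]
      exact (Real.exp_one_lt_d9.le.trans (by norm_num)).trans hH3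
    have e4 : (2 * (H : ℝ) + 1) ^ 4 ≤ 81 * (H : ℝ) ^ 4 := by
      calc (2 * (H : ℝ) + 1) ^ 4 ≤ (3 * H) ^ 4 := pow_le_pow_left₀ (by positivity) (by linarith) 4
        _ = _ := by ring
    calc (X : ℝ) ^ 4 * (Cp * (2 * (H : ℝ) + 1) ^ 4) ≤ √H * (Cp * (81 * (H : ℝ) ^ 4)) := by gcongr
      _ = √H * (H : ℝ) ^ 4 * (2 * (81 * Cp)) / 2 := by ring
      _ ≤ √H * (H : ℝ) ^ 4 * (κ * η * √(H : ℝ)) / 2 := by gcongr
      _ = κ * ((√H * √H) * (H : ℝ) ^ 4) * (η * 1) / 2 := by ring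
      _ = κ * (H : ℝ) ^ 5 * (η * 1) / 2 := by rw [hss]; ring
      _ ≤ κ * (H : ℝ) ^ 5 * (η * Real.log H) / 2 := by gcongr
  have h4 : κ * η / 2 * ((H : ℝ) ^ 5 * Real.log H) = κ * (H : ℝ) ^ 5 * (η * Real.log H) / 2 := by ring
  rw [h4]
  linarith


/-- LOX with the explicit exponent `10 n + 80` -/
theorem lox_ex (n : ℕ) (hn : 4 ≤ n) : LoxS n (10 * n + 80) := by
  have hcard : Fintype.card (Ix 2) = 6 := card_ix 2
  obtain ⟨Cp, hCp⟩ : ∃ Cp : ℝ, Cp = 64 := ⟨_, rfl⟩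
  have hCp0 : 0 ≤ Cp := by rw [hCp]; norm_num
  have hCe : Cp = 2 ^ Fintype.card (Ix 2) := by rw [hCp, hcard]; norm_num
  have hlo := lo2x Cp hCp0 hCe
  have hn0 : (4 : ℝ) ≤ n := by exact_mod_cast hn
  have hn2 : (n : ℝ) + 1 ≤ 2 ^ n := by exact_mod_cast (Nat.lt_two_pow_self : n < 2 ^ n)
  obtain ⟨w, hw⟩ : ∃ w : ℝ, w = (1 / 4 ^ 9) * (1 / (4 * (n : ℝ))) := ⟨_, rfl⟩
  have hw0 : 0 < w := by rw [hw]; positivity
  have hwn : w * (4 ^ 10 * (n : ℝ)) = 1 := by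
    rw [hw]
    field_simp
  have hwi : ∀ c : ℝ, c / w = c * (4 ^ 10 * (n : ℝ)) := by
    intro c
    rw [div_eq_iff hw0.ne', mul_assoc, mul_comm _ w, hwn, mul_one]
  obtain ⟨P, hP⟩ : ∃ P : ℝ, P = 16 + 8 * ((n : ℝ) + 1) ^ 2 + 2 * (81 * Cp) / w := ⟨_, rfl⟩
  have hP0 : 0 ≤ 2 * (81 * Cp) / w := by positivity
  have hPle : P ≤ 2 ^ (2 * n + 35) := by
    rw [hP, hwi, hCp]
    have h1 : ((n : ℝ) + 1) ^ 2 ≤ (2 ^ n) ^ 2 := pow_le_pow_left₀ (by positivity) hn2 2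
    have h2 : (n : ℝ) ≤ (2 ^ n) ^ 2 := by
      have : (1 : ℝ) ≤ 2 ^ n := one_le_pow₀ (by norm_num)
      nlinarith
    have h3 : (1 : ℝ) ≤ (2 ^ n) ^ 2 := one_le_pow₀ (one_le_pow₀ (by norm_num))
    have h4 : (2 : ℝ) ^ (2 * n + 35) = 2 ^ 35 * (2 ^ n) ^ 2 := by
      rw [pow_add, pow_mul']
      ring
    rw [h4]
    norm_num
    linarith
  refine fun B hB G hG hGB H hBH => ?_
  have hB2 : (2 : ℝ) ≤ B := by exact_mod_cast hB
  have hB1 : (1 : ℝ) ≤ B := by linarith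
  have hk1 : P ^ 2 ≤ (B : ℝ) ^ (4 * n + 70) := by
    have hPn : 0 ≤ P := by rw [hP]; positivity
    calc P ^ 2 ≤ (2 ^ (2 * n + 35)) ^ 2 := pow_le_pow_left₀ hPn hPle 2
      _ = (2 : ℝ) ^ (4 * n + 70) := by rw [← pow_mul]; congr 1; ring
      _ ≤ _ := pow_le_pow_left₀ (by norm_num) hB2 _
  have hk2 : 2 / w ≤ (B : ℝ) ^ (n + 21) := by
    rw [hwi]
    calc 2 * (4 ^ 10 * (n : ℝ)) ≤ 2 ^ n * 2 ^ 21 := by
          norm_num
          linarith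
      _ = (2 : ℝ) ^ (n + 21) := (pow_add _ _ _).symm
      _ ≤ _ := pow_le_pow_left₀ (by norm_num) hB2 _
  have h1 : (B : ℝ) ^ (4 * n + 70 + 2) ≤ (B : ℝ) ^ (10 * n + 80) := pow_le_pow_right₀ hB1 (by omega)
  have h2 : (B : ℝ) ^ (n + 21) ≤ (B : ℝ) ^ (10 * n + 80) := pow_le_pow_right₀ hB1 (by omega)
  have h4 : (4 : ℝ) ≤ H := by
    have h5 : (B : ℝ) ^ 2 ≤ (B : ℝ) ^ (10 * n + 80) := pow_le_pow_right₀ hB1 (by omega)
    nlinarith
  have hH3 : 3 ≤ H := by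
    have h5 : (3 : ℝ) ≤ H := by linarith
    exact_mod_cast h5
  have hD : (1 : ℝ) ≤ ((n : ℝ) + 1) ^ 2 * B := by nlinarith
  have hQ : (16 + 8 * (((n : ℝ) + 1) ^ 2 * B) + 2 * (81 * Cp) / ((1 / 4 ^ 9) * (1 / (4 * (n : ℝ))))) ^ 2 ≤ (H : ℝ) := by
    rw [← hw]
    have h5 : 16 + 8 * (((n : ℝ) + 1) ^ 2 * B) + 2 * (81 * Cp) / w ≤ P * B := by
      rw [hP]
      have e : (16 + 8 * ((n : ℝ) + 1) ^ 2 + 2 * (81 * Cp) / w) * (B : ℝ) =
          16 * B + 8 * (((n : ℝ) + 1) ^ 2 * B) + (2 * (81 * Cp) / w) * B := by ring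
      rw [e]
      have h6 : 2 * (81 * Cp) / w ≤ (2 * (81 * Cp) / w) * B := le_mul_of_one_le_right hP0 hB1
      linarith
    have h7 : 0 ≤ 16 + 8 * (((n : ℝ) + 1) ^ 2 * B) + 2 * (81 * Cp) / w := by positivity
    calc (16 + 8 * (((n : ℝ) + 1) ^ 2 * B) + 2 * (81 * Cp) / w) ^ 2 ≤ (P * B) ^ 2 := pow_le_pow_left₀ h7 h5 2
      _ = P ^ 2 * (B : ℝ) ^ 2 := by ring
      _ ≤ (B : ℝ) ^ (4 * n + 70) * (B : ℝ) ^ 2 := mul_le_mul_of_nonneg_right hk1 (by positivity)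
      _ = (B : ℝ) ^ (4 * n + 70 + 2) := (pow_add _ _ _).symm
      _ ≤ _ := h1.trans hBH
  have hr := hlo n hn G (((n : ℝ) + 1) ^ 2 * B) hD (fun Q R hR a b => val_lex hG hGB Q R hR a b) H hQ hH3
  rw [← hw] at hr
  have hlog : 0 ≤ Real.log H := Real.log_nonneg (by linarith)
  have hc : w / 2 * ((H : ℝ) ^ 5 * Real.log H) ≤ (Pool.Agent.H82.TO.cnt 2 G H : ℝ) := hr
  have hk : 2 / w ≤ (B : ℝ) ^ (10 * n + 80) := hk2.trans h2
  have hn1 : (0 : ℝ) ≤ (Pool.Agent.H82.TO.cnt 2 G H : ℝ) := Nat.cast_nonneg _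
  calc (H : ℝ) ^ 5 * Real.log H = 2 / w * (w / 2 * ((H : ℝ) ^ 5 * Real.log H)) := by
        field_simp
    _ ≤ 2 / w * (Pool.Agent.H82.TO.cnt 2 G H : ℝ) := mul_le_mul_of_nonneg_left hc (by positivity)
    _ ≤ _ := mul_le_mul_of_nonneg_right hk hn1

end Pool.Agent.H88.TY
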