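import Pool.Agent.H88.TX.Mo2
import Pool.Agent.H88.TU.Dge

/-! # [H88 TY MO2E] `j = 2`: the number of vectors with a zero in a box, explicit constant

A direct sum over the points `P` of the box: `(F P).card ≤ 2^10 (H/m + 1)² (2H+1)^3` for `P ≠ 0`, `m = max(|x|, |y|)` (`Pool.Agent.H88.TU.dig_ex 2`),
`(F 0).card ≤ (2H+1)^5 ≤ 9 H² (2H+1)^3`, `∑_(P ≠ 0) 1/m² ≤ 8 (1 + log R)`, `(2R+1)² ≤ 9 R²` points. -/

namespace Pool.Agent.H88.TY

open Finset Pool.Agent.H8.AA Pool.Agent.H88.A2 Pool.Agent.H88.TX Pool.Agent.H82.TO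

private theorem card0e (H : ℕ) (N : ℤ) (S : Finset (Ix 2 → ℤ))
    (hS : ∀ c ∈ S, (∀ p, |c p| ≤ (H : ℤ)) ∧ ev 2 (co c) 0 0 = N) :
    S.card ≤ (2 * H + 1) ^ (Fintype.card (Ix 2) - 1) := by
  classical
  have h00 : ∀ c : Ix 2 → ℤ, ev 2 (co c) 0 0 = c (ix 0 0 (by omega)) := by
    intro d
    unfold ev
    rw [sum_range_succ']
    have h3 : ∑ k ∈ range 2, ∑ j ∈ range (k + 1 + 1),
        co d (k + 1 - j) j * ((0 : ℤ) ^ (k + 1 - j) * 0 ^ j) = 0 := by
      refine sum_eq_zero fun k _ => sum_eq_zero fun j hj => ?_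
      by_cases hj0 : j = 0
      · subst hj0
        simp
      · rw [zero_pow hj0]
        simp
    rw [h3]
    simp [co_of_le d (by omega : 0 + 0 ≤ 2)]
  have h := fib ({ix 0 0 (by omega)} : Finset (Ix 2)) H 1 S (fun c hc => (hS c hc).1) ?_
  · rw [card_singleton, one_mul] at h
    exact h
  · intro c hc T hT
    rw [card_le_one]
    intro a ha b hb
    funext i
    by_cases hi : i = ix 0 0 (by omega)
    · have e1 := (hS a (hT a ha).1).2
      have e2 := (hS b (hT b hb).1).2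
      rw [h00] at e1 e2
      rw [hi]
      linarith
    · rw [(hT a ha).2 i (by simpa using hi), (hT b hb).2 i (by simpa using hi)]

private theorem inv_sq0 (m : ℕ) : ∑ w ∈ (bp m).erase 0, 1 / mx w ^ 2 ≤ 8 * ∑ X ∈ range m, (1 : ℝ) / ((X : ℝ) + 1) := by
  induction m with
  | zero =>
    have h : (bp 0).erase 0 = ∅ := by
      rw [eq_empty_iff_forall_notMem]
      intro w hw
      rw [mem_erase, mem_bp] at hw
      apply hw.1
      have h1 := abs_eq_zero.1 (le_antisymm hw.2.1 (abs_nonneg _))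
      have h2 := abs_eq_zero.1 (le_antisymm hw.2.2 (abs_nonneg _))
      exact Prod.ext h1 h2
    rw [h, sum_empty]
    simp
  | succ m ih =>
    have hsub : bp m ⊆ bp (m + 1) := by
      intro w hw
      rw [mem_bp] at hw ⊢
      push_cast
      omega
    have hsub' : (bp m).erase 0 ⊆ (bp (m + 1)).erase 0 := erase_subset_erase _ hsub
    rw [← sum_sdiff hsub']
    have h1 : (bp (m + 1)).erase 0 \ (bp m).erase 0 ⊆ bp (m + 1) \ bp m := by
      intro w hw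
      rw [mem_sdiff, mem_erase, mem_erase] at hw
      rw [mem_sdiff]
      refine ⟨hw.1.2, fun h => hw.2 ⟨hw.1.1, h⟩⟩
    have h2 : ∀ w ∈ bp (m + 1) \ bp m, 1 / mx w ^ 2 ≤ 1 / ((m : ℝ) + 1) ^ 2 := by
      intro w hw
      rw [mem_sdiff, mem_bp, mem_bp] at hw
      have h3 : ((m : ℤ) + 1) ≤ |w.1| ∨ ((m : ℤ) + 1) ≤ |w.2| := by
        by_contra hcon
        push Not at hcon
        exact hw.2 ⟨by omega, by omega⟩
      refine one_div_le_one_div_of_le (by positivity) (pow_le_pow_left₀ (by positivity) ?_ 2)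
      unfold mx
      rcases h3 with h3 | h3
      · exact le_max_of_le_left (by exact_mod_cast h3)
      · exact le_max_of_le_right (by exact_mod_cast h3)
    have h3 : ((bp (m + 1) \ bp m).card : ℝ) = 8 * ((m : ℝ) + 1) := by
      have h4 := card_sdiff_add_card_eq_card hsub
      rw [card_bp, card_bp] at h4
      have h5 : (((bp (m + 1) \ bp m).card : ℕ) : ℝ) + (2 * (m : ℝ) + 1) ^ 2 = (2 * ((m : ℝ) + 1) + 1) ^ 2 := by exact_mod_cast h4
      nlinarith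
    have h4 : ∑ w ∈ (bp (m + 1)).erase 0 \ (bp m).erase 0, 1 / mx w ^ 2 ≤ 8 * (1 / ((m : ℝ) + 1)) := by
      refine (sum_le_sum_of_subset_of_nonneg h1 fun w _ _ => by positivity).trans ?_
      refine (sum_le_sum h2).trans ?_
      rw [sum_const, nsmul_eq_mul, h3]
      have : ((m : ℝ) + 1) ≠ 0 := by positivity
      field_simp
      exact le_refl _
    rw [sum_range_succ]
    linarith

private theorem harm (R : ℕ) : ∑ X ∈ range R, (1 : ℝ) / ((X : ℝ) + 1) ≤ 1 + Real.log R := by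
  have h := harmonic_le_one_add_log R
  unfold harmonic at h
  push_cast at h
  simpa [one_div] using h

theorem mo2_ex : Mo2S (2 ^ 20) := by
  classical
  have hcard : Fintype.card (Ix 2) = 6 := by rw [card_ix]
  intro H R hH hR v T hT
  have hHr : (1 : ℝ) ≤ (H : ℝ) := by exact_mod_cast hH
  have hRr : (1 : ℝ) ≤ (R : ℝ) := by exact_mod_cast hR
  have hlR : 0 ≤ Real.log R := Real.log_nonneg hRr
  obtain ⟨W, hW⟩ : ∃ W : ℝ, W = (2 * (H : ℝ) + 1) ^ 3 := ⟨_, rfl⟩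
  have hW0 : 0 ≤ W := by rw [hW]; positivity
  rw [← hW]
  obtain ⟨F, hF⟩ : ∃ F : ℤ × ℤ → Finset (Ix 2 → ℤ), F = fun P => T.filter fun c => ev 2 (co c) P.1 P.2 = v P.1 P.2 := ⟨_, rfl⟩
  have hsub : T ⊆ (bp R).biUnion F := by
    intro c hc
    obtain ⟨-, x, y, hx, hy, hv⟩ := hT c hc
    rw [Finset.mem_biUnion]
    refine ⟨(x, y), mem_bp.2 ⟨hx, hy⟩, ?_⟩
    rw [hF]
    exact Finset.mem_filter.2 ⟨hc, hv⟩
  have hmem0 : (0 : ℤ × ℤ) ∈ bp R := by
    rw [mem_bp]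
    simp
  have hc0 : (T.card : ℝ) ≤ ((F 0).card : ℝ) + ∑ P ∈ (bp R).erase 0, ((F P).card : ℝ) := by
    have g1 : (T.card : ℝ) ≤ ∑ P ∈ bp R, ((F P).card : ℝ) := by
      exact_mod_cast (Finset.card_le_card hsub).trans Finset.card_biUnion_le
    rw [Finset.add_sum_erase (bp R) (fun P => ((F P).card : ℝ)) hmem0]
    exact g1
  -- the point zero
  have e0 : ((F 0).card : ℝ) ≤ 9 * (W * ((H : ℝ) ^ 2 * (1 + Real.log R))) := by
    have g1 : (F 0).card ≤ (2 * H + 1) ^ (Fintype.card (Ix 2) - 1) := card0e H (v 0 0) (F 0) (by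
      intro c hc
      rw [hF] at hc
      have hc' := Finset.mem_filter.1 hc
      exact ⟨(hT c hc'.1).1, hc'.2⟩)
    rw [hcard] at g1
    have g2 : ((F 0).card : ℝ) ≤ (2 * (H : ℝ) + 1) ^ (6 - 1) := by exact_mod_cast g1
    have g3 : (2 * (H : ℝ) + 1) ^ (6 - 1) = (2 * (H : ℝ) + 1) ^ 2 * W := by
      rw [hW]
      ring
    have g4 : (2 * (H : ℝ) + 1) ^ 2 ≤ 9 * (H : ℝ) ^ 2 := by nlinarith
    have g5 : 0 ≤ W * (H : ℝ) ^ 2 * Real.log R := by positivity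
    calc ((F 0).card : ℝ) ≤ (2 * (H : ℝ) + 1) ^ 2 * W := g2.trans (le_of_eq g3)
      _ ≤ 9 * (H : ℝ) ^ 2 * W := mul_le_mul_of_nonneg_right g4 hW0
      _ ≤ _ := by nlinarith
  -- the other points
  have e1 : ∀ P ∈ (bp R).erase 0, ((F P).card : ℝ) ≤ 2048 * W * ((H : ℝ) ^ 2 * (1 / mx P ^ 2) + 1) := by
    intro P hP
    rw [mem_erase] at hP
    have hne : P.1 ≠ 0 ∨ P.2 ≠ 0 := by
      by_contra hcon
      push Not at hcon
      exact hP.1 (Prod.ext hcon.1 hcon.2)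
    have g3 := Pool.Agent.H88.TU.dig_ex 2 H hH P.1 P.2 (v P.1 P.2) hne (F P) (by
      intro c hc
      rw [hF] at hc
      have hc' := Finset.mem_filter.1 hc
      exact ⟨(hT c hc'.1).1, hc'.2⟩)
    rw [hcard] at g3
    have g5 : (2 * (H : ℝ) + 1) ^ (6 - (2 + 1)) = W := by rw [hW]
    rw [g5] at g3
    have g6 : ((H : ℝ) / max |(P.1 : ℝ)| |(P.2 : ℝ)| + 1) ^ 2 ≤ 2 * ((H : ℝ) ^ 2 * (1 / mx P ^ 2) + 1) := by
      have g7 : (H : ℝ) ^ 2 * (1 / mx P ^ 2) = ((H : ℝ) / max |(P.1 : ℝ)| |(P.2 : ℝ)|) ^ 2 := by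
        unfold mx
        rw [div_pow]
        ring
      rw [g7]
      nlinarith [sq_nonneg ((H : ℝ) / max |(P.1 : ℝ)| |(P.2 : ℝ)| - 1)]
    calc ((F P).card : ℝ) ≤ (4 ^ 2 * 2 ^ 6) * ((H : ℝ) / max |(P.1 : ℝ)| |(P.2 : ℝ)| + 1) ^ 2 * W := g3
      _ ≤ (4 ^ 2 * 2 ^ 6) * (2 * ((H : ℝ) ^ 2 * (1 / mx P ^ 2) + 1)) * W :=
          mul_le_mul_of_nonneg_right (mul_le_mul_of_nonneg_left g6 (by positivity)) hW0
      _ = _ := by ring
  have e2 : ∑ P ∈ (bp R).erase 0, ((F P).card : ℝ) ≤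
      2048 * W * ((H : ℝ) ^ 2 * (8 * (1 + Real.log R)) + 9 * (R : ℝ) ^ 2) := by
    refine (Finset.sum_le_sum e1).trans ?_
    rw [← Finset.mul_sum]
    refine mul_le_mul_of_nonneg_left ?_ (by positivity)
    rw [Finset.sum_add_distrib, ← Finset.mul_sum, Finset.sum_const, nsmul_eq_mul, mul_one]
    refine add_le_add (mul_le_mul_of_nonneg_left ?_ (by positivity)) ?_
    · have g1 := inv_sq0 R
      have g2 := harm R
      linarith
    · have g8 : ((((bp R).erase 0).card : ℕ) : ℝ) ≤ (2 * (R : ℝ) + 1) ^ 2 := by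
        have g7 : ((bp R).erase 0).card ≤ (2 * R + 1) ^ 2 := by
          rw [← card_bp]
          exact Finset.card_le_card (Finset.erase_subset _ _)
        exact_mod_cast g7
      nlinarith
  have p1 : 0 ≤ W * ((H : ℝ) ^ 2 * (1 + Real.log R)) := by positivity
  have p2 : 0 ≤ W * (R : ℝ) ^ 2 := by positivity
  have hk : (((2 ^ 20 : ℕ)) : ℝ) = 1048576 := by norm_num
  rw [hk]
  calc (T.card : ℝ) ≤ 9 * (W * ((H : ℝ) ^ 2 * (1 + Real.log R))) +
        2048 * W * ((H : ℝ) ^ 2 * (8 * (1 + Real.log R)) + 9 * (R : ℝ) ^ 2) := by linarith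
    _ = 16393 * (W * ((H : ℝ) ^ 2 * (1 + Real.log R))) + 18432 * (W * (R : ℝ) ^ 2) := by ring
    _ ≤ 1048576 * (W * ((H : ℝ) ^ 2 * (1 + Real.log R))) + 1048576 * (W * (R : ℝ) ^ 2) := by linarith
    _ = _ := by ring

end Pool.Agent.H88.TY
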