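import Pool.Agent.H88.TY.Def
import Pool.Agent.H88.TF.Ncr

/-! # [H88 TY NCD] No three collinear points in a window `X ≤ |x| ≤ X^(1+1/(10n))`, contact `r = n - 2`

As H88/TF/Ncr.lean (helper60): `sdiff_lower`, `col_bound` are public and hold for `r ≤ n - 2`. `g = zb br` is now `c_(n-2) x^(3-n)` alone (`Rd br (n-2)`).
(2) `E = b^(4n) X^(2-n)`, `m = |c_r| X'^(-r-1)`, `r + 1 = n - 1`, `X' = X^(1+δ)`, `δ = 1/(10n)`, `|c_r| ≥ b^(-2rn) ≥ b^(-2n²)` (`CbgS`):
`D² ≤ 4 E/m ≤ 4 b^(4n+2n²) X^(2-n+(n-1)(1+δ)) ≤ 4 b^(4n+2n²) X^(11/10)`.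
(4) Two of the points at distance `D` (`D = |x - x'|`): `a = (y-y') - α(x-x') ∈ O.R`, `a ≠ 0`, and now WITH THE DIFFERENCE
`|φ a| ≤ |g(x) - g(x')| + 2E ≤ |c_(n-2)| (n-3) D X^(2-n) + 2E ≤ b^(4n+2) D X^(2-n)` (same side; `1/u^m - 1/v^m`, `m = n-3`: `≤ m |u-v| X^(-m-1)`; `D ≥ 1`), so
`O.liouville` (see `ngp` in H12/TG/Ngp.lean, `noCol_gap`) gives `X^(n-2) ≤ b^(5n+4) D^n`.
(5) `X^(2(n-2)) ≤ b^(10n+8) D^(2n) ≤ b^(10n+8) 4^n b^(4n²+2n³) X^(11n/10)`, so `X^(9n/10-4) ≤ b^(2n³+4n²+11n+8)` (`4^n ≤ b^n`),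
against `X ≥ b^(60n²)`: `60 n² (9n/10 - 4) = 54 n³ - 240 n² > 2n³ + 4n² + 11n + 8` for `n ≥ 5` (`n = 5`: `750 > 413`). (Take the 10th power to
avoid fractions: `Y = X^(1/(10n))`.) -/

namespace Pool.Agent.H88.TY

open Finset Polynomial Pool.Agent.H72.ES Pool.Agent.H88.TF

/-- the divided difference of the form `∑ a_j q^(n-j) p^j` -/
private theorem form_id {S : Type*} [CommRing S] (n : ℕ) (a : ℕ → S) (p q t : S) :
    (∑ j ∈ range (n + 1), a j * q ^ (n - j) * p ^ j) - q ^ n * ∑ j ∈ range (n + 1), a j * t ^ j =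
      (p - q * t) * ∑ j ∈ range (n + 1), a j * q ^ (n - j) * ∑ i ∈ range j, p ^ i * (q * t) ^ (j - 1 - i) := by
  rw [mul_sum, mul_sum, ← sum_sub_distrib]
  refine sum_congr rfl fun j hj => ?_
  rw [mem_range] at hj
  have h1 := (Commute.all p (q * t)).geom_sum₂_mul j
  have h2 : q ^ n = q ^ (n - j) * q ^ j := by rw [← pow_add]; congr 1; omega
  rw [h2]
  have h3 : (q * t) ^ j = q ^ j * t ^ j := mul_pow _ _ _
  linear_combination (-(a j * q ^ (n - j))) * h1 - a j * q ^ (n - j) * h3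

/-- the cofactor -/
private noncomputable def cof (n : ℕ) (G : ℕ → ℕ → ℤ) (p q : ℤ) : ℤ[X] :=
  ∑ j ∈ range (n + 1), C (G (n - j) j) * (C q) ^ (n - j) * ∑ i ∈ range j, (C p) ^ i * (C q * X) ^ (j - 1 - i)

private theorem cof_id (n : ℕ) (G : ℕ → ℕ → ℤ) (p q : ℤ) :
    C (∑ j ∈ range (n + 1), G (n - j) j * q ^ (n - j) * p ^ j) - (C q) ^ n * lead n G =
      (C p - C q * X) * cof n G p q := by
  have h := form_id n (fun j => (C (G (n - j) j) : ℤ[X])) (C p) (C q) X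
  unfold cof lead
  rw [← h, map_sum]
  congr 1
  refine sum_congr rfl fun j _ => ?_
  simp only [map_mul, map_pow]

private theorem cof_deg {n : ℕ} (hn : 1 ≤ n) (G : ℕ → ℕ → ℤ) (p q : ℤ) : (cof n G p q).natDegree < n := by
  have h : (cof n G p q).natDegree ≤ n - 1 := by
    unfold cof
    refine natDegree_sum_le_of_forall_le _ _ fun j hj => ?_
    rw [mem_range] at hj
    rw [← C_pow, ← C_mul]
    refine (natDegree_C_mul_le _ _).trans ?_
    refine natDegree_sum_le_of_forall_le _ _ fun i hi => ?_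
    rw [mem_range] at hi
    rw [← C_pow, mul_pow, ← C_pow]
    refine (natDegree_C_mul_le _ _).trans ((natDegree_C_mul_le _ _).trans ?_)
    rw [natDegree_X_pow]
    omega
  omega

private theorem cof_aeval {S : Type*} [CommRing S] (n : ℕ) (G : ℕ → ℕ → ℤ) (p q : ℤ) (t : S) :
    aeval t (cof n G p q) = ∑ j ∈ range (n + 1), (G (n - j) j : S) * (q : S) ^ (n - j) *
      ∑ i ∈ range j, (p : S) ^ i * ((q : S) * t) ^ (j - 1 - i) := by
  unfold cof
  simp only [map_sum, map_mul, map_pow, aeval_X, eq_intCast, map_intCast]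

private theorem cof_bd {n Q : ℕ} {f : ℤ[X]} {G : ℕ → ℕ → ℤ} (hG : Norml n Q f G) (p q : ℤ) (t D : ℝ) (hD : 1 ≤ D)
    (hq : |(q : ℝ)| ≤ D) (hp : |(p : ℝ)| ≤ (Q : ℝ) ^ 3 * D) (ht : |(q : ℝ) * t| ≤ (Q : ℝ) ^ 3 * D) :
    |aeval t (cof n G p q)| ≤ bb n Q * D ^ (n - 1) := by
  have hn := hG.hn
  have hQ := hG.hQ
  have hQ1 := one_le_QR hn hQ
  have hQ3 : (1 : ℝ) ≤ (Q : ℝ) ^ 3 := one_le_pow₀ hQ1
  have hD0 : 0 < D := by linarith
  rw [cof_aeval]
  refine (abs_sum_le_sum_abs _ _).trans ?_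
  have hterm : ∀ j ∈ range (n + 1), |(G (n - j) j : ℝ) * (q : ℝ) ^ (n - j) *
      ∑ i ∈ range j, (p : ℝ) ^ i * ((q : ℝ) * t) ^ (j - 1 - i)| ≤ (Q : ℝ) * (n * ((Q : ℝ) ^ 3) ^ n) * D ^ (n - 1) := by
    intro j hj
    rw [mem_range] at hj
    rcases Nat.eq_zero_or_pos j with hj0 | hj0
    · rw [hj0, range_zero, sum_empty, mul_zero, abs_zero]
      positivity
    rw [abs_mul, abs_mul, abs_pow]
    have e1 : |(G (n - j) j : ℝ)| ≤ Q := by
      have := hG.bound (n - j) j (by omega)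
      exact_mod_cast this
    have e2 : |(q : ℝ)| ^ (n - j) ≤ D ^ (n - j) := pow_le_pow_left₀ (abs_nonneg _) hq _
    have e3 : |∑ i ∈ range j, (p : ℝ) ^ i * ((q : ℝ) * t) ^ (j - 1 - i)| ≤ n * (((Q : ℝ) ^ 3) ^ n * D ^ (j - 1)) := by
      refine (abs_sum_le_sum_abs _ _).trans ?_
      have e4 : ∀ i ∈ range j, |(p : ℝ) ^ i * ((q : ℝ) * t) ^ (j - 1 - i)| ≤ ((Q : ℝ) ^ 3) ^ n * D ^ (j - 1) := by
        intro i hi
        rw [mem_range] at hi
        rw [abs_mul, abs_pow, abs_pow]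
        calc |(p : ℝ)| ^ i * |(q : ℝ) * t| ^ (j - 1 - i) ≤ ((Q : ℝ) ^ 3 * D) ^ i * ((Q : ℝ) ^ 3 * D) ^ (j - 1 - i) :=
              mul_le_mul (pow_le_pow_left₀ (abs_nonneg _) hp _) (pow_le_pow_left₀ (abs_nonneg _) ht _)
                (by positivity) (by positivity)
          _ = ((Q : ℝ) ^ 3) ^ (j - 1) * D ^ (j - 1) := by
              rw [← pow_add, show i + (j - 1 - i) = j - 1 by omega, mul_pow]
          _ ≤ ((Q : ℝ) ^ 3) ^ n * D ^ (j - 1) :=
              mul_le_mul_of_nonneg_right (pow_le_pow_right₀ hQ3 (by omega)) (by positivity)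
      refine (sum_le_card_nsmul _ _ _ e4).trans ?_
      rw [nsmul_eq_mul, card_range]
      exact mul_le_mul_of_nonneg_right (by exact_mod_cast (by omega : j ≤ n)) (by positivity)
    have e5 : D ^ (n - j) * D ^ (j - 1) ≤ D ^ (n - 1) := by
      rw [← pow_add]
      exact pow_le_pow_right₀ hD (by omega)
    calc |(G (n - j) j : ℝ)| * |(q : ℝ)| ^ (n - j) * |∑ i ∈ range j, (p : ℝ) ^ i * ((q : ℝ) * t) ^ (j - 1 - i)| ≤
          (Q * D ^ (n - j)) * (n * (((Q : ℝ) ^ 3) ^ n * D ^ (j - 1))) :=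
          mul_le_mul (mul_le_mul e1 e2 (by positivity) (by positivity)) e3 (abs_nonneg _) (by positivity)
      _ = (Q : ℝ) * (n * ((Q : ℝ) ^ 3) ^ n) * (D ^ (n - j) * D ^ (j - 1)) := by ring
      _ ≤ _ := mul_le_mul_of_nonneg_left e5 (by positivity)
  refine (sum_le_card_nsmul _ _ _ hterm).trans ?_
  rw [nsmul_eq_mul, card_range]
  have h1 := n_add_one_leR hn hQ
  have h2 : ((n + 1 : ℕ) : ℝ) ≤ Q := by push_cast; exact h1
  have h3 : (n : ℝ) ≤ Q := by linarith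
  calc ((n + 1 : ℕ) : ℝ) * ((Q : ℝ) * (n * ((Q : ℝ) ^ 3) ^ n) * D ^ (n - 1)) ≤
        Q * ((Q : ℝ) * (Q * ((Q : ℝ) ^ 3) ^ n) * D ^ (n - 1)) := by gcongr
    _ = (Q : ℝ) ^ (3 * n + 3) * D ^ (n - 1) := by rw [← pow_mul]; ring
    _ ≤ bb n Q * D ^ (n - 1) :=
        mul_le_mul_of_nonneg_right (Qpow_le_bb hn hQ (by nlinarith)) (by positivity)

/-- (4): two points near a branch with contact `n - 2` (helper55). `O.liouville` has the exponent `n` and would give `D^(n+1)`, too weak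
for `n = 5`; instead `H = ∑ a_j (x-x')^(n-j) (y-y')^j` is a nonzero integer, `H = ((y-y') - θ (x-x')) h(θ)`, `|h(θ)| ≤ b D^(n-1)`. -/
private theorem gapd {n Q : ℕ} {f : ℤ[X]} {θ : ℝ} (h1 : CblS) {O : Ord ℝ n Q f θ} {G : ℕ → ℕ → ℤ} (h5 : 5 ≤ n)
    (hG : Norml n Q f G) (br : Branch O G) (hr : Rd br (n - 2)) (X : ℝ) (hX : bb n Q ^ (60 * n ^ 2) ≤ X)
    (P P' : ℤ × ℤ) (hne : P.1 ≠ P'.1) (hx : X ≤ |(P.1 : ℝ)|) (hx' : X ≤ |(P'.1 : ℝ)|) (hP : Nb br P) (hP' : Nb br P') :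
    X ^ (n - 2) ≤ bb n Q ^ (4 * n + 2) * |(P.1 : ℝ) - P'.1| ^ n := by
  have hn := hG.hn
  have hQ := hG.hQ
  set b := bb n Q with hbdef
  have hb1 : 1 ≤ b := one_le_bb hn hQ
  have hb0 : 0 < b := bb_pos hn hQ
  have hb1000 : 1000 ≤ b := thousand_le_bb hn hQ
  have hQ1 := one_le_QR hn hQ
  have hbX : b ^ (4 * n + 1) ≤ X := (pow_le_pow_right₀ hb1 (by nlinarith)).trans hX
  have hX1 : 1 ≤ X := (one_le_pow₀ hb1).trans hbX
  have hX0 : 0 < X := by linarith
  obtain ⟨x, y⟩ := P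
  obtain ⟨x', y'⟩ := P'
  simp only at hne hx hx' ⊢
  set q : ℝ := ((y : ℝ) - y') - θ * ((x : ℝ) - x') with hq
  set D : ℝ := |(x : ℝ) - x'| with hD
  have hD1 : 1 ≤ D := by
    have h1 : 1 ≤ |x - x'| := Int.one_le_abs (sub_ne_zero.2 hne)
    have h2 : ((|x - x'| : ℤ) : ℝ) = D := by rw [hD]; push_cast; rfl
    rw [← h2]
    exact_mod_cast h1
  obtain ⟨V, hV⟩ : ∃ V : ℝ, V = X ^ (n - 2) := ⟨_, rfl⟩
  have hV0 : 0 < V := by rw [hV]; positivity
  have hXV : X ≤ V := by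
    rw [hV]
    exact le_self_pow₀ hX1 (by omega)
  -- the function z
  have hz : ∀ u : ℝ, zb br u = cb br (n - 2) * (1 / u) ^ (n - 3) := by
    intro u
    unfold zb
    rw [sum_eq_single_of_mem (n - 2) (mem_Icc.2 ⟨by omega, le_rfl⟩)]
    · rw [show n - 2 - 1 = n - 3 by omega, one_div, inv_pow, div_eq_mul_inv]
    · intro k hk hkn
      rw [mem_Icc] at hk
      rw [hr.lo k hk.1 (by omega), zero_div]
  have hzz : |zb br x - zb br x'| ≤ b ^ (4 * n) * D / V := by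
    rw [hz, hz, ← mul_sub, abs_mul]
    have e1 : |cb br (n - 2)| ≤ b ^ (4 * n - 8) :=
      (h1 n Q f θ O G hG br (n - 2) (by omega)).trans (le_of_eq (by rw [hbdef]; congr 1; omega))
    have x0 : (x : ℝ) ≠ 0 := by
      intro h
      rw [h, abs_zero] at hx
      linarith
    have x0' : (x' : ℝ) ≠ 0 := by
      intro h
      rw [h, abs_zero] at hx'
      linarith
    have e2 : ∀ u : ℝ, X ≤ |u| → |1 / u| ≤ 1 / X := by
      intro u hu
      rw [abs_div, abs_one]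
      exact one_div_le_one_div_of_le hX0 hu
    have e3 : |1 / (x : ℝ) - 1 / x'| ≤ D / X ^ 2 := by
      have t1 : 1 / (x : ℝ) - 1 / x' = -(((x : ℝ) - x') * ((1 / x) * (1 / x'))) := by
        field_simp
        ring
      rw [t1, abs_neg, abs_mul, abs_mul, ← hD]
      have t2 : |1 / (x : ℝ)| * |1 / (x' : ℝ)| ≤ (1 / X) * (1 / X) :=
        mul_le_mul (e2 _ hx) (e2 _ hx') (abs_nonneg _) (by positivity)
      calc D * (|1 / (x : ℝ)| * |1 / (x' : ℝ)|) ≤ D * ((1 / X) * (1 / X)) := mul_le_mul_of_nonneg_left t2 (by linarith)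
        _ = D / X ^ 2 := by field_simp
    have e4 : |(1 / (x : ℝ)) ^ (n - 3) - (1 / (x' : ℝ)) ^ (n - 3)| ≤ n * D / V := by
      have t1 := (Commute.all (1 / (x : ℝ)) (1 / (x' : ℝ))).geom_sum₂_mul (n - 3)
      rw [← t1, abs_mul]
      have t2 : |∑ i ∈ range (n - 3), (1 / (x : ℝ)) ^ i * (1 / (x' : ℝ)) ^ (n - 3 - 1 - i)| ≤ n * (1 / X) ^ (n - 4) := by
        refine (abs_sum_le_sum_abs _ _).trans ?_
        have t3 : ∀ i ∈ range (n - 3), |(1 / (x : ℝ)) ^ i * (1 / (x' : ℝ)) ^ (n - 3 - 1 - i)| ≤ (1 / X) ^ (n - 4) := by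
          intro i hi
          rw [mem_range] at hi
          rw [abs_mul, abs_pow, abs_pow]
          calc |1 / (x : ℝ)| ^ i * |1 / (x' : ℝ)| ^ (n - 3 - 1 - i) ≤ (1 / X) ^ i * (1 / X) ^ (n - 3 - 1 - i) :=
                mul_le_mul (pow_le_pow_left₀ (abs_nonneg _) (e2 _ hx) _)
                  (pow_le_pow_left₀ (abs_nonneg _) (e2 _ hx') _) (by positivity) (by positivity)
            _ = (1 / X) ^ (n - 4) := by rw [← pow_add]; congr 1; omega
        refine (sum_le_card_nsmul _ _ _ t3).trans ?_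
        rw [nsmul_eq_mul, card_range]
        exact mul_le_mul_of_nonneg_right (by exact_mod_cast (by omega : n - 3 ≤ n)) (by positivity)
      calc _ ≤ (n * (1 / X) ^ (n - 4)) * (D / X ^ 2) := mul_le_mul t2 e3 (abs_nonneg _) (by positivity)
        _ = n * D / (X ^ (n - 4) * X ^ 2) := by rw [one_div, inv_pow]; field_simp
        _ = n * D / V := by rw [hV, ← pow_add, show n - 4 + 2 = n - 2 by omega]
    have hnb : (n : ℝ) ≤ b := by
      have t1 := n_add_one_leR hn hQ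
      have t2 : (Q : ℝ) ^ 1 ≤ b := Qpow_le_bb hn hQ (by nlinarith)
      rw [pow_one] at t2
      linarith
    calc |cb br (n - 2)| * |(1 / (x : ℝ)) ^ (n - 3) - (1 / (x' : ℝ)) ^ (n - 3)| ≤ b ^ (4 * n - 8) * (n * D / V) :=
          mul_le_mul e1 e4 (abs_nonneg _) (by positivity)
      _ ≤ b ^ (4 * n - 8) * (b * D / V) := by gcongr
      _ = b ^ (4 * n - 7) * D / V := by rw [show 4 * n - 7 = 4 * n - 8 + 1 by omega, pow_succ]; ring
      _ ≤ b ^ (4 * n) * D / V := by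
          have : b ^ (4 * n - 7) ≤ b ^ (4 * n) := pow_le_pow_right₀ hb1 (by omega)
          gcongr
  have hEr : ∀ u w : ℤ, X ≤ |(u : ℝ)| → Nb br (u, w) → |(w : ℝ) - (θ * u + cb br 1 + zb br u)| ≤ b ^ (4 * n) * D / V := by
    intro u w hu hN
    unfold Nb at hN
    simp only at hN
    refine hN.trans ?_
    have t1 : V ≤ |(u : ℝ)| ^ (n - 2) := by
      rw [hV]
      exact pow_le_pow_left₀ hX0.le hu _
    have t2 : b ^ (4 * n) ≤ b ^ (4 * n) * D := le_mul_of_one_le_right (by positivity) hD1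
    exact div_le_div₀ (by positivity) t2 hV0 t1
  have hqX : |q| ≤ b ^ (4 * n + 1) * D / V := by
    have e1 : q = (((y : ℝ) - (θ * x + cb br 1 + zb br x)) - ((y' : ℝ) - (θ * x' + cb br 1 + zb br x'))) +
        (zb br x - zb br x') := by
      rw [hq]; ring
    have h6 : |q| ≤ 3 * (b ^ (4 * n) * D / V) := by
      rw [e1]
      have t0 := abs_add_le (((y : ℝ) - (θ * x + cb br 1 + zb br x)) - ((y' : ℝ) - (θ * x' + cb br 1 + zb br x')))
        (zb br x - zb br x')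
      have t1 := abs_sub ((y : ℝ) - (θ * x + cb br 1 + zb br x)) ((y' : ℝ) - (θ * x' + cb br 1 + zb br x'))
      have t2 := hEr x y hx hP
      have t3 := hEr x' y' hx' hP'
      linarith
    refine h6.trans ?_
    rw [← mul_div_assoc]
    refine div_le_div_of_nonneg_right ?_ hV0.le
    have t4 : 0 ≤ b ^ (4 * n) * D := by positivity
    calc 3 * (b ^ (4 * n) * D) ≤ b * (b ^ (4 * n) * D) := mul_le_mul_of_nonneg_right (by linarith) t4
      _ = b ^ (4 * n + 1) * D := by ring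
  have hqD : |q| ≤ D := by
    refine hqX.trans ?_
    rw [div_le_iff₀ hV0, mul_comm D V]
    exact mul_le_mul_of_nonneg_right (hbX.trans hXV) (by linarith)
  -- the form
  have hnn : (0 : ℝ) ≤ |q| := abs_nonneg _
  have hθ : |θ| ≤ (Q : ℝ) ^ 2 := by
    have h1 := O.φ_le O.α
    rw [O.φ_α, Real.norm_eq_abs] at h1
    exact h1.trans (O.ν_α.trans (nQ_le hn hQ))
  have hDQ : (Q : ℝ) ^ 2 * D + D ≤ (Q : ℝ) ^ 3 * D := by
    have t1 : (1 : ℝ) ≤ (Q : ℝ) ^ 2 := one_le_pow₀ hQ1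
    have t2 : (Q : ℝ) ^ 2 + 1 ≤ (Q : ℝ) ^ 3 := by
      calc (Q : ℝ) ^ 2 + 1 ≤ 16 * (Q : ℝ) ^ 2 := by linarith
        _ ≤ Q * (Q : ℝ) ^ 2 := mul_le_mul_of_nonneg_right (sixteen_leR hn hQ) (by positivity)
        _ = (Q : ℝ) ^ 3 := by ring
    calc (Q : ℝ) ^ 2 * D + D = ((Q : ℝ) ^ 2 + 1) * D := by ring
      _ ≤ _ := mul_le_mul_of_nonneg_right t2 (by linarith)
  have hqt : |((x - x' : ℤ) : ℝ)| = D := by rw [hD]; push_cast; rfl
  have hb3 : |((x - x' : ℤ) : ℝ) * θ| ≤ (Q : ℝ) ^ 3 * D := by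
    rw [abs_mul, hqt]
    calc D * |θ| ≤ D * (Q : ℝ) ^ 2 := mul_le_mul_of_nonneg_left hθ (by linarith)
      _ = (Q : ℝ) ^ 2 * D := mul_comm _ _
      _ ≤ _ := by linarith
  have hb2 : |((y - y' : ℤ) : ℝ)| ≤ (Q : ℝ) ^ 3 * D := by
    have e1 : ((y - y' : ℤ) : ℝ) = θ * ((x : ℝ) - x') + q := by
      rw [hq]; push_cast; ring
    rw [e1]
    refine (abs_add_le _ _).trans ?_
    rw [abs_mul, ← hD]
    have t1 := mul_le_mul_of_nonneg_right hθ (by linarith : 0 ≤ D)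
    linarith
  have hcb := cof_bd hG (y - y') (x - x') θ D hD1 hqt.le hb2 hb3
  rw [← hbdef] at hcb
  have hid := cof_id n G (y - y') (x - x')
  rw [hG.lead_eq] at hid
  set H : ℤ := ∑ j ∈ range (n + 1), G (n - j) j * (x - x') ^ (n - j) * (y - y') ^ j with hH
  have hθf : aeval θ f = 0 := by
    have t1 := congrArg O.φ O.root
    rw [map_zero, ← O.φ_α] at *
    rw [← t1, aeval_def, aeval_def, eval₂_eq_sum_range, eval₂_eq_sum_range, map_sum]
    refine sum_congr rfl fun i _ => ?_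
    simp
  have ha0 : ((y - y' : ℤ) : O.R) - ((x - x' : ℤ) : O.R) * O.α ≠ 0 := by
    intro h0
    have h1 := O.indep (C (y - y') - C (x - x') * Polynomial.X) ?_ ?_
    · have h2 := congrArg (fun p => Polynomial.coeff p 1) h1
      simp only [coeff_sub, coeff_C_mul, coeff_X_one, coeff_C_succ, coeff_zero] at h2
      apply hne
      linarith
    · refine lt_of_le_of_lt (natDegree_sub_le _ _) ?_
      refine max_lt ?_ ?_
      · rw [natDegree_C]; omega
      · refine lt_of_le_of_lt (natDegree_C_mul_le _ _) ?_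
        rw [natDegree_X]; omega
    · rw [← h0]
      simp
  have hH0 : H ≠ 0 := by
    intro h0
    rw [h0, map_zero, zero_sub] at hid
    have h2 := congrArg (aeval O.α) hid
    rw [map_neg, map_mul, O.root, mul_zero, neg_zero, map_mul] at h2
    have h3 : aeval O.α (C (y - y') - C (x - x') * Polynomial.X) ≠ 0 := by
      simpa using ha0
    have h4 : aeval O.α (cof n G (y - y') (x - x')) = 0 := by
      rcases mul_eq_zero.1 h2.symm with h | h
      · exact absurd h h3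
      · exact h
    have h5 := O.indep _ (cof_deg (by omega) G _ _) h4
    rw [h5, mul_zero, neg_eq_zero, mul_eq_zero] at hid
    rcases hid with h | h
    · have h6 := pow_eq_zero_iff (n := n) (by omega) |>.1 h
      rw [C_eq_zero] at h6
      omega
    · have h6 := congrArg (fun p => Polynomial.coeff p n) hG.lead_eq
      rw [h] at h6
      simp only [lead, finsetSum_coeff, coeff_C_mul, coeff_X_pow, coeff_zero] at h6
      rw [sum_eq_single_of_mem n (mem_range.2 (by omega))] at h6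
      · simp [hG.top] at h6
      · intro j _ hj
        rw [if_neg (Ne.symm hj), mul_zero]
  have hfin : (H : ℝ) = q * aeval θ (cof n G (y - y') (x - x')) := by
    have h2 := congrArg (aeval θ) hid
    rw [map_sub, map_mul, hθf, mul_zero, sub_zero, map_mul] at h2
    have h3 : aeval θ (C (y - y') - C (x - x') * Polynomial.X : ℤ[X]) = q := by
      rw [hq]
      simp only [map_sub, map_mul, aeval_X, eq_intCast, map_intCast]
      ring
    rw [h3] at h2
    rw [← h2]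
    simp
  have h1H : (1 : ℝ) ≤ |(H : ℝ)| := by
    have := Int.one_le_abs hH0
    exact_mod_cast this
  have h7 : 1 ≤ b ^ (4 * n + 1) * D / V * (b * D ^ (n - 1)) := by
    rw [hfin, abs_mul] at h1H
    exact h1H.trans (mul_le_mul hqX hcb (abs_nonneg _) (by positivity))
  have h8 : b ^ (4 * n + 1) * D / V * (b * D ^ (n - 1)) = b ^ (4 * n + 2) * D ^ n / V := by
    rw [show b ^ (4 * n + 2) = b ^ (4 * n + 1) * b by ring]
    rw [show D ^ n = D * D ^ (n - 1) by rw [← pow_succ']; congr 1; omega]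
    ring
  rw [h8, le_div_iff₀ hV0, one_mul, hV] at h7
  exact h7


/-- sorting three collinear points -/
private theorem sort3 (P : Fin 3 → ℤ × ℤ) (hne : ∀ i j, i ≠ j → (P i).1 ≠ (P j).1) (hc : Col (P 0) (P 1) (P 2)) :
    ∃ i j k, (P i).1 < (P j).1 ∧ (P j).1 < (P k).1 ∧
      ((P j).1 - (P i).1) * ((P k).2 - (P j).2) = ((P k).1 - (P j).1) * ((P j).2 - (P i).2) := by
  have h01 := hne 0 1 (by decide)
  have h02 := hne 0 2 (by decide)
  have h12 := hne 1 2 (by decide)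
  unfold Col at hc
  rcases lt_or_gt_of_ne h01 with a | a <;> rcases lt_or_gt_of_ne h02 with b | b <;>
    rcases lt_or_gt_of_ne h12 with c | c
  · exact ⟨0, 1, 2, a, c, by linear_combination hc⟩
  · exact ⟨0, 2, 1, b, c, by linear_combination -hc⟩
  · omega
  · exact ⟨2, 0, 1, b, a, by linear_combination hc⟩
  · exact ⟨1, 0, 2, a, b, by linear_combination -hc⟩
  · omega
  · exact ⟨1, 2, 0, c, b, by linear_combination hc⟩
  · exact ⟨2, 1, 0, c, a, by linear_combination -hc⟩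

/-- (5): the exponents -/
private theorem fin_numd {n : ℕ} {b Y D C : ℝ} (h5 : 5 ≤ n) (hb : 1000 ≤ b)
    (hY : b ^ (6 * n) ≤ Y) (hD : 1 ≤ D) (hC : 1 ≤ C * b ^ (2 * (n - 2) * n))
    (hk : D ^ 2 * C * (Y ^ (10 * n)) ^ (n - 2) ≤ 4 * b ^ (4 * n) * (Y ^ (10 * n + 1)) ^ (n - 2 + 1))
    (hg : (Y ^ (10 * n)) ^ (n - 2) ≤ b ^ (4 * n + 2) * D ^ n) : False := by
  have hb1 : 1 ≤ b := by linarith
  have hb0 : 0 < b := by linarith
  have hY1 : 1 ≤ Y := (one_le_pow₀ hb1).trans hY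
  have hY0 : 0 < Y := by linarith
  have hD0 : 0 < D := by linarith
  obtain ⟨s, rfl⟩ : ∃ s, n = s + 5 := ⟨n - 5, by omega⟩
  rw [show s + 5 - 2 = s + 3 by omega] at hk hg hC
  set n := s + 5 with hn
  have h1 : D ^ 2 * Y ^ (10 * n * (s + 3)) ≤ b ^ (4 * n + 2 * (s + 3) * n + 1) * Y ^ ((10 * n + 1) * (s + 4)) := by
    have s1 : D ^ 2 * Y ^ (10 * n * (s + 3)) * 1 ≤ D ^ 2 * Y ^ (10 * n * (s + 3)) * (C * b ^ (2 * (s + 3) * n)) :=
      mul_le_mul_of_nonneg_left hC (by positivity)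
    calc D ^ 2 * Y ^ (10 * n * (s + 3)) ≤ D ^ 2 * Y ^ (10 * n * (s + 3)) * (C * b ^ (2 * (s + 3) * n)) := by linarith
      _ = (D ^ 2 * C * (Y ^ (10 * n)) ^ (s + 3)) * b ^ (2 * (s + 3) * n) := by rw [← pow_mul]; ring
      _ ≤ (4 * b ^ (4 * n) * (Y ^ (10 * n + 1)) ^ (s + 3 + 1)) * b ^ (2 * (s + 3) * n) :=
          mul_le_mul_of_nonneg_right hk (by positivity)
      _ = 4 * (b ^ (4 * n) * b ^ (2 * (s + 3) * n) * Y ^ ((10 * n + 1) * (s + 4))) := by rw [← pow_mul]; ring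
      _ ≤ b * (b ^ (4 * n) * b ^ (2 * (s + 3) * n) * Y ^ ((10 * n + 1) * (s + 4))) :=
          mul_le_mul_of_nonneg_right (by linarith) (by positivity)
      _ = _ := by rw [pow_add, pow_add, pow_one]; ring
  have s1 : D ^ 2 ≤ b ^ (4 * n + 2 * (s + 3) * n + 1) * Y ^ (11 * s + 54) := by
    have s2 : D ^ 2 * Y ^ (10 * n * (s + 3)) ≤
        (b ^ (4 * n + 2 * (s + 3) * n + 1) * Y ^ (11 * s + 54)) * Y ^ (10 * n * (s + 3)) := by
      refine h1.trans (le_of_eq ?_)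
      rw [show (10 * n + 1) * (s + 4) = (11 * s + 54) + 10 * n * (s + 3) by rw [hn]; ring, pow_add Y]
      ring
    exact le_of_mul_le_mul_right s2 (by positivity)
  have s3 : D ^ (2 * n) ≤ b ^ ((4 * n + 2 * (s + 3) * n + 1) * n) * Y ^ ((11 * s + 54) * n) := by
    calc D ^ (2 * n) = (D ^ 2) ^ n := pow_mul _ _ _
      _ ≤ (b ^ (4 * n + 2 * (s + 3) * n + 1) * Y ^ (11 * s + 54)) ^ n := pow_le_pow_left₀ (by positivity) s1 n
      _ = _ := by rw [mul_pow, ← pow_mul, ← pow_mul]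
  have s4 : Y ^ (20 * n * (s + 3)) ≤ b ^ (8 * n + 4) * D ^ (2 * n) := by
    have s5 := mul_le_mul hg hg (by positivity) (by positivity)
    refine le_trans (le_of_eq ?_) (s5.trans (le_of_eq ?_))
    · rw [← pow_mul, ← pow_add]
      congr 1
      ring
    · rw [show 8 * n + 4 = (4 * n + 2) + (4 * n + 2) by ring, pow_add, show 2 * n = n + n by ring, pow_add]
      ring
  have s6 : Y ^ (n * (9 * s + 6)) ≤ b ^ (8 * n + 4 + (4 * n + 2 * (s + 3) * n + 1) * n) := by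
    have s7 : Y ^ (n * (9 * s + 6)) * Y ^ ((11 * s + 54) * n) ≤
        b ^ (8 * n + 4 + (4 * n + 2 * (s + 3) * n + 1) * n) * Y ^ ((11 * s + 54) * n) := by
      rw [← pow_add, show n * (9 * s + 6) + (11 * s + 54) * n = 20 * n * (s + 3) by ring]
      calc Y ^ (20 * n * (s + 3)) ≤ b ^ (8 * n + 4) * D ^ (2 * n) := s4
        _ ≤ b ^ (8 * n + 4) * (b ^ ((4 * n + 2 * (s + 3) * n + 1) * n) * Y ^ ((11 * s + 54) * n)) :=
            mul_le_mul_of_nonneg_left s3 (by positivity)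
        _ = _ := by rw [pow_add]; ring
    exact le_of_mul_le_mul_right s7 (by positivity)
  have s8 : b ^ (6 * n * (n * (9 * s + 6))) ≤ Y ^ (n * (9 * s + 6)) := by
    rw [pow_mul]
    exact pow_le_pow_left₀ (by positivity) hY _
  have s9 : b ^ (8 * n + 4 + (4 * n + 2 * (s + 3) * n + 1) * n) < b ^ (6 * n * (n * (9 * s + 6))) := by
    refine pow_lt_pow_right₀ (by linarith) ?_
    rw [hn]
    nlinarith [Nat.zero_le s, Nat.zero_le (s ^ 2), Nat.zero_le (s ^ 3)]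
  linarith

theorem ncd (h1 : CblS) (h2 : CbgS) : NcdS := by
  intro n Q f θ O G h5 hG br hr X hX P hinj hside hx2 hNb hcol
  have hn := hG.hn
  have hQ := hG.hQ
  have hb1 : 1 ≤ bb n Q := one_le_bb hn hQ
  have hb0 : 0 < bb n Q := bb_pos hn hQ
  have hb1000 : 1000 ≤ bb n Q := thousand_le_bb hn hQ
  have hX1 : 1 ≤ X := (one_le_pow₀ hb1).trans hX
  have hX0 : 0 < X := by linarith
  have hnR : (0 : ℝ) < n := by exact_mod_cast (by omega : 0 < n)
  have hr2 := hr.r2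
  have hrn := hr.rn
  have hxX : ∀ i, X ≤ |((P i).1 : ℝ)| := by
    intro i
    rcases hside with h | h
    · exact (h i).trans (le_abs_self _)
    · exact (h i).trans (neg_le_abs _)
  -- the root of X
  set Y : ℝ := X ^ (1 / (10 * (n : ℝ))) with hY
  have hY1 : 1 ≤ Y := Real.one_le_rpow hX1 (by positivity)
  have hYn : Y ^ (10 * n) = X := by
    rw [hY, ← Real.rpow_natCast, ← Real.rpow_mul hX0.le]
    push_cast
    rw [one_div_mul_cancel (by positivity), Real.rpow_one]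
  have hXY : X ^ (1 + 1 / (10 * (n : ℝ))) = Y ^ (10 * n + 1) := by
    rw [Real.rpow_add hX0, Real.rpow_one, pow_succ, hYn]
  have hYb : bb n Q ^ (6 * n) ≤ Y := by
    have h1 : (bb n Q ^ (6 * n)) ^ (10 * n) ≤ Y ^ (10 * n) := by
      rw [hYn, ← pow_mul]
      refine le_trans (le_of_eq ?_) hX
      congr 1
      ring
    exact le_of_pow_le_pow_left₀ (by omega) (by linarith) h1
  rw [hXY] at hx2
  set X' : ℝ := Y ^ (10 * n + 1) with hX'
  set E : ℝ := bb n Q ^ (4 * n) / X ^ (n - 2) with hE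
  have hEb : ∀ i, |((P i).2 : ℝ) - (θ * (P i).1 + cb br 1 + zb br (P i).1)| ≤ E := by
    intro i
    refine (hNb i).trans ?_
    exact div_le_div_of_nonneg_left (by positivity) (by positivity) (pow_le_pow_left₀ hX0.le (hxX i) _)
  have hE4 : E ≤ 1 / 4 := by
    rw [hE, div_le_iff₀ (by positivity)]
    have s1 : X ≤ X ^ (n - 2) := by
      calc X = X ^ 1 := (pow_one X).symm
        _ ≤ X ^ (n - 2) := pow_le_pow_right₀ hX1 (by omega)
    have s2 : bb n Q ^ (4 * n + 1) ≤ X := (pow_le_pow_right₀ hb1 (by nlinarith)).trans hX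
    have s3 : 1000 * bb n Q ^ (4 * n) ≤ bb n Q ^ (4 * n + 1) := by
      rw [pow_succ, mul_comm]
      exact mul_le_mul_of_nonneg_left hb1000 (by positivity)
    have s4 : 0 < bb n Q ^ (4 * n) := by positivity
    linarith
  -- the first coordinates are different
  have hxne : ∀ i j, i ≠ j → (P i).1 ≠ (P j).1 := by
    intro i j hne hx
    apply hne
    apply hinj
    refine Prod.ext hx ?_
    have h3 := abs_le.1 (hEb i)
    have h4 := abs_le.1 (hEb j)
    rw [← hx] at h4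
    have h5 : |((P i).2 : ℝ) - (P j).2| < 1 := by
      rw [abs_lt]
      constructor <;> linarith
    have h6 : |(P i).2 - (P j).2| < 1 := by exact_mod_cast h5
    rw [Int.abs_lt_one_iff] at h6
    linarith
  obtain ⟨i, j, k, hij, hjk, hc⟩ := sort3 P hxne hcol
  have hijR : ((P i).1 : ℝ) < (P j).1 := by exact_mod_cast hij
  have hjkR : ((P j).1 : ℝ) < (P k).1 := by exact_mod_cast hjk
  have hcR : (((P j).1 : ℝ) - (P i).1) * ((P k).2 - (P j).2) = ((P k).1 - (P j).1) * ((P j).2 - (P i).2) := by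
    exact_mod_cast hc
  -- the bounds for the coefficients
  have hlow : 1 ≤ |cb br (n - 2)| * bb n Q ^ (2 * (n - 2) * n) :=
    h2 n Q f θ O G hG br (n - 2) (by omega) (by omega) hr.ne
  have hup : ∀ k, 2 ≤ k → k ≤ n - 2 → |cb br k| ≤ bb n Q ^ (4 * n) := by
    intro k hk hkn
    exact (h1 n Q f θ O G hG br k (by omega)).trans (pow_le_pow_right₀ hb1 (by omega))
  have hcX : 2 * ((n : ℝ) ^ 3 * bb n Q ^ (4 * n)) ≤ |cb br (n - 2)| * X := by
    have s1 : (n : ℝ) ≤ bb n Q := by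
      have t1 := n_add_one_leR hn hQ
      have t2 : (Q : ℝ) ^ 1 ≤ bb n Q := Qpow_le_bb hn hQ (by nlinarith)
      rw [pow_one] at t2
      linarith
    have s2 : (n : ℝ) ^ 3 ≤ bb n Q ^ 3 := pow_le_pow_left₀ hnR.le s1 3
    have s3 : 2 * ((n : ℝ) ^ 3 * bb n Q ^ (4 * n)) ≤ bb n Q ^ (4 * n + 4) := by
      calc 2 * ((n : ℝ) ^ 3 * bb n Q ^ (4 * n)) ≤ bb n Q * (bb n Q ^ 3 * bb n Q ^ (4 * n)) := by
            refine mul_le_mul (by linarith) ?_ (by positivity) hb0.le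
            exact mul_le_mul_of_nonneg_right s2 (by positivity)
        _ = _ := by rw [pow_add]; ring
    have s4 : bb n Q ^ (2 * (n - 2) * n) * bb n Q ^ (4 * n + 4) ≤ X := by
      rw [← pow_add]
      refine (pow_le_pow_right₀ hb1 ?_).trans hX
      have : (n - 2) * n ≤ n * n := Nat.mul_le_mul_right _ (by omega)
      nlinarith
    calc 2 * ((n : ℝ) ^ 3 * bb n Q ^ (4 * n)) ≤ bb n Q ^ (4 * n + 4) := s3
      _ = 1 * bb n Q ^ (4 * n + 4) := (one_mul _).symm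
      _ ≤ (|cb br (n - 2)| * bb n Q ^ (2 * (n - 2) * n)) * bb n Q ^ (4 * n + 4) :=
          mul_le_mul_of_nonneg_right hlow (by positivity)
      _ = |cb br (n - 2)| * (bb n Q ^ (2 * (n - 2) * n) * bb n Q ^ (4 * n + 4)) := by ring
      _ ≤ |cb br (n - 2)| * X := mul_le_mul_of_nonneg_left s4 (abs_nonneg _)
  have key : (((P j).1 : ℝ) - (P i).1) * ((P k).1 - (P j).1) * |cb br (n - 2)| ≤ 4 * E * X' ^ (n - 2 + 1) := by
    rcases hside with hs | hs
    · exact col_bound (c := cb br) (t := θ) (c0 := cb br 1) hr2 (by omega) hr.lo hup hX1 hcX (hs i) hijR hjkR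
        ((le_abs_self _).trans (hx2 k)) (hEb i) (hEb j) (hEb k) hcR
    · have hz : ∀ x : ℝ, zb br x = ∑ k ∈ Icc 2 (n - 2), ((-1) ^ (k - 1) * cb br k) / (-x) ^ (k - 1) := by
        intro x
        unfold zb
        refine sum_congr rfl fun k _ => ?_
        rw [neg_pow x (k - 1), mul_div_mul_left _ _ (pow_ne_zero _ (by norm_num))]
      have habs : ∀ k, |(-1 : ℝ) ^ (k - 1) * cb br k| = |cb br k| := by
        intro k
        rw [abs_mul, abs_pow, abs_neg, abs_one, one_pow, one_mul]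
      have hE' : ∀ i, |((P i).2 : ℝ) - (-θ * -((P i).1 : ℝ) + cb br 1 +
          ∑ k ∈ Icc 2 (n - 2), ((-1) ^ (k - 1) * cb br k) / (-((P i).1 : ℝ)) ^ (k - 1))| ≤ E := by
        intro i
        rw [← hz, neg_mul_neg]
        exact hEb i
      have h := col_bound (c := fun k => (-1 : ℝ) ^ (k - 1) * cb br k) (B := bb n Q ^ (4 * n)) (X := X) (X' := X')
        (t := -θ) (c0 := cb br 1) (x1 := -((P k).1 : ℝ)) (x2 := -((P j).1 : ℝ)) (x3 := -((P i).1 : ℝ)) hr2 (by omega)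
        (fun k h2k hkr => by simp only [hr.lo k h2k hkr, mul_zero]) (fun k h2k hkn => by rw [habs]; exact hup k h2k hkn)
        hX1 (by rw [habs]; exact hcX) (hs k) (by linarith) (by linarith) ((neg_le_abs _).trans (hx2 i)) (hE' k) (hE' j)
        (hE' i) (by linear_combination hcR)
      simp only [habs] at h
      linarith
  -- the smallest gap
  have hgap : ∀ i j, i ≠ j → X ^ (n - 2) ≤ bb n Q ^ (4 * n + 2) * |((P i).1 : ℝ) - (P j).1| ^ n := fun i j hne =>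
    gapd h1 h5 hG br hr X hX (P i) (P j) (hxne i j hne) (hxX i) (hxX j) (hNb i) (hNb j)
  have hjine : j ≠ i := by rintro rfl; exact lt_irrefl _ hij
  have hkjne : k ≠ j := by rintro rfl; exact lt_irrefl _ hjk
  have g1 := hgap j i hjine
  have g2 := hgap k j hkjne
  rw [abs_of_pos (by linarith)] at g1 g2
  have d1 : (1 : ℝ) ≤ (P j).1 - (P i).1 := by
    have : (1 : ℤ) ≤ (P j).1 - (P i).1 := by omega
    exact_mod_cast this
  have d2 : (1 : ℝ) ≤ (P k).1 - (P j).1 := by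
    have : (1 : ℤ) ≤ (P k).1 - (P j).1 := by omega
    exact_mod_cast this
  obtain ⟨D, hD1, hDV, hDg⟩ : ∃ D : ℝ, 1 ≤ D ∧ D ^ 2 ≤ (((P j).1 : ℝ) - (P i).1) * ((P k).1 - (P j).1) ∧
      X ^ (n - 2) ≤ bb n Q ^ (4 * n + 2) * D ^ n := by
    rcases le_total (((P j).1 : ℝ) - (P i).1) (((P k).1 : ℝ) - (P j).1) with h | h
    · exact ⟨_, d1, by rw [sq]; exact mul_le_mul_of_nonneg_left h (by linarith), g1⟩
    · exact ⟨_, d2, by rw [sq]; exact mul_le_mul_of_nonneg_right h (by linarith), g2⟩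
  refine fin_numd (C := |cb br (n - 2)|) h5 hb1000 hYb hD1 hlow ?_ (by rw [hYn]; exact hDg)
  rw [hYn]
  have s1 : D ^ 2 * |cb br (n - 2)| ≤ 4 * E * X' ^ (n - 2 + 1) :=
    (mul_le_mul_of_nonneg_right hDV (abs_nonneg _)).trans key
  calc D ^ 2 * |cb br (n - 2)| * X ^ (n - 2) ≤ (4 * E * X' ^ (n - 2 + 1)) * X ^ (n - 2) :=
        mul_le_mul_of_nonneg_right s1 (by positivity)
    _ = 4 * bb n Q ^ (4 * n) * X' ^ (n - 2 + 1) := by
        rw [hE]
        field_simp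

end Pool.Agent.H88.TY
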