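import Pool.Agent.H88.TX.Def

/-! # [H88 TY NLXE] `H12.A3.nlp` with the explicit exponent `7 n + 16` (as H88/TX/Nlx.lean)

The constants of `nlp` are at most `P(n) D^6` with `P(n) <= 2^(7n+10)`, because `Lc n = (n+1)^3 4^n`. -/

namespace Pool.Agent.H88.TY

open Finset Polynomial Pool.Agent.H8.AA Pool.Agent.H88.A2 Pool.Agent.H88.TU Pool.Agent.H88.TX Pool.Agent.H12.A3

/-- `nlp` with the constants named -/
private theorem core (n : ℕ) {B A C₁ δ L L' C₂ C₃ M C K : ℝ} (hB : 1 ≤ B) (hA : 1 ≤ A) (hC₁ : 0 ≤ C₁)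
    (hδ : δ = B / A) (hL : L = Lc n) (hL' : L' = Lc (n - 1)) (hC₂ : C₂ = C₁ + (((n - 1 : ℕ) : ℝ) + 1) * B)
    (hC₃ : C₃ = 1 + 2 * C₂ / δ) (hM : M = C₃ * (B * L) + B * L') (hC : C = 1 + 4 / δ * (C₁ + M * C₃))
    (hK : K = 1 + C₂ / δ + 2 * C₂ / δ + 8 * (B * L) * C₂ / δ ^ 2 + 2 * (B * L) * C₃ / δ + 4 * M / δ) :
    1 ≤ C₃ ∧ 1 ≤ C ∧ 1 ≤ K ∧ ∀ (e : ℕ → ℕ → ℤ) (H : ℕ), 1 ≤ H → Tp n B H e → Gd n (B / A) e →
    (∀ x y : ℤ, Pt n e H C₁ K x y → ∃ θ : ℝ, aeval θ (fm e n) = 0 ∧ |y - θ * x| ≤ C₃ * H ∧ |θ| ≤ 2) ∧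
    (∀ (x y x' y' : ℤ) (θ : ℝ), Pt n e H C₁ K x y → Pt n e H C₁ K x' y' → aeval θ (fm e n) = 0 → |θ| ≤ 2 →
      |y - θ * x| ≤ C₃ * H → |y' - θ * x'| ≤ C₃ * H →
      |(y - θ * x) - (y' - θ * x')| ≤ C * (H ^ 2 * |1 / (x : ℝ) - 1 / x'| + H * (1 / |(x : ℝ)| + 1 / |(x' : ℝ)|))) := by
  have hn0 : (0 : ℝ) ≤ n := Nat.cast_nonneg n
  have hδ0 : 0 < δ := by rw [hδ]; positivity
  have hL1 : 1 ≤ L := by rw [hL]; exact Lc_pos n
  have hL1' : 1 ≤ L' := by rw [hL']; exact Lc_pos _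
  have hB0 : 0 < B := by linarith
  -- bound for `F t`
  have hC₂0 : 0 < C₂ := by rw [hC₂]; positivity
  have hq0 : 0 ≤ 2 * C₂ / δ := by positivity
  have hC₃1 : 1 ≤ C₃ := by rw [hC₃]; linarith
  have hM0 : 0 < M := by rw [hM]; positivity
  have hC1 : 1 ≤ C := by
    rw [hC]
    have : 0 ≤ 4 / δ * (C₁ + M * C₃) := by positivity
    linarith
  have k1 : 0 ≤ C₂ / δ := by positivity
  have k2 : 0 ≤ 8 * (B * L) * C₂ / δ ^ 2 := by positivity
  have k3 : 0 ≤ 2 * (B * L) * C₃ / δ := by positivity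
  have k4 : 0 ≤ 4 * M / δ := by positivity
  have hK1 : 1 ≤ K := by rw [hK]; linarith
  have hK0 : 0 < K := by linarith
  have g1 : C₂ ≤ K * δ := by
    have : C₂ / δ ≤ K := by rw [hK]; linarith
    rwa [div_le_iff₀ hδ0] at this
  have g2 : 2 * C₂ ≤ K * δ := by
    have : 2 * C₂ / δ ≤ K := by rw [hK]; linarith
    rwa [div_le_iff₀ hδ0] at this
  have g3 : 8 * (B * L) * C₂ ≤ K * δ ^ 2 := by
    have : 8 * (B * L) * C₂ / δ ^ 2 ≤ K := by rw [hK]; linarith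
    rwa [div_le_iff₀ (by positivity)] at this
  have g4 : 2 * (B * L) * C₃ ≤ K * δ := by
    have : 2 * (B * L) * C₃ / δ ≤ K := by rw [hK]; linarith
    rwa [div_le_iff₀ hδ0] at this
  have g5 : 4 * M ≤ K * δ := by
    have : 4 * M / δ ≤ K := by rw [hK]; linarith
    rwa [div_le_iff₀ hδ0] at this
  refine ⟨hC₃1, hC1, hK1, ?_⟩
  intro e H hH hT hG
  have hH' : (1 : ℝ) ≤ (H : ℝ) := by exact_mod_cast hH
  have hH0 : (0 : ℝ) < (H : ℝ) := by linarith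
  obtain ⟨a, ha⟩ : ∃ a : ℕ → ℝ, a = fun j => (e (n - j) j : ℝ) := ⟨_, rfl⟩
  obtain ⟨b, hb⟩ : ∃ b : ℕ → ℝ, b = fun j => (e (n - 1 - j) j : ℝ) := ⟨_, rfl⟩
  have haB : ∀ j ≤ n, |a j| ≤ B := by rw [ha]; exact hT.1
  have hbB : ∀ j ≤ n - 1, |b j| ≤ B * H := by rw [hb]; exact hT.2
  have hFa : ∀ t : ℝ, aeval t (fm e n) = Fa n a t := fun t => by rw [ha, fm_Fa]
  have hFb : ∀ t : ℝ, aeval t (fm e (n - 1)) = Fa (n - 1) b t := fun t => by rw [hb, fm_Fa]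
  have hDa : ∀ t : ℝ, aeval t (derivative (fm e n)) = Da n a t t := fun t => by rw [ha, fm_Da]
  -- facts on one point
  have fact : ∀ x y : ℤ, Pt n e H C₁ K x y → (x : ℝ) ≠ 0 ∧ |((y : ℝ) / x)| ≤ 1 ∧ K * H ≤ |(x : ℝ)| ∧
      |Fa n a ((y : ℝ) / x)| ≤ C₂ * H / |(x : ℝ)| ∧ δ ≤ |Da n a ((y : ℝ) / x) ((y : ℝ) / x)| ∧
      |x * Fa n a ((y : ℝ) / x) + Fa (n - 1) b ((y : ℝ) / x)| ≤ C₁ * H / |(x : ℝ)| := by
    intro x y h
    obtain ⟨h1, h2, h3⟩ := h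
    have hx0 : 0 < |(x : ℝ)| := lt_of_lt_of_le (by positivity) h2
    have hx : (x : ℝ) ≠ 0 := abs_pos.1 hx0
    have ht : |((y : ℝ) / x)| ≤ 1 := by
      rw [abs_div, div_le_one hx0]
      exact_mod_cast h1
    rw [hFa, hFb] at h3
    have h4 := Fa_le (n - 1) b hbB ht
    have hx1 : 1 ≤ |(x : ℝ)| := by nlinarith
    have h5 : |Fa n a ((y : ℝ) / x)| ≤ C₂ * H / |(x : ℝ)| := by
      rw [le_div_iff₀ hx0, mul_comm, ← abs_mul]
      have h6 : (x : ℝ) * Fa n a ((y : ℝ) / x) = (x * Fa n a ((y : ℝ) / x) + Fa (n - 1) b ((y : ℝ) / x)) - Fa (n - 1) b ((y : ℝ) / x) := by ring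
      rw [h6]
      refine (abs_sub _ _).trans ?_
      have h7 : C₁ * H / |(x : ℝ)| ≤ C₁ * H := div_le_self (by positivity) hx1
      calc _ ≤ C₁ * H + (((n - 1 : ℕ) : ℝ) + 1) * (B * H) := by linarith
        _ = C₂ * H := by rw [hC₂]; ring
    refine ⟨hx, ht, h2, h5, ?_, h3⟩
    have h8 : C₂ * H / |(x : ℝ)| ≤ δ := by
      rw [div_le_iff₀ hx0]
      calc C₂ * H ≤ (K * δ) * H := mul_le_mul_of_nonneg_right g1 hH0.le
        _ = δ * (K * H) := by ring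
        _ ≤ δ * |(x : ℝ)| := mul_le_mul_of_nonneg_left h2 hδ0.le
    rcases hG _ ht with h9 | h9
    · rw [hFa, ← hδ] at h9
      linarith
    · rw [hDa, ← hδ] at h9
      exact h9.le
  constructor
  · intro x y hP
    obtain ⟨hx, ht, hKx, hF, hD, hE⟩ := fact x y hP
    have hx0 : 0 < |(x : ℝ)| := abs_pos.2 hx
    obtain ⟨ε, hε⟩ : ∃ ε : ℝ, ε = C₂ * H / |(x : ℝ)| := ⟨_, rfl⟩
    have hε0 : 0 ≤ ε := by rw [hε]; positivity
    have hεK : ε * K ≤ C₂ := by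
      rw [hε, div_mul_eq_mul_div, div_le_iff₀ hx0]
      calc C₂ * H * K = C₂ * (K * H) := by ring
        _ ≤ C₂ * |(x : ℝ)| := mul_le_mul_of_nonneg_left hKx hC₂0.le
    rw [← hε] at hF
    have s1 : 2 * ε / δ ≤ 1 := by
      rw [div_le_one hδ0]
      have : (2 * ε) * K ≤ δ * K := by linarith
      exact le_of_mul_le_mul_right this hK0
    have s2 : B * L * (2 * ε / δ) ≤ δ / 4 := by
      rw [mul_div_assoc', div_le_iff₀ hδ0]
      have : (B * L * (2 * ε)) * K ≤ (δ / 4 * δ) * K := by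
        have h1 : (B * L * (2 * ε)) * K = 2 * (B * L) * (ε * K) := by ring
        rw [h1]
        have h2 : 2 * (B * L) * (ε * K) ≤ 2 * (B * L) * C₂ := mul_le_mul_of_nonneg_left hεK (by positivity)
        linarith
      exact le_of_mul_le_mul_right this hK0
    rw [hL] at s2
    obtain ⟨θ, h1, h2, h3, _⟩ := root_near n a hB0 haB ht hδ0 hD hε0 hF s1 s2
    refine ⟨θ, by rw [hFa]; exact h1, ?_, h3⟩
    have h4 : (y : ℝ) - θ * x = x * ((y : ℝ) / x - θ) := by field_simp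
    rw [h4, abs_mul, abs_sub_comm]
    calc |(x : ℝ)| * |θ - (y : ℝ) / x| ≤ |(x : ℝ)| * (2 * ε / δ) := mul_le_mul_of_nonneg_left h2 hx0.le
      _ = 2 * C₂ / δ * H := by rw [hε]; field_simp
      _ ≤ C₃ * H := by
          refine mul_le_mul_of_nonneg_right ?_ hH0.le
          rw [hC₃]
          linarith
  · intro x y x' y' θ hP hP' hθ0 hθ2 hz hz'
    obtain ⟨hx, ht, hKx, hF, hD, hE⟩ := fact x y hP
    obtain ⟨hx', ht', hKx', hF', hD', hE'⟩ := fact x' y' hP'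
    have hx0 : 0 < |(x : ℝ)| := abs_pos.2 hx
    have hx0' : 0 < |(x' : ℝ)| := abs_pos.2 hx'
    rw [hFa] at hθ0
    obtain ⟨t, hteq⟩ : ∃ t : ℝ, t = (y : ℝ) / x := ⟨_, rfl⟩
    obtain ⟨t', hteq'⟩ : ∃ t' : ℝ, t' = (y' : ℝ) / x' := ⟨_, rfl⟩
    obtain ⟨z, hzeq⟩ : ∃ z : ℝ, z = y - θ * x := ⟨_, rfl⟩
    obtain ⟨z', hzeq'⟩ : ∃ z' : ℝ, z' = y' - θ * x' := ⟨_, rfl⟩
    rw [← hteq] at ht hF hD hE
    rw [← hteq'] at ht' hF' hD' hE'
    rw [← hzeq] at hz ⊢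
    rw [← hzeq'] at hz' ⊢
    have hzt : t - θ = z / x := by rw [hteq, hzeq]; field_simp
    have hzt' : t' - θ = z' / x' := by rw [hteq', hzeq']; field_simp
    have hxz : x * (t - θ) = z := by rw [hzt]; field_simp
    have hxz' : x' * (t' - θ) = z' := by rw [hzt']; field_simp
    have e1 : x * Fa n a t = z * Da n a t θ := by
      have := Fa_sub n a t θ
      rw [hθ0, sub_zero] at this
      rw [this, ← mul_assoc, hxz]
    have e1' : x' * Fa n a t' = z' * Da n a t' θ := by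
      have := Fa_sub n a t' θ
      rw [hθ0, sub_zero] at this
      rw [this, ← mul_assoc, hxz']
    rw [e1] at hE
    rw [e1'] at hE'
    have ht2 : |t| ≤ 2 := by linarith
    have ht2' : |t'| ≤ 2 := by linarith
    obtain ⟨d, hd⟩ : ∃ d : ℝ, d = |z - z'| := ⟨_, rfl⟩
    obtain ⟨u, hu⟩ : ∃ u : ℝ, u = |1 / (x : ℝ) - 1 / x'| := ⟨_, rfl⟩
    obtain ⟨r, hr⟩ : ∃ r : ℝ, r = 1 / |(x : ℝ)| + 1 / |(x' : ℝ)| := ⟨_, rfl⟩
    rw [← hd, ← hu, ← hr]
    have hd0 : 0 ≤ d := by rw [hd]; exact abs_nonneg _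
    have hu0 : 0 ≤ u := by rw [hu]; exact abs_nonneg _
    have hr0 : 0 ≤ r := by rw [hr]; positivity
    -- `|t - t'|`
    have f1 : |t - t'| ≤ d / |(x : ℝ)| + C₃ * H * u := by
      have h1 : t - t' = (z - z') / x + z' * (1 / x - 1 / x') := by
        have : t - t' = (t - θ) - (t' - θ) := by ring
        rw [this, hzt, hzt']
        ring
      rw [h1]
      refine (abs_add_le _ _).trans ?_
      rw [abs_div, abs_mul, ← hd, ← hu]
      have := mul_le_mul_of_nonneg_right hz' hu0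
      linarith
    have f2 : |Da n a t θ - Da n a t' θ| ≤ B * L * |t - t'| := by rw [hL]; exact Da_lip n a hB0.le haB ht2 ht2' hθ2
    have f3 : |Fa (n - 1) b t - Fa (n - 1) b t'| ≤ B * H * L' * |t - t'| := by
      rw [hL']
      exact Fa_lip (n - 1) b (by positivity) hbB ht2 ht2'
    -- lower bound for the derivative
    have f4 : δ / 2 ≤ |Da n a t θ| := by
      have h1 : |Da n a t t - Da n a t θ| ≤ B * L * |t - θ| := by
        rw [Da_symm n a t θ, hL]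
        exact Da_lip n a hB0.le haB ht2 hθ2 ht2
      have h2 : |t - θ| * K ≤ C₃ := by
        rw [hzt, abs_div, div_mul_eq_mul_div, div_le_iff₀ hx0]
        calc |z| * K ≤ (C₃ * H) * K := mul_le_mul_of_nonneg_right hz hK0.le
          _ = C₃ * (K * H) := by ring
          _ ≤ C₃ * |(x : ℝ)| := mul_le_mul_of_nonneg_left hKx (by linarith)
      have h3 : B * L * |t - θ| ≤ δ / 2 := by
        have : (B * L * |t - θ|) * K ≤ (δ / 2) * K := by
          have h4 : (B * L * |t - θ|) * K = (B * L) * (|t - θ| * K) := by ring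
          rw [h4]
          have h5 : (B * L) * (|t - θ| * K) ≤ (B * L) * C₃ := mul_le_mul_of_nonneg_left h2 (by positivity)
          linarith
        exact le_of_mul_le_mul_right this hK0
      have h6 : |Da n a t t| ≤ |Da n a t t - Da n a t θ| + |Da n a t θ| := by
        have := abs_add_le (Da n a t t - Da n a t θ) (Da n a t θ)
        rwa [sub_add_cancel] at this
      linarith
    -- the main inequality
    have f5 : |(z - z') * Da n a t θ| ≤ C₁ * H * r + M * H * |t - t'| := by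
      have h1 : (z - z') * Da n a t θ = (z * Da n a t θ + Fa (n - 1) b t) - (z' * Da n a t' θ + Fa (n - 1) b t') -
          z' * (Da n a t θ - Da n a t' θ) - (Fa (n - 1) b t - Fa (n - 1) b t') := by ring
      rw [h1]
      refine (abs_sub _ _).trans ?_
      have h2 := abs_sub ((z * Da n a t θ + Fa (n - 1) b t) - (z' * Da n a t' θ + Fa (n - 1) b t')) (z' * (Da n a t θ - Da n a t' θ))
      have h3 := abs_sub (z * Da n a t θ + Fa (n - 1) b t) (z' * Da n a t' θ + Fa (n - 1) b t')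
      have h4 : |z' * (Da n a t θ - Da n a t' θ)| ≤ (C₃ * H) * (B * L * |t - t'|) := by
        rw [abs_mul]
        exact mul_le_mul hz' f2 (abs_nonneg _) (by positivity)
      have h5 : C₁ * H / |(x : ℝ)| + C₁ * H / |(x' : ℝ)| = C₁ * H * r := by rw [hr]; ring
      have h6 : (C₃ * H) * (B * L * |t - t'|) + B * H * L' * |t - t'| = M * H * |t - t'| := by rw [hM]; ring
      linarith
    have f6 : M * H * (d / |(x : ℝ)|) ≤ δ / 4 * d := by
      have h1 : M * H / |(x : ℝ)| ≤ δ / 4 := by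
        rw [div_le_iff₀ hx0]
        have h2 : M * H ≤ δ / 4 * (K * H) := by
          have : M ≤ K * δ / 4 := by linarith
          calc M * H ≤ K * δ / 4 * H := mul_le_mul_of_nonneg_right this hH0.le
            _ = _ := by ring
        exact h2.trans (mul_le_mul_of_nonneg_left hKx (by positivity))
      calc M * H * (d / |(x : ℝ)|) = (M * H / |(x : ℝ)|) * d := by ring
        _ ≤ δ / 4 * d := mul_le_mul_of_nonneg_right h1 hd0
    rw [abs_mul, ← hd] at f5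
    have f7 : δ / 2 * d ≤ C₁ * H * r + δ / 4 * d + M * H * (C₃ * H * u) := by
      have h1 : δ / 2 * d ≤ d * |Da n a t θ| := by
        rw [mul_comm]
        exact mul_le_mul_of_nonneg_left f4 hd0
      have h2 : M * H * |t - t'| ≤ M * H * (d / |(x : ℝ)| + C₃ * H * u) := mul_le_mul_of_nonneg_left f1 (by positivity)
      have h3 : M * H * (d / |(x : ℝ)| + C₃ * H * u) = M * H * (d / |(x : ℝ)|) + M * H * (C₃ * H * u) := by ring
      linarith
    have f8 : d ≤ 4 / δ * (C₁ * (H * r) + M * C₃ * (H ^ 2 * u)) := by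
      rw [div_mul_eq_mul_div, le_div_iff₀ hδ0]
      linarith
    refine f8.trans ?_
    have hHu : 0 ≤ (H : ℝ) ^ 2 * u := by positivity
    have hHr : 0 ≤ (H : ℝ) * r := by positivity
    have h9 : 4 / δ * (C₁ * (H * r) + M * C₃ * (H ^ 2 * u)) ≤ 4 / δ * (C₁ + M * C₃) * (H ^ 2 * u + H * r) := by
      have h10 : C₁ * (H * r) + M * C₃ * (H ^ 2 * u) ≤ (C₁ + M * C₃) * (H ^ 2 * u + H * r) := by
        have : 0 ≤ C₁ * ((H : ℝ) ^ 2 * u) := by positivity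
        have : 0 ≤ M * C₃ * ((H : ℝ) * r) := by positivity
        linarith
      have := mul_le_mul_of_nonneg_left h10 (by positivity : 0 ≤ 4 / δ)
      linarith
    refine h9.trans (mul_le_mul_of_nonneg_right ?_ (by positivity))
    rw [hC]
    linarith

/-- the bounds of the constants -/
private theorem bnds (n : ℕ) {B A C₁ δ L L' C₂ C₃ M C K : ℝ} (hB : 1 ≤ B) (hA : 1 ≤ A) (hC₁ : 0 ≤ C₁)
    (hδ : δ = B / A) (hL : L = Lc n) (hL' : L' = Lc (n - 1)) (hC₂ : C₂ = C₁ + (((n - 1 : ℕ) : ℝ) + 1) * B)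
    (hC₃ : C₃ = 1 + 2 * C₂ / δ) (hM : M = C₃ * (B * L) + B * L') (hC : C = 1 + 4 / δ * (C₁ + M * C₃))
    (hK : K = 1 + C₂ / δ + 2 * C₂ / δ + 8 * (B * L) * C₂ / δ ^ 2 + 2 * (B * L) * C₃ / δ + 4 * M / δ) {D : ℝ} (hD : 2 ≤ D) (hBD : B ≤ D)
    (hAD : A ≤ D) (hC₁D : C₁ ≤ D) {P : ℝ} {k : ℕ} (hk : P ≤ 2 ^ k)
    (hP : P = 1 + 3 * ((n : ℝ) + 2) + 8 * L * (n + 2) + 2 * L * (2 * n + 5) + 4 * ((2 * n + 5) * L + L') +
      (5 + 4 * ((2 * n + 5) * L + L') * (2 * n + 5)) + (2 * n + 5)) :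
    C₃ ≤ D ^ (k + 6) ∧ C ≤ D ^ (k + 6) ∧ K ≤ D ^ (k + 6) := by
  have hn0 : (0 : ℝ) ≤ n := Nat.cast_nonneg n
  have hδ0 : 0 < δ := by rw [hδ]; positivity
  have hL1 : 1 ≤ L := by rw [hL]; exact Lc_pos n
  have hL1' : 1 ≤ L' := by rw [hL']; exact Lc_pos _
  have hB0 : 0 < B := by linarith
  have hC₂0 : 0 < C₂ := by rw [hC₂]; positivity
  have hq0 : 0 ≤ 2 * C₂ / δ := by positivity
  have hC₃1 : 1 ≤ C₃ := by rw [hC₃]; linarith
  have hM0 : 0 < M := by rw [hM]; positivity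
  -- the bounds of the constants
  have hD1 : 1 ≤ D := by linarith
  have hD0 : 0 < D := by linarith
  have hPD : P * D ^ 6 ≤ D ^ (k + 6) := by
    rw [pow_add]
    refine mul_le_mul_of_nonneg_right ?_ (by positivity)
    exact hk.trans (pow_le_pow_left₀ (by norm_num) hD k)
  have hδi : ∀ X : ℝ, 0 ≤ X → X / δ ≤ X * D := by
    intro X hX
    rw [div_le_iff₀ hδ0, hδ]
    have h1 : 1 ≤ D * (B / A) := by
      rw [mul_div_assoc', le_div_iff₀ (by linarith : (0 : ℝ) < A)]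
      nlinarith
    calc X = X * 1 := (mul_one X).symm
      _ ≤ X * (D * (B / A)) := mul_le_mul_of_nonneg_left h1 hX
      _ = X * D * (B / A) := by ring
  have hD26 : D ^ 2 ≤ D ^ 6 := pow_le_pow_right₀ hD1 (by norm_num)
  have hD46 : D ^ 4 ≤ D ^ 6 := pow_le_pow_right₀ hD1 (by norm_num)
  have hD16 : 1 ≤ D ^ 6 := one_le_pow₀ hD1
  have hD12 : 1 ≤ D ^ 2 := one_le_pow₀ hD1
  have hD13 : D ≤ D ^ 3 := by
    calc D = D ^ 1 := (pow_one D).symm
      _ ≤ D ^ 3 := pow_le_pow_right₀ hD1 (by norm_num)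
  have hD15 : D ≤ D ^ 5 := by
    calc D = D ^ 1 := (pow_one D).symm
      _ ≤ D ^ 5 := pow_le_pow_right₀ hD1 (by norm_num)
  have b2 : C₂ ≤ (n + 2) * D := by
    have h1 : (((n - 1 : ℕ) : ℝ) + 1) ≤ n + 1 := by
      have : ((n - 1 : ℕ) : ℝ) ≤ n := by exact_mod_cast Nat.sub_le n 1
      linarith
    have h2 : (((n - 1 : ℕ) : ℝ) + 1) * B ≤ (n + 1) * D := mul_le_mul h1 hBD hB0.le (by positivity)
    rw [hC₂]
    linarith
  have b2' : C₂ / δ ≤ (n + 2) * D ^ 2 := by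
    calc C₂ / δ ≤ C₂ * D := hδi _ hC₂0.le
      _ ≤ ((n + 2) * D) * D := mul_le_mul_of_nonneg_right b2 hD0.le
      _ = _ := by ring
  have b3 : C₃ ≤ (2 * n + 5) * D ^ 2 := by
    have h1 : 2 * C₂ / δ = 2 * (C₂ / δ) := by ring
    rw [hC₃, h1]
    nlinarith
  have bM : M ≤ ((2 * n + 5) * L + L') * D ^ 3 := by
    have h1 : B * L ≤ D * L := mul_le_mul_of_nonneg_right hBD (by linarith)
    have h2 : B * L' ≤ D ^ 3 * L' := mul_le_mul_of_nonneg_right (hBD.trans hD13) (by linarith)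
    have h3 : C₃ * (B * L) ≤ ((2 * n + 5) * D ^ 2) * (D * L) := mul_le_mul b3 h1 (by positivity) (by positivity)
    rw [hM]
    calc C₃ * (B * L) + B * L' ≤ ((2 * n + 5) * D ^ 2) * (D * L) + D ^ 3 * L' := add_le_add h3 h2
      _ = _ := by ring
  have bC : C ≤ (5 + 4 * ((2 * n + 5) * L + L') * (2 * n + 5)) * D ^ 6 := by
    have h1 : M * C₃ ≤ (((2 * n + 5) * L + L') * D ^ 3) * ((2 * n + 5) * D ^ 2) := mul_le_mul bM b3 (by linarith) (by positivity)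
    have h2 : 4 / δ * (C₁ + M * C₃) ≤ 4 * (C₁ + M * C₃) * D := by
      have h3 : 4 / δ * (C₁ + M * C₃) = (4 * (C₁ + M * C₃)) / δ := by ring
      rw [h3]
      exact hδi _ (by positivity)
    have h4 : 4 * (C₁ + M * C₃) * D ≤ 4 * (D ^ 5 + (((2 * n + 5) * L + L') * D ^ 3) * ((2 * n + 5) * D ^ 2)) * D :=
      mul_le_mul_of_nonneg_right (by linarith) hD0.le
    have h5 : 4 * (D ^ 5 + (((2 * n + 5) * L + L') * D ^ 3) * ((2 * n + 5) * D ^ 2)) * D =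
        (4 + 4 * ((2 * n + 5) * L + L') * (2 * n + 5)) * D ^ 6 := by ring
    have h6 : (5 + 4 * ((2 * n + 5) * L + L') * (2 * n + 5)) * D ^ 6 =
        (4 + 4 * ((2 * n + 5) * L + L') * (2 * n + 5)) * D ^ 6 + D ^ 6 := by ring
    rw [hC, h6]
    linarith
  have bK : K ≤ (1 + 3 * ((n : ℝ) + 2) + 8 * L * (n + 2) + 2 * L * (2 * n + 5) + 4 * ((2 * n + 5) * L + L')) * D ^ 6 := by
    have h1 : C₂ / δ ≤ (n + 2) * D ^ 6 := b2'.trans (mul_le_mul_of_nonneg_left hD26 (by positivity))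
    have h2 : 8 * (B * L) * C₂ / δ ^ 2 ≤ 8 * L * (n + 2) * D ^ 6 := by
      have h3 : 8 * (B * L) * C₂ / δ ^ 2 = ((8 * (B * L)) * (C₂ / δ)) / δ := by field_simp
      have h4 : (8 * (B * L)) * (C₂ / δ) ≤ (8 * (D * L)) * ((n + 2) * D ^ 2) :=
        mul_le_mul (by nlinarith) b2' (by positivity) (by positivity)
      rw [h3]
      calc _ ≤ ((8 * (B * L)) * (C₂ / δ)) * D := hδi _ (by positivity)
        _ ≤ ((8 * (D * L)) * ((n + 2) * D ^ 2)) * D := mul_le_mul_of_nonneg_right h4 hD0.le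
        _ = 8 * L * (n + 2) * D ^ 4 := by ring
        _ ≤ 8 * L * (n + 2) * D ^ 6 := mul_le_mul_of_nonneg_left hD46 (by positivity)
    have h5 : 2 * (B * L) * C₃ / δ ≤ 2 * L * (2 * n + 5) * D ^ 6 := by
      have h4 : (2 * (B * L)) * C₃ ≤ (2 * (D * L)) * ((2 * n + 5) * D ^ 2) :=
        mul_le_mul (by nlinarith) b3 (by linarith) (by positivity)
      calc _ ≤ (2 * (B * L) * C₃) * D := hδi _ (by positivity)
        _ ≤ ((2 * (D * L)) * ((2 * n + 5) * D ^ 2)) * D := mul_le_mul_of_nonneg_right h4 hD0.le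
        _ = 2 * L * (2 * n + 5) * D ^ 4 := by ring
        _ ≤ 2 * L * (2 * n + 5) * D ^ 6 := mul_le_mul_of_nonneg_left hD46 (by positivity)
    have h6 : 4 * M / δ ≤ 4 * ((2 * n + 5) * L + L') * D ^ 6 := by
      calc _ ≤ (4 * M) * D := hδi _ (by positivity)
        _ ≤ (4 * (((2 * n + 5) * L + L') * D ^ 3)) * D := mul_le_mul_of_nonneg_right (by linarith) hD0.le
        _ = 4 * ((2 * n + 5) * L + L') * D ^ 4 := by ring
        _ ≤ 4 * ((2 * n + 5) * L + L') * D ^ 6 := mul_le_mul_of_nonneg_left hD46 (by positivity)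
    have h7 : 2 * C₂ / δ = 2 * (C₂ / δ) := by ring
    rw [hK, h7]
    have h8 : (1 + 3 * ((n : ℝ) + 2) + 8 * L * (n + 2) + 2 * L * (2 * n + 5) + 4 * ((2 * n + 5) * L + L')) * D ^ 6 =
        D ^ 6 + 3 * ((n + 2) * D ^ 6) + 8 * L * (n + 2) * D ^ 6 + 2 * L * (2 * n + 5) * D ^ 6 + 4 * ((2 * n + 5) * L + L') * D ^ 6 := by ring
    rw [h8]
    linarith
  have p1 : 0 ≤ 8 * L * ((n : ℝ) + 2) := by positivity
  have p2 : 0 ≤ 2 * L * (2 * (n : ℝ) + 5) := by positivity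
  have p3 : 0 ≤ 4 * ((2 * (n : ℝ) + 5) * L + L') := by positivity
  have p4 : 0 ≤ 4 * ((2 * (n : ℝ) + 5) * L + L') * (2 * n + 5) := by positivity
  have c3 : C₃ ≤ D ^ (k + 6) := by
    refine b3.trans (le_trans ?_ hPD)
    exact mul_le_mul (by rw [hP]; linarith) hD26 (by positivity) (by rw [hP]; linarith)
  have cC : C ≤ D ^ (k + 6) := by
    refine bC.trans (le_trans ?_ hPD)
    exact mul_le_mul_of_nonneg_right (by rw [hP]; linarith) (by positivity)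
  have cK : K ≤ D ^ (k + 6) := by
    refine bK.trans (le_trans ?_ hPD)
    exact mul_le_mul_of_nonneg_right (by rw [hP]; linarith) (by positivity)
  exact ⟨c3, cC, cK⟩

private theorem P_le (n : ℕ) : 1 + 3 * ((n : ℝ) + 2) + 8 * Lc n * (n + 2) + 2 * Lc n * (2 * n + 5) + 4 * ((2 * n + 5) * Lc n + Lc (n - 1)) +
      (5 + 4 * ((2 * n + 5) * Lc n + Lc (n - 1)) * (2 * n + 5)) + (2 * n + 5) ≤ 2 ^ (7 * n + 10) := by
  have hn0 : (0 : ℝ) ≤ n := Nat.cast_nonneg n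
  have e1 : (n : ℝ) + 1 ≤ 2 ^ n := by
    have : n + 1 ≤ 2 ^ n := Nat.lt_two_pow_self
    exact_mod_cast this
  obtain ⟨T, hT⟩ : ∃ T : ℝ, T = 2 ^ n := ⟨_, rfl⟩
  rw [← hT] at e1
  have hT1 : 1 ≤ T := by linarith
  have hT0 : 0 < T := by linarith
  have e4 : (4 : ℝ) ^ n = T ^ 2 := by
    rw [hT, ← pow_mul, mul_comm, pow_mul]
    norm_num
  have eE : (2 : ℝ) ^ (7 * n + 10) = 1024 * T ^ 7 := by
    rw [hT, ← pow_mul, pow_add, mul_comm n 7]
    norm_num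
    ring
  have hL : Lc n ≤ T ^ 5 := by
    unfold Lc
    rw [e4]
    have : ((n : ℝ) + 1) ^ 3 ≤ T ^ 3 := pow_le_pow_left₀ (by positivity) e1 3
    calc ((n : ℝ) + 1) ^ 3 * T ^ 2 ≤ T ^ 3 * T ^ 2 := mul_le_mul_of_nonneg_right this (by positivity)
      _ = T ^ 5 := by ring
  have hL' : Lc (n - 1) ≤ T ^ 5 := by
    have h1 : Lc (n - 1) ≤ Lc n := by
      unfold Lc
      have h2 : (((n - 1 : ℕ) : ℝ) + 1) ≤ n + 1 := by
        have : ((n - 1 : ℕ) : ℝ) ≤ n := by exact_mod_cast Nat.sub_le n 1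
        linarith
      have h3 : (4 : ℝ) ^ (n - 1) ≤ 4 ^ n := pow_le_pow_right₀ (by norm_num) (Nat.sub_le n 1)
      exact mul_le_mul (pow_le_pow_left₀ (by positivity) h2 3) h3 (by positivity) (by positivity)
    exact h1.trans hL
  have hL0 : 0 ≤ Lc n := by linarith [Lc_pos n]
  have hL0' : 0 ≤ Lc (n - 1) := by linarith [Lc_pos (n - 1)]
  have a1 : (n : ℝ) + 2 ≤ 2 * T := by linarith
  have a2 : 2 * (n : ℝ) + 5 ≤ 5 * T := by linarith
  have p57 : T ^ 6 ≤ T ^ 7 := pow_le_pow_right₀ hT1 (by norm_num)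
  have p17 : T ≤ T ^ 7 := by
    calc T = T ^ 1 := (pow_one T).symm
      _ ≤ T ^ 7 := pow_le_pow_right₀ hT1 (by norm_num)
  have p07 : 1 ≤ T ^ 7 := one_le_pow₀ hT1
  have p56 : T ^ 5 ≤ T ^ 6 := pow_le_pow_right₀ hT1 (by norm_num)
  have b1 : 8 * Lc n * (n + 2) ≤ 16 * T ^ 6 := by
    calc 8 * Lc n * (n + 2) ≤ (8 * T ^ 5) * (2 * T) := mul_le_mul (by linarith) a1 (by positivity) (by positivity)
      _ = 16 * T ^ 6 := by ring
  have b2 : 2 * Lc n * (2 * n + 5) ≤ 10 * T ^ 6 := by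
    calc 2 * Lc n * (2 * n + 5) ≤ (2 * T ^ 5) * (5 * T) := mul_le_mul (by linarith) a2 (by positivity) (by positivity)
      _ = 10 * T ^ 6 := by ring
  have b3 : (2 * n + 5) * Lc n + Lc (n - 1) ≤ 6 * T ^ 6 := by
    have : (2 * n + 5) * Lc n ≤ (5 * T) * T ^ 5 := mul_le_mul a2 hL hL0 (by positivity)
    have h5 : (5 * T) * T ^ 5 = 5 * T ^ 6 := by ring
    linarith
  have b3' : 0 ≤ (2 * n + 5) * Lc n + Lc (n - 1) := by positivity
  have b4 : 4 * ((2 * n + 5) * Lc n + Lc (n - 1)) * (2 * n + 5) ≤ 120 * T ^ 7 := by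
    calc 4 * ((2 * n + 5) * Lc n + Lc (n - 1)) * (2 * n + 5) ≤ (4 * (6 * T ^ 6)) * (5 * T) :=
          mul_le_mul (by linarith) a2 (by positivity) (by positivity)
      _ = 120 * T ^ 7 := by ring
  rw [eE]
  linarith

theorem nlx_ex (n : ℕ) (_hn : 4 ≤ n) : NlxS n (7 * n + 16) := by
  intro D B A C₁ hD hB hBD hA hAD hC₁ hC₁D
  obtain ⟨h1, h2, h3, h4⟩ := core n hB hA hC₁ rfl rfl rfl rfl rfl rfl rfl rfl
  obtain ⟨g1, g2, g3⟩ := bnds n hB hA hC₁ rfl rfl rfl rfl rfl rfl rfl rfl hD hBD hAD hC₁D (P_le n) rfl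
  exact ⟨_, _, _, h1, g1, h2, g2, h3, g3, h4⟩

end Pool.Agent.H88.TY
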