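import Mathlib

/-! # [H88 TY NUM] The exponents of `j = 1, 2`, `≥ 3` are at most `n ^ 17` -/

namespace Pool.Agent.H88.TY

/-- exponent of `ArxS` -/
def kA (n : ℕ) : ℕ := (1 + 504 * n + 2 * n ^ 2) + ((7 * n + 16) + ((7 * n + 16) + 1) * (5 * n + 9))

/-- exponent of `BgxS` -/
def kB (n : ℕ) : ℕ := 10 * n ^ 2 * (2 * (10 * n + 11)) + 10 * n ^ 2 * ((2 * n + 2) * kA n + (6 * (1200 * n ^ 5) + 3)) +
  10 * n ^ 2 * ((n + 17) + (2 * (10 * n + 11) + ((2 * n + 2) * kA n + 2))) + 1921 * n ^ 3 + 3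

theorem kB_le (n : ℕ) (hn : 5 ≤ n) : kB n ≤ 100000 * n ^ 7 := by
  have p2 : 5 * n ≤ n ^ 2 := by nlinarith
  have p3 : 5 * n ^ 2 ≤ n ^ 3 := by nlinarith [sq_nonneg n]
  have p4 : 5 * n ^ 3 ≤ n ^ 4 := by nlinarith [Nat.zero_le (n ^ 3)]
  have p5 : 5 * n ^ 4 ≤ n ^ 5 := by nlinarith [Nat.zero_le (n ^ 4)]
  have p6 : 5 * n ^ 5 ≤ n ^ 6 := by nlinarith [Nat.zero_le (n ^ 5)]
  have p7 : 5 * n ^ 6 ≤ n ^ 7 := by nlinarith [Nat.zero_le (n ^ 6)]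
  unfold kB kA
  nlinarith

theorem pow17 (n : ℕ) (hn : 5 ≤ n) : 9765625 * n ^ 7 ≤ n ^ 17 := by
  calc 9765625 * n ^ 7 = 5 ^ 10 * n ^ 7 := by norm_num
    _ ≤ n ^ 10 * n ^ 7 := Nat.mul_le_mul_right _ (Nat.pow_le_pow_left hn 10)
    _ = n ^ 17 := by rw [← pow_add]

theorem exp2 (n : ℕ) (hn : 5 ≤ n) (c : ℕ) (hc : c ≤ 1000000) :
    (20 * n + 200) + (3 * kB n + 31) + (7 * kB n + 71 + c) + 1 ≤ n ^ 17 := by
  have h1 := kB_le n hn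
  have h2 := pow17 n hn
  have h3 : n ≤ n ^ 7 := Nat.le_self_pow (by norm_num) n
  have h4 : 78125 ≤ n ^ 7 := by
    calc 78125 = 5 ^ 7 := by norm_num
      _ ≤ n ^ 7 := Nat.pow_le_pow_left hn 7
  omega

theorem exp3 (n : ℕ) (hn : 5 ≤ n) : 2 * n ^ 2 + (n ^ 16 + 1) ≤ n ^ 17 := by
  have h1 : n ^ 17 = n * n ^ 16 := by rw [pow_succ]; ring
  have h2 : n ^ 2 ≤ n ^ 16 := Nat.pow_le_pow_right (by omega) (by norm_num)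
  have h3 : 1 ≤ n ^ 16 := Nat.one_le_pow _ _ (by omega)
  rw [h1]
  nlinarith

theorem exp1 (n κ : ℕ) (hn : 5 ≤ n) (hκ : κ ≤ 1000000 * n ^ 7) : 2 * κ + (2 * n + 8) + 1 ≤ n ^ 17 := by
  have h2 := pow17 n hn
  have h3 : n ≤ n ^ 7 := Nat.le_self_pow (by norm_num) n
  have h4 : 78125 ≤ n ^ 7 := by
    calc 78125 = 5 ^ 7 := by norm_num
      _ ≤ n ^ 7 := Nat.pow_le_pow_left hn 7
  omega

end Pool.Agent.H88.TY
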