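import Pool.Agent.H88.TX.Eff
import Pool.Agent.H82.TE.Te1ea

/-! # [H88 TY TE1E] THEOREM TE1 with the explicit exponent `20000 n^5` (helper82) -/

namespace Pool.Agent.H82.TE

open Finset MvPolynomial Pool.Agent.H8.AA Pool.Agent.H88.A2 Pool.Agent.H88.TU Pool.Agent.H82.TO Pool.Agent.H82.A3

private theorem pow4_le (n : ℕ) : (n : ℝ) ^ 4 ≤ 2 ^ (4 * n) := by
  have h1 : (n : ℝ) ≤ 2 ^ n := by exact_mod_cast (Nat.lt_two_pow_self).le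
  calc (n : ℝ) ^ 4 ≤ ((2 : ℝ) ^ n) ^ 4 := pow_le_pow_left₀ (Nat.cast_nonneg _) h1 4
    _ = _ := by rw [← pow_mul]; congr 1; ring

theorem te1_ex (n : ℕ) (hn : 4 ≤ n) : ∀ B : ℕ, 2 ≤ B → ∀ G : MvPolynomial (Fin 2) ℤ,
    Hyp0 n 1 G → (∀ m, |G.coeff m| + 1 ≤ (B : ℤ)) → ∀ H : ℕ, 1 ≤ H →
    (cnt 1 G H : ℝ) ≤ (B : ℝ) ^ (20000 * n ^ 5) * (H : ℝ) ^ (2 + 1 / ((n - 1 : ℕ) : ℝ)) ∧
    ((B : ℝ) ^ (20000 * n ^ 5) ≤ H → (H : ℝ) ^ (2 + 1 / ((n - 1 : ℕ) : ℝ)) ≤ (B : ℝ) ^ (20000 * n ^ 5) * cnt 1 G H) ∧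
    ∀ T : ℝ, 1 ≤ T → (bad 1 G H (T * (H : ℝ) ^ (1 / ((n - 1 : ℕ) : ℝ))) : ℝ) ≤
      (B : ℝ) ^ (20000 * n ^ 5) * (1 / T + T ^ 4 * (H : ℝ) ^ (-(1 / (4 * (n : ℝ) ^ 2)))) * (H : ℝ) ^ (2 + 1 / ((n - 1 : ℕ) : ℝ)) := by
  have hn2 : (n : ℝ) ≤ 2 ^ n := by exact_mod_cast (Nat.lt_two_pow_self).le
  have hn0 : (0 : ℝ) ≤ n := Nat.cast_nonneg _
  have hn4 : (4 : ℝ) ≤ n := by exact_mod_cast hn
  have h2n : (n : ℝ) ^ 2 ≤ 2 ^ (2 * n) := by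
    calc (n : ℝ) ^ 2 ≤ ((2 : ℝ) ^ n) ^ 2 := pow_le_pow_left₀ hn0 hn2 2
      _ = _ := by rw [← pow_mul]; congr 1; ring
  have h2n1 : ((n : ℝ) + 1) ^ 2 ≤ 2 ^ (2 * n) := by
    have h1 : (n : ℝ) + 1 ≤ 2 ^ n := by exact_mod_cast (Nat.lt_two_pow_self)
    calc ((n : ℝ) + 1) ^ 2 ≤ ((2 : ℝ) ^ n) ^ 2 := pow_le_pow_left₀ (by linarith) h1 2
      _ = _ := by rw [← pow_mul]; congr 1; ring
  have h4n := pow4_le n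
  have hp2 : (1 : ℝ) ≤ 2 ^ (2 * n) := one_le_pow₀ (by norm_num)
  have hp4 : (1 : ℝ) ≤ 2 ^ (4 * n) := one_le_pow₀ (by norm_num)
  have hwm : 108 * (n : ℝ) ^ 2 * (((2500 * n ^ 4 : ℕ) : ℝ) + 1) ≤ 2 ^ (6 * n + 19) := by
    push_cast
    have e1 : 2500 * (n : ℝ) ^ 4 + 1 ≤ 2501 * (n : ℝ) ^ 4 := by
      have : (1 : ℝ) ≤ (n : ℝ) ^ 4 := one_le_pow₀ (by linarith)
      linarith
    calc 108 * (n : ℝ) ^ 2 * (2500 * (n : ℝ) ^ 4 + 1) ≤ 108 * 2 ^ (2 * n) * (2501 * 2 ^ (4 * n)) := by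
          gcongr
          exact e1.trans (by gcongr)
      _ = 108 * 2501 * (2 ^ (2 * n) * 2 ^ (4 * n)) := by ring
      _ ≤ 2 ^ 19 * (2 ^ (2 * n) * 2 ^ (4 * n)) := by
          refine mul_le_mul_of_nonneg_right (by norm_num) (by positivity)
      _ = _ := by rw [← pow_add, ← pow_add]; congr 1; ring
  have hwb : 3240 * (n : ℝ) ^ 4 + 4 ≤ 2 ^ (4 * n + 12) := by
    rw [pow_add]
    norm_num
    linarith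
  have hwd : 1 + 2 * (n : ℝ) ^ 2 + 1089 ≤ 2 ^ (2 * n + 11) := by
    rw [pow_add]
    norm_num
    linarith
  have hwu : 2 * ((873 : ℕ) : ℝ) + 2 ≤ 2 ^ 11 := by norm_num
  have hwl : 192 * 8 + 8 * ((n : ℝ) + 1) ^ 2 + 16 ≤ 2 ^ (2 * n + 11) := by
    rw [pow_add]
    norm_num
    linarith
  obtain ⟨kn, hkn⟩ : ∃ kn : ℕ, kn = 10 * n + 11 := ⟨_, rfl⟩
  obtain ⟨kc, hkc⟩ : ∃ kc : ℕ, kc = 2 * n + 10 + (3 * n + 1) + (3 * n + 1 + 2) * n := ⟨_, rfl⟩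
  have hnex : NexS n kn := by rw [hkn]; exact nex_ex n (by omega)
  have hcol : ColS n kc := by rw [hkc]; exact col_ex n (3 * n + 1) hn (exp_ex n (by omega))
  obtain ⟨k1, hk1⟩ : ∃ k1 : ℕ, k1 = 2 * (kn * kc) + 2 * kn + 4 := ⟨_, rfl⟩
  obtain ⟨km, hkm⟩ : ∃ km : ℕ, km = (6 * n + 19) + 2 * (kn * kc) + 1 := ⟨_, rfl⟩
  have hmid : ∀ B : ℕ, 2 ≤ B → ∀ e : ℕ → ℕ → ℤ, Bas n B e → Nz n e → ∀ H : ℕ, 1 ≤ H →
      ∀ T : Finset (Ix 1 → ℤ), (∀ c ∈ T, (∀ p, |c p| ≤ (H : ℤ)) ∧ ∃ x y : ℤ, |y| ≤ |x| ∧ (B : ℝ) ^ k1 * H ≤ |(x : ℝ)| ∧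
      |(x : ℝ)| ≤ ((B * H : ℕ) : ℝ) ^ (2500 * n ^ 4) ∧ ev n e x y + ev 1 (co c) x y = 0) →
      (T.card : ℝ) ≤ (B : ℝ) ^ km * ((H : ℝ) ^ 2 * (H : ℝ) ^ (1 / (n : ℝ)) * (1 + Real.log H)) := by
    intro B hB e he hnz H hH T hT
    rw [hk1] at hT
    rw [hkm]
    exact mid_ex n (2500 * n ^ 4) kn kc (6 * n + 19) hn (by omega) hnex hcol hwm B hB e he hnz H hH T hT
  obtain ⟨ke, hke⟩ : ∃ ke : ℕ, ke = 21 * n + 39 + 4 * k1 := ⟨_, rfl⟩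
  have hnea : NeaS n (20 * n + 22) k1 ke := by rw [hke]; exact Pool.Agent.H82.TE.Neax.neax n k1 hn
  have hbig := bigx_ex n (20 * n + 22) k1 ke km (4 * n + 12) hn hnea hmid hwb
  have hbad := badx_ex n _ _ (2 * n + 11) hn hbig hwd
  have hup := upx_ex n _ _ 873 11 hn hbad momex hwu
  have hlo := lo1x_ex n (2 * n + 11) hn hwl
  have hall := te1_gen n _ _ _ _ hn hbad hup hlo
  obtain ⟨q, hq⟩ : ∃ q : ℕ, q = 10 * n ^ 2 * (20 * n + 22) + (2 * n + 11 + (4 * n + 12 + 10 * n ^ 2 * ke + 10 * n ^ 2 * km)) +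
    (11 + (2 * n + 11 + (4 * n + 12 + 10 * n ^ 2 * ke + 10 * n ^ 2 * km)) + 10 * n ^ 2 * (20 * n + 22) * 4) +
    (2 * n + 11 + 8) * n := ⟨_, rfl⟩
  rw [← hq] at hall
  have hq2 : q ≤ 20000 * n ^ 5 := by
    have e1 : q = 6000 * n ^ 5 + 22600 * n ^ 4 + 42740 * n ^ 3 + 28562 * n ^ 2 + 31 * n + 57 := by
      rw [hq, hke, hkm, hk1, hkn, hkc]
      ring
    have p1 : 4 * 4 ≤ 4 * n := Nat.mul_le_mul_left 4 hn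
    have p2 : 4 * n ≤ n ^ 2 := by rw [sq]; exact Nat.mul_le_mul_right n hn
    have p3 : 4 * n ^ 2 ≤ n ^ 3 := by rw [pow_succ n 2, mul_comm (n ^ 2)]; exact Nat.mul_le_mul_right _ hn
    have p4 : 4 * n ^ 3 ≤ n ^ 4 := by rw [pow_succ n 3, mul_comm (n ^ 3)]; exact Nat.mul_le_mul_right _ hn
    have p5 : 4 * n ^ 4 ≤ n ^ 5 := by rw [pow_succ n 4, mul_comm (n ^ 4)]; exact Nat.mul_le_mul_right _ hn
    rw [e1]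
    omega
  intro B hB G h hGB H hH
  obtain ⟨u1, u2, u3⟩ := hall B hB G h hGB H hH
  have hBr : (2 : ℝ) ≤ B := by exact_mod_cast hB
  have hB1 : (1 : ℝ) ≤ B := by linarith
  have hH' : (1 : ℝ) ≤ (H : ℝ) := by exact_mod_cast hH
  have hH0 : (0 : ℝ) < (H : ℝ) := by linarith
  have hmono : (B : ℝ) ^ q ≤ (B : ℝ) ^ (20000 * n ^ 5) := pow_le_pow_right₀ hB1 hq2
  have hY0 : 0 ≤ (H : ℝ) ^ (2 + 1 / ((n - 1 : ℕ) : ℝ)) := Real.rpow_nonneg hH0.le _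
  refine ⟨u1.trans (mul_le_mul_of_nonneg_right hmono hY0), ?_, ?_⟩
  · intro hBH
    exact (u2 (hmono.trans hBH)).trans (mul_le_mul_of_nonneg_right hmono (Nat.cast_nonneg _))
  · intro T hT
    have hT0 : (0 : ℝ) < T := by linarith
    have hw0 : 0 ≤ T ^ 4 * (H : ℝ) ^ (-(1 / (4 * (n : ℝ) ^ 2))) := mul_nonneg (by positivity) (Real.rpow_nonneg hH0.le _)
    have hq0 : 0 ≤ 1 / T + T ^ 4 * (H : ℝ) ^ (-(1 / (4 * (n : ℝ) ^ 2))) := by positivity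
    exact (u3 T hT).trans (mul_le_mul_of_nonneg_right (mul_le_mul_of_nonneg_right hmono hq0) hY0)

end Pool.Agent.H82.TE
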