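import Pool.Agent.H88.TX.Uqx
import Pool.Agent.H88.TU.Dge

/-! # [H88 TY UQXE] `uqx` with an explicit exponent: `pairs2` with the constant `65 * 27 * 1250 < 2^22` -/

namespace Pool.Agent.H88.TY

section

open Finset Pool.Agent.H8.AA Pool.Agent.H88.TS Pool.Agent.H82.TO Pool.Agent.H88.TU

private theorem pair2e : ∀ (H : ℕ), 1 ≤ H → ∀ (P Q : ℤ × ℤ) (N₁ N₂ : ℤ), P ≠ Q → ∀ T : Finset (Ix 2 → ℤ),
    (∀ c ∈ T, (∀ p, |c p| ≤ (H : ℤ)) ∧ ev 2 (co c) P.1 P.2 = N₁ ∧ ev 2 (co c) Q.1 Q.2 = N₂) →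
    (T.card : ℝ) ≤ (1 + 64) * (2 * (H : ℝ) + 1) ^ 3 * (1 + 2 * H * (wt P.1 Q.1 * wt P.2 Q.2)) := by
  obtain ⟨Cp, hCpe, hCp⟩ : ∃ Cp : ℝ, Cp = 64 ∧ 0 ≤ Cp := ⟨64, rfl, by norm_num⟩
  rw [← hCpe]
  intro H hH P Q N₁ N₂ hPQ T hT
  have hw1 := wt_pos P.1 Q.1
  have hw2 := wt_pos P.2 Q.2
  have hl1 := wt_le P.1 Q.1
  have hl2 := wt_le P.2 Q.2
  have hV : (0 : ℝ) ≤ (2 * (H : ℝ) + 1) ^ 3 := by positivity
  have hcast : ∀ X : ℕ, T.card ≤ (2 * H / X + 1) * (2 * H + 1) ^ 3 → ∀ s : ℝ, 1 / (X : ℝ) ≤ s →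
      (T.card : ℝ) ≤ (1 + Cp) * (2 * (H : ℝ) + 1) ^ 3 * (1 + 2 * H * s) := by
    intro X h1 s hs
    have h2 : (T.card : ℝ) ≤ (((2 * H / X : ℕ) : ℝ) + 1) * (2 * (H : ℝ) + 1) ^ 3 := by exact_mod_cast h1
    have h3 : ((2 * H / X : ℕ) : ℝ) ≤ ((2 * H : ℕ) : ℝ) / ((X : ℕ) : ℝ) := Nat.cast_div_le
    have h4 : ((2 * H : ℕ) : ℝ) / ((X : ℕ) : ℝ) = 2 * H * (1 / (X : ℝ)) := by
      push_cast
      ring
    have hs0 : 0 ≤ s := le_trans (by positivity) hs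
    have h5 : ((2 * H / X : ℕ) : ℝ) ≤ 2 * H * s := by
      rw [h4] at h3
      exact h3.trans (mul_le_mul_of_nonneg_left hs (by positivity))
    calc (T.card : ℝ) ≤ (((2 * H / X : ℕ) : ℝ) + 1) * (2 * (H : ℝ) + 1) ^ 3 := h2
      _ ≤ (2 * H * s + 1) * (2 * (H : ℝ) + 1) ^ 3 := by gcongr
      _ = 1 * (2 * (H : ℝ) + 1) ^ 3 * (1 + 2 * H * s) := by ring
      _ ≤ (1 + Cp) * (2 * (H : ℝ) + 1) ^ 3 * (1 + 2 * H * s) := by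
        have : (1 : ℝ) ≤ 1 + Cp := by linarith
        gcongr
  by_cases hx : P.1 ≠ Q.1 ∧ P.1 * Q.1 ≠ 0
  · have e1 := wt_sq P.1 Q.1 hx
    have b1 := pair2x H P.1 P.2 Q.1 Q.2 N₁ N₂ hx.1 hx.2 T hT
    by_cases hy : P.2 ≠ Q.2 ∧ P.2 * Q.2 ≠ 0
    · have e2 := wt_sq P.2 Q.2 hy
      have b2 := pair2y H P.1 P.2 Q.1 Q.2 N₁ N₂ hy.1 hy.2 T hT
      rcases le_total (wt P.1 Q.1) (wt P.2 Q.2) with hle | hle
      · refine hcast _ b1 _ ?_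
        rw [← e1, sq]
        gcongr
      · refine hcast _ b2 _ ?_
        rw [← e2, sq]
        gcongr
    · have e2 : wt P.2 Q.2 = 1 := by
        unfold wt
        rw [if_neg hy]
      refine hcast _ b1 _ ?_
      rw [← e1, e2, mul_one, sq]
      nlinarith
  · have e1 : wt P.1 Q.1 = 1 := by
      unfold wt
      rw [if_neg hx]
    by_cases hy : P.2 ≠ Q.2 ∧ P.2 * Q.2 ≠ 0
    · have e2 := wt_sq P.2 Q.2 hy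
      have b2 := pair2y H P.1 P.2 Q.1 Q.2 N₁ N₂ hy.1 hy.2 T hT
      refine hcast _ b2 _ ?_
      rw [← e2, e1, one_mul, sq]
      nlinarith
    · have e2 : wt P.2 Q.2 = 1 := by
        unfold wt
        rw [if_neg hy]
      have h1 := pairs_ex 2 (by norm_num) H hH P Q N₁ N₂ hPQ T hT
      have hc6 : Fintype.card (Ix 2) = 6 := by rw [card_ix]
      rw [hc6, show 6 - 2 = 4 from rfl, show (2 : ℝ) ^ 6 = 64 by norm_num, ← hCpe] at h1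
      rw [e1, e2]
      calc (T.card : ℝ) ≤ Cp * (2 * (H : ℝ) + 1) ^ 4 := h1
        _ = Cp * (2 * (H : ℝ) + 1) ^ 3 * (1 + 2 * H * (1 * 1)) := by ring
        _ ≤ (1 + Cp) * (2 * (H : ℝ) + 1) ^ 3 * (1 + 2 * H * (1 * 1)) := by
          have : Cp ≤ 1 + Cp := by linarith
          gcongr

private theorem pairs2e : ∀ (H R : ℕ), 1 ≤ H → 1 ≤ R → ∀ (v : ℤ × ℤ → ℤ) (T : Finset (Ix 2 → ℤ)),
    (∀ c ∈ T, (∀ p, |c p| ≤ (H : ℤ)) ∧ ∃ P Q : ℤ × ℤ, P ≠ Q ∧ P ∈ bp R ∧ Q ∈ bp R ∧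
      ev 2 (co c) P.1 P.2 = v P ∧ ev 2 (co c) Q.1 Q.2 = v Q) →
    (T.card : ℝ) ≤ ((1 + 64) * 27 * 1250) * (H : ℝ) ^ 3 * ((R : ℝ) ^ 4 + H * (R : ℝ) ^ 2) := by
  classical
  have hp := pair2e
  obtain ⟨C, hCe, hC⟩ : ∃ C : ℝ, C = 1 + 64 ∧ 0 ≤ C := ⟨1 + 64, rfl, by norm_num⟩
  rw [← hCe] at hp ⊢
  intro H R hH hR v T hT
  have hH' : (1 : ℝ) ≤ H := by exact_mod_cast hH
  have hR' : (1 : ℝ) ≤ R := by exact_mod_cast hR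
  have h1 := dbl R (fun c P => ev 2 (co c) P.1 P.2 = v P) T (fun c hc => (hT c hc).2)
    (fun P Q => C * (2 * (H : ℝ) + 1) ^ 3 * (1 + 2 * H * (wt P.1 Q.1 * wt P.2 Q.2))) (by
    intro P _ Q _ hPQ T' hT'
    refine hp H hH P Q (v P) (v Q) hPQ T' fun c hc => ?_
    obtain ⟨h1, h2, h3⟩ := hT' c hc
    exact ⟨(hT c h1).1, h2, h3⟩)
  refine h1.trans ?_
  have hnn : ∀ P Q : ℤ × ℤ, 0 ≤ C * (2 * (H : ℝ) + 1) ^ 3 * (1 + 2 * H * (wt P.1 Q.1 * wt P.2 Q.2)) := by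
    intro P Q
    have hw1 := wt_pos P.1 Q.1
    have hw2 := wt_pos P.2 Q.2
    positivity
  have h2 : ∑ P ∈ bp R, ∑ Q ∈ (bp R).erase P, C * (2 * (H : ℝ) + 1) ^ 3 * (1 + 2 * H * (wt P.1 Q.1 * wt P.2 Q.2)) ≤
      ∑ P ∈ bp R, ∑ Q ∈ bp R, C * (2 * (H : ℝ) + 1) ^ 3 * (1 + 2 * H * (wt P.1 Q.1 * wt P.2 Q.2)) :=
    sum_le_sum fun P _ => sum_le_sum_of_subset_of_nonneg (erase_subset _ _) fun Q _ _ => hnn P Q
  refine h2.trans ?_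
  have h3 : ∑ P ∈ bp R, ∑ Q ∈ bp R, C * (2 * (H : ℝ) + 1) ^ 3 * (1 + 2 * H * (wt P.1 Q.1 * wt P.2 Q.2)) =
      C * (2 * (H : ℝ) + 1) ^ 3 * (((bp R).card : ℝ) ^ 2 + 2 * H * ∑ P ∈ bp R, ∑ Q ∈ bp R, wt P.1 Q.1 * wt P.2 Q.2) := by
    simp only [← mul_sum, sum_add_distrib, sum_const, nsmul_eq_mul, mul_one]
    ring
  rw [h3]
  have h4 : ∑ P ∈ bp R, ∑ Q ∈ bp R, wt P.1 Q.1 * wt P.2 Q.2 =
      (∑ x ∈ Icc (-(R : ℤ)) R, ∑ x' ∈ Icc (-(R : ℤ)) R, wt x x') * (∑ x ∈ Icc (-(R : ℤ)) R, ∑ x' ∈ Icc (-(R : ℤ)) R, wt x x') := by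
    unfold bp
    rw [sum_product, sum_mul_sum]
    refine sum_congr rfl fun a _ => sum_congr rfl fun b _ => ?_
    rw [sum_product, sum_mul_sum]
  have h5 := sum_wt R hR
  have h50 : 0 ≤ ∑ x ∈ Icc (-(R : ℤ)) R, ∑ x' ∈ Icc (-(R : ℤ)) R, wt x x' :=
    sum_nonneg fun x _ => sum_nonneg fun x' _ => (wt_pos x x').le
  have h6 : ∑ P ∈ bp R, ∑ Q ∈ bp R, wt P.1 Q.1 * wt P.2 Q.2 ≤ 625 * (R : ℝ) ^ 2 := by
    rw [h4]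
    calc _ ≤ (25 * (R : ℝ)) * (25 * R) := mul_le_mul h5 h5 h50 (by positivity)
      _ = _ := by ring
  have h7 : ((bp R).card : ℝ) ^ 2 ≤ 81 * (R : ℝ) ^ 4 := by
    rw [card_bp]
    push_cast
    have h8 : 2 * (R : ℝ) + 1 ≤ 3 * R := by linarith
    calc ((2 * (R : ℝ) + 1) ^ 2) ^ 2 ≤ ((3 * (R : ℝ)) ^ 2) ^ 2 := by gcongr
      _ = _ := by ring
  have h8 : (2 * (H : ℝ) + 1) ^ 3 ≤ 27 * (H : ℝ) ^ 3 := by
    have h9 : 2 * (H : ℝ) + 1 ≤ 3 * H := by linarith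
    calc (2 * (H : ℝ) + 1) ^ 3 ≤ (3 * (H : ℝ)) ^ 3 := by gcongr
      _ = _ := by ring
  have h60 : 0 ≤ ∑ P ∈ bp R, ∑ Q ∈ bp R, wt P.1 Q.1 * wt P.2 Q.2 :=
    sum_nonneg fun P _ => sum_nonneg fun Q _ => (mul_pos (wt_pos _ _) (wt_pos _ _)).le
  calc C * (2 * (H : ℝ) + 1) ^ 3 * (((bp R).card : ℝ) ^ 2 + 2 * H * ∑ P ∈ bp R, ∑ Q ∈ bp R, wt P.1 Q.1 * wt P.2 Q.2)
      ≤ C * (27 * (H : ℝ) ^ 3) * (81 * (R : ℝ) ^ 4 + 2 * H * (625 * (R : ℝ) ^ 2)) := by gcongr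
    _ ≤ C * (27 * (H : ℝ) ^ 3) * (1250 * ((R : ℝ) ^ 4 + H * (R : ℝ) ^ 2)) := by
      have h9 : 0 ≤ (R : ℝ) ^ 4 := by positivity
      refine mul_le_mul_of_nonneg_left ?_ (by positivity)
      linarith
    _ = _ := by ring

end

open Finset Polynomial Pool.Agent.H8.AA Pool.Agent.H88.A2 Pool.Agent.H88.TU Pool.Agent.H12.A3 Pool.Agent.H88.TX

theorem uqx_ex (n κ : ℕ) (hn : 4 ≤ n) (h : BgxS n κ) : UqxS n (4 * κ + 40) := by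
  have hpair := pairs2e
  obtain ⟨Cp, hCpe, hCp⟩ : ∃ Cp : ℝ, Cp = (1 + 64) * 27 * 1250 ∧ 0 ≤ Cp := ⟨_, rfl, by norm_num⟩
  rw [← hCpe] at hpair
  obtain ⟨k, hke, hk⟩ : ∃ k : ℕ, k = 40 ∧ 243 + 2 * Cp < 2 ^ k := ⟨40, rfl, by rw [hCpe]; norm_num⟩
  rw [← hke]
  intro B hB G hG hGB H hH
  have hB2 : (2 : ℝ) ≤ (B : ℝ) := by exact_mod_cast hB
  have hB1 : (1 : ℝ) ≤ (B : ℝ) := by linarith
  have hH' : (1 : ℝ) ≤ (H : ℝ) := by exact_mod_cast hH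
  have hH0 : (0 : ℝ) < (H : ℝ) := by linarith
  obtain ⟨A, hA⟩ : ∃ A : ℝ, A = (B : ℝ) ^ κ := ⟨_, rfl⟩
  have hA1 : 1 ≤ A := by
    rw [hA]
    exact one_le_pow₀ hB1
  have hA0 : (0 : ℝ) < A := by linarith
  have hnr : (0 : ℝ) < ((n - 2 : ℕ) : ℝ) := by exact_mod_cast (by omega : 0 < n - 2)
  obtain ⟨S, hS⟩ : ∃ S : ℝ, S = (H : ℝ) ^ (1 / ((n - 2 : ℕ) : ℝ)) := ⟨_, rfl⟩
  have hS1 : 1 ≤ S := by rw [hS]; exact Real.one_le_rpow hH' (by positivity)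
  have hS0 : 0 < S := by linarith
  have hSH : S ^ (n - 2) = H := by
    rw [hS, ← Real.rpow_natCast, ← Real.rpow_mul hH0.le, one_div, inv_mul_cancel₀ hnr.ne', Real.rpow_one]
  have hS2 : S ^ 2 ≤ H := by
    rw [← hSH]
    exact pow_le_pow_right₀ hS1 (by omega)
  have hS4 : S ^ 4 ≤ (H : ℝ) ^ 2 := by
    calc S ^ 4 = (S ^ 2) ^ 2 := by ring
      _ ≤ (H : ℝ) ^ 2 := pow_le_pow_left₀ (by positivity) hS2 2
  rw [← hS]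
  have hpw : (B : ℝ) ^ κ ≤ (B : ℝ) ^ (4 * κ + k) := pow_le_pow_right₀ hB1 (by omega)
  have hmono : (Pool.Agent.H82.TO.bad 2 G H ((B : ℝ) ^ (4 * κ + k) * S) : ℝ) ≤
      (Pool.Agent.H82.TO.bad 2 G H (A * S) : ℝ) := by
    exact Nat.cast_le.2 (Pool.Agent.H82.TO.bad_mono 2 G H (mul_le_mul_of_nonneg_right (by rw [hA]; exact hpw) hS0.le))
  refine hmono.trans ?_
  obtain ⟨Tb, Tp, hle, hb, hp⟩ := Pool.Agent.H82.TO.bad_split 2 G H (A * S) (by positivity)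
  have hle' : (Pool.Agent.H82.TO.bad 2 G H (A * S) : ℝ) ≤ Tb.card + Tp.card := by exact_mod_cast hle
  have hc1 := h B hB G hG hGB H S hH hS1 hSH Tb (fun c hc => by
    obtain ⟨h1, P, h2, h3⟩ := hb c hc
    refine ⟨h1, P, h2, ?_⟩
    rw [← hA]
    exact h3)
  rw [← hA] at hc1
  have hTS1 : 1 ≤ A * S := by nlinarith
  have hR1 : 1 ≤ ⌊A * S⌋₊ := Nat.floor_pos.2 hTS1
  have hc2 := hpair H ⌊A * S⌋₊ hH hR1 (fun P => - MvPolynomial.eval ![P.1, P.2] G) Tp hp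
  obtain ⟨r, hr⟩ : ∃ r : ℝ, r = ((⌊A * S⌋₊ : ℕ) : ℝ) := ⟨_, rfl⟩
  rw [← hr] at hc2
  have hr0 : 0 ≤ r := by rw [hr]; positivity
  have hrle : r ≤ A * S := by rw [hr]; exact Nat.floor_le (by positivity)
  have hK3 : 2 * (H : ℝ) + 1 ≤ 3 * H := by linarith
  have hA4 : A ≤ A ^ 4 := le_self_pow₀ hA1 (by norm_num)
  have f1 : (Tb.card : ℝ) ≤ 243 * A ^ 4 * (H : ℝ) ^ 5 := by
    refine hc1.trans ?_
    have e3 : (2 * (H : ℝ) + 1) ^ 5 ≤ 243 * (H : ℝ) ^ 5 := by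
      calc (2 * (H : ℝ) + 1) ^ 5 ≤ (3 * H) ^ 5 := pow_le_pow_left₀ (by positivity) hK3 5
        _ = _ := by ring
    calc A * (2 * (H : ℝ) + 1) ^ 5 ≤ A ^ 4 * (243 * (H : ℝ) ^ 5) :=
          mul_le_mul hA4 e3 (by positivity) (by positivity)
      _ = _ := by ring
  have f2 : (Tp.card : ℝ) ≤ 2 * Cp * A ^ 4 * (H : ℝ) ^ 5 := by
    refine hc2.trans ?_
    have e1 : r ^ 4 ≤ A ^ 4 * (H : ℝ) ^ 2 := by
      calc r ^ 4 ≤ (A * S) ^ 4 := pow_le_pow_left₀ hr0 hrle 4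
        _ = A ^ 4 * S ^ 4 := by ring
        _ ≤ A ^ 4 * (H : ℝ) ^ 2 := by gcongr
    have e2 : r ^ 2 ≤ A ^ 4 * H := by
      calc r ^ 2 ≤ (A * S) ^ 2 := pow_le_pow_left₀ hr0 hrle 2
        _ = A ^ 2 * S ^ 2 := by ring
        _ ≤ A ^ 4 * H := by
          refine mul_le_mul (pow_le_pow_right₀ hA1 (by norm_num)) hS2 (by positivity) (by positivity)
    calc Cp * (H : ℝ) ^ 3 * (r ^ 4 + H * r ^ 2) ≤ Cp * (H : ℝ) ^ 3 * (A ^ 4 * (H : ℝ) ^ 2 + H * (A ^ 4 * H)) := by gcongr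
      _ = _ := by ring
  refine hle'.trans ?_
  have hAB : A ^ 4 = (B : ℝ) ^ (4 * κ) := by
    rw [hA, ← pow_mul, Nat.mul_comm]
  have h2k : (2 : ℝ) ^ k ≤ (B : ℝ) ^ k := pow_le_pow_left₀ (by norm_num) hB2 k
  calc (Tb.card : ℝ) + Tp.card ≤ 243 * A ^ 4 * (H : ℝ) ^ 5 + 2 * Cp * A ^ 4 * (H : ℝ) ^ 5 := add_le_add f1 f2
    _ = A ^ 4 * (243 + 2 * Cp) * (H : ℝ) ^ 5 := by ring
    _ ≤ A ^ 4 * (B : ℝ) ^ k * (H : ℝ) ^ 5 := by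
        refine mul_le_mul_of_nonneg_right ?_ (by positivity)
        exact mul_le_mul_of_nonneg_left (hk.le.trans h2k) (by positivity)
    _ = (B : ℝ) ^ (4 * κ + k) * (H : ℝ) ^ 5 := by rw [hAB, pow_add]

end Pool.Agent.H88.TY
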