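import Pool.Agent.H88.TY.Effe
import Pool.Agent.H88.TY.Num
import Pool.Agent.H88.TY.Arxe
import Pool.Agent.H88.TY.Chxe
import Pool.Agent.H88.TY.Bgxe
import Pool.Agent.H88.TY.Fexe
import Pool.Agent.H88.TY.Nlxe
import Pool.Agent.H88.TY.Nere
import Pool.Agent.H88.TY.Uqxe
import Pool.Agent.H88.TY.Mo2e
import Pool.Agent.H88.TY.Loxe
import Pool.Agent.H88.TY.Ncd
import Pool.Agent.H88.TY.Wnd
import Pool.Agent.H88.TY.Dgd
import Pool.Agent.H88.TY.Nrd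
import Pool.Agent.H88.TY.Fad
import Pool.Agent.H88.TY.Te1e
import Pool.Agent.H88.TX.All

/-! # [H88 TY FINE] The effective statement in every stratum with the constant `B ^ (n ^ 17)`, `n ≥ 5` -/

namespace Pool.Agent.H88.TY

open Finset MvPolynomial Pool.Agent.H8.AA Pool.Agent.H88.A2 Pool.Agent.H82.TO Pool.Agent.H88.TX

theorem far2 (n : ℕ) (hn : 5 ≤ n) : Fx2S n (1200 * n ^ 5) (1921 * n ^ 3) := by
  have h := fad (nrd (wnd Pool.Agent.H88.TF.exr (Pool.Agent.H88.TF.ncr Pool.Agent.H88.TF.cbl Pool.Agent.H88.TF.cbg)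
    (ncd Pool.Agent.H88.TF.cbl Pool.Agent.H88.TF.cbg)) dgd) n hn
  intro G hG B H hB hGB hH T hT
  have h1 := h G hG B H hB hGB hH T hT
  have hcard : Fintype.card (Ix 2) - 1 = 5 := by
    rw [card_ix]
  rw [hcard]
  have hH' : (1 : ℝ) ≤ (H : ℝ) := by exact_mod_cast hH
  refine h1.trans (mul_le_mul_of_nonneg_left (pow_le_pow_right₀ (by linarith) (by norm_num)) (Nat.cast_nonneg _))

theorem bgx2 (n : ℕ) (hn : 5 ≤ n) : BgxS n (kB n) :=
  bgx_ex n (1200 * n ^ 5) (1921 * n ^ 3) _ _ _ _ (by omega) (far2 n hn)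
    (chx_ex n (1200 * n ^ 5) (kA n) (by omega) (arx_ex n (7 * n + 16) (5 * n + 9) (by omega) (nlx_ex n (by omega)) (fex_ex n)))
    (ner_ex n _ (by omega))

theorem hk2 (κ : ℕ) : 486 + 27 * (((2 ^ 20 : ℕ) : ℕ) : ℝ) * (5 + 2 * (κ : ℝ)) < 2 ^ (κ + 30) := by
  have h1 : (κ : ℝ) + 1 ≤ 2 ^ κ := by
    have : κ < 2 ^ κ := Nat.lt_two_pow_self
    exact_mod_cast this
  have h0 : (0 : ℝ) ≤ κ := Nat.cast_nonneg κ
  have h2 : (2 : ℝ) ^ (κ + 30) = 1073741824 * 2 ^ κ := by rw [pow_add]; norm_num; ring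
  rw [h2]
  push_cast
  nlinarith

theorem eff2x (n : ℕ) (hn : 5 ≤ n) : EffS n 2 (n ^ 17) := by
  have hb := bgx2 n hn
  have hc := cnt2_ex n (kB n) (2 ^ 20) (kB n + 30) (by omega) hb mo2_ex (hk2 (kB n))
  have hu := uqx_ex n (kB n) (by omega) hb
  have ho := loc2_ex n _ _ hc hu
  have h1 := eff2_ex n _ _ _ hc ho (lox_ex n (by omega))
  refine h1.mono ?_
  have h1 := kB_le n hn
  have h2 := pow17 n hn
  have h3 : n ≤ n ^ 7 := Nat.le_self_pow (by norm_num) n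
  have h4 : 78125 ≤ n ^ 7 := by
    calc 78125 = 5 ^ 7 := by norm_num
      _ ≤ n ^ 7 := Nat.pow_le_pow_left hn 7
  omega

theorem eff1x (n : ℕ) (hn : 5 ≤ n) : EffS n 1 (n ^ 17) := by
  have hk : 1 + 40 * (n : ℝ) ^ 2 < 2 ^ (2 * n + 8) := by
    have h1 : (n : ℝ) ≤ 2 ^ n := by
      have : n < 2 ^ n := Nat.lt_two_pow_self
      exact_mod_cast this.le
    have h2 : (2 : ℝ) ^ (2 * n + 8) = 256 * (2 ^ n) ^ 2 := by rw [pow_add, mul_comm 2 n, pow_mul]; norm_num; ring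
    rw [h2]
    have h3 : (1 : ℝ) ≤ 2 ^ n := one_le_pow₀ (by norm_num)
    nlinarith [sq_nonneg (n : ℝ)]
  have h1 := eff1_ex n _ (2 * n + 8) (by omega) (Pool.Agent.H82.TE.te1_ex n (by omega)) hk
  refine h1.mono (exp1 n _ hn ?_)
  exact Nat.mul_le_mul (by norm_num) (Nat.pow_le_pow_right (by omega) (by norm_num))

theorem effx (n j : ℕ) (hn : 5 ≤ n) (hj : 1 ≤ j) (hjn : j < n) : EffS n j (n ^ 17) := by
  rcases Nat.lt_or_ge j 3 with h | h
  · interval_cases j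
    · exact eff1x n hn
    · exact eff2x n hn
  · exact (eff3_ex n j hn h hjn).mono (exp3 n hn)

theorem cou_mono {n j : ℕ} {G : MvPolynomial (Fin 2) ℤ} {W W' : ℝ} (h : Pool.Agent.H88.TU.Cou n j G W) (hW : W ≤ W') :
    Pool.Agent.H88.TU.Cou n j G W' := by
  intro H hH
  obtain ⟨h1, h2, h3⟩ := h H hH
  have hH' : (1 : ℝ) ≤ (H : ℝ) := by exact_mod_cast hH
  have e0 : 0 ≤ (H : ℝ) ^ (-(1 / (2 * (n : ℝ) + 4))) := by positivity
  have e1 : 0 ≤ (2 * (H : ℝ) + 1) ^ ((j + 1) * (j + 2) / 2 - 1) := by positivity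
  refine ⟨h1.trans (mul_le_mul_of_nonneg_right (mul_le_mul_of_nonneg_right hW e0) e1),
    h2.trans (mul_le_mul_of_nonneg_right (mul_le_mul_of_nonneg_right hW e0) e1), fun T hT => ?_⟩
  refine (h3 T hT).trans (mul_le_mul_of_nonneg_right (mul_le_mul_of_nonneg_right hW ?_) e1)
  positivity

/-- the effective statement with one constant -/
theorem finx : ∃ q : ℕ → ℕ, (∀ n, 5 ≤ n → q n = n ^ 17) ∧
    ∀ (n j : ℕ) (G : MvPolynomial (Fin 2) ℤ), Hyp0 n j G → ∃ W : ℝ, 2 ≤ W ∧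
    (5 ≤ n ∨ j ≤ 2 → ∀ B : ℕ, 2 ≤ B → (∀ m, |G.coeff m| < (B : ℤ)) → W ≤ (B : ℝ) ^ q n) ∧ Eff n j G W ∧
    (3 ≤ j → Pool.Agent.H88.TU.Cou n j G W) := by
  classical
  obtain ⟨q, hq⟩ := Pool.Agent.H88.TX.fin
  refine ⟨fun n => if 5 ≤ n then n ^ 17 else q n, fun n hn => if_pos hn, ?_⟩
  intro n j G hG
  have hn := hG.hn
  by_cases h5 : 5 ≤ n
  · simp only [if_pos h5]
    have hex := Pool.Agent.H88.A2.exists_bound G
    obtain ⟨B0, hB0⟩ : ∃ B0 : ℕ, B0 = Nat.find hex := ⟨_, rfl⟩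
    have hs : 2 ≤ B0 ∧ ∀ m, |G.coeff m| + 1 ≤ (B0 : ℤ) := by rw [hB0]; exact Nat.find_spec hex
    have hB2 : (2 : ℝ) ≤ B0 := by exact_mod_cast hs.1
    have hB1 : (1 : ℝ) ≤ B0 := by linarith
    have hn17 : 1 ≤ n ^ 17 := Nat.one_le_pow _ _ (by omega)
    refine ⟨(B0 : ℝ) ^ (n ^ 17), hB2.trans (le_self_pow₀ hB1 (by omega)), ?_, effx n j h5 hG.hj hG.hjn B0 hs.1 G hG hs.2, ?_⟩
    · intro _ B hB hGB
      have h3 : B0 ≤ B := by
        rw [hB0]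
        exact Nat.find_min' hex ⟨hB, fun m => by have := hGB m; omega⟩
      exact pow_le_pow_left₀ (by linarith) (by exact_mod_cast h3) _
    · intro h3
      obtain ⟨W, hW, hC⟩ := Pool.Agent.H88.TF.wcf n j G hn h3 hG.hjn hG.deg hG.irr
      refine cou_mono hC ((hW h5 B0 hs.1 fun m => by have := hs.2 m; omega).trans ?_)
      exact pow_le_pow_right₀ hB1 (Nat.pow_le_pow_right (by omega) (by norm_num))
  · simp only [if_neg h5]
    obtain ⟨W, hW2, hW, hE⟩ := hq n j G hG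
    by_cases h3 : 3 ≤ j
    · obtain ⟨W3, _, hC⟩ := Pool.Agent.H88.TF.wcf n j G hn h3 hG.hjn hG.deg hG.irr
      refine ⟨max W W3, hW2.trans (le_max_left _ _), fun h => ?_, hE.mono (by linarith) (le_max_left _ _), fun _ =>
        cou_mono hC (le_max_right _ _)⟩
      rcases h with h | h <;> omega
    · exact ⟨W, hW2, hW, hE, fun h => absurd h h3⟩

end Pool.Agent.H88.TY
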