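import Pool.Agent.H88.TY.Def

/-! # [H88 TY NRD] Bounded exceptions in a fibre over the terms of degree `≥ 2`, contact `r ≤ n - 2`

Copy of H88/TF/Nrr.lean (helper96) with `WndS`, `DgdS` for `WnrS`, `DgrS`, `1920` for `480` and `2 ≤ natDegree` for `3 ≤ natDegree`. The condition
passes from `G` to a member `F0` (`F0 - G` of degree `≤ 1`: the two polynomials in `X` differ by degree `≤ 1`, so `2 ≤ natDegree` passes) and to `nrm n F0`. -/

namespace Pool.Agent.H88.TY

open Finset Polynomial Pool.Agent.H72.ES Pool.Agent.H88.TF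

private theorem top4_of_top2 {n : ℕ} (hn : 5 ≤ n) {F G : ℕ → ℕ → ℤ} (h : Top2 n F G) :
    Top4 n F G := fun i j hij _ => h i j hij (by omega)

private theorem top2_nrm {n : ℕ} (hn : 2 ≤ n) {F G : ℕ → ℕ → ℤ} (h : Top2 n F G) :
    Top2 n (nrm n F) (nrm n G) := by
  intro i j hij h2
  have h0 : F 0 n = G 0 n := h 0 n (by omega) (by omega)
  by_cases hj : j = n
  · simp [nrm, hj]
  · simp only [nrm, hj, if_false]
    rw [h0, h i j hij h2]

private theorem ev_nrm' {S : Type*} [CommRing S] {n : ℕ} (hn : 1 ≤ n) (G : ℕ → ℕ → ℤ) (x y : S) :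
    ev n (cst S (nrm n G)) x (((G 0 n : ℤ) : S) * y) =
      ((G 0 n : ℤ) : S) ^ (n - 1) * ev n (cst S G) x y := by
  unfold ev
  rw [mul_sum]
  refine sum_congr rfl fun i hi => ?_
  rw [mul_sum]
  refine sum_congr rfl fun j hj => ?_
  simp only [mem_range] at hi hj
  have h := nrm_mul_pow hn G i j (by omega)
  have h' : ((nrm n G i j : ℤ) : S) * ((G 0 n : ℤ) : S) ^ j =
      ((G 0 n : ℤ) : S) ^ (n - 1) * ((G i j : ℤ) : S) := by
    rw [← Int.cast_pow, ← Int.cast_mul, h]
    push_cast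
    ring
  simp only [cst]
  rw [mul_pow]
  linear_combination x ^ i * y ^ j * h'

private theorem deg_nrm {n : ℕ} (hn : 1 ≤ n) {G : ℕ → ℕ → ℤ} (ha : G 0 n ≠ 0)
    (hdeg : ∀ t b : ℝ, 2 ≤ (ev n (cst ℝ[X] G) X (C t * X + C b)).natDegree) (t b : ℝ) :
    2 ≤ (ev n (cst ℝ[X] (nrm n G)) X (C t * X + C b)).natDegree := by
  have haR : ((G 0 n : ℤ) : ℝ) ≠ 0 := by exact_mod_cast ha
  set a : ℝ := ((G 0 n : ℤ) : ℝ) with hadef
  have e1 : ((G 0 n : ℤ) : ℝ[X]) = C a := by
    rw [hadef]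
    simp
  have e2 : C t * X + C b = ((G 0 n : ℤ) : ℝ[X]) * (C (t / a) * X + C (b / a)) := by
    rw [e1, mul_add, ← mul_assoc, ← C_mul, ← C_mul]
    congr 2
    · congr 2
      field_simp
    · field_simp
  rw [e2, ev_nrm' hn, e1, ← C_pow, natDegree_C_mul (pow_ne_zero _ haR)]
  exact hdeg _ _

private theorem deg_top2 {n : ℕ} {F G : ℕ → ℕ → ℤ} (h : Top2 n F G) (t b : ℝ)
    (hG : 2 ≤ (ev n (cst ℝ[X] G) X (C t * X + C b)).natDegree) :
    2 ≤ (ev n (cst ℝ[X] F) X (C t * X + C b)).natDegree := by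
  set A := ev n (cst ℝ[X] G) X (C t * X + C b) with hA
  set B := ev n (cst ℝ[X] F) X (C t * X + C b) with hB
  have hlin : (C t * X + C b : ℝ[X]).natDegree ≤ 1 := natDegree_linear_le
  have hd : (B - A).natDegree ≤ 1 := by
    have e : B - A = ∑ i ∈ range (n + 1), ∑ j ∈ range (n + 1 - i),
        ((F i j - G i j : ℤ) : ℝ[X]) * X ^ i * (C t * X + C b) ^ j := by
      rw [hA, hB]
      unfold ev
      rw [← sum_sub_distrib]
      refine sum_congr rfl fun i _ => ?_
      rw [← sum_sub_distrib]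
      refine sum_congr rfl fun j _ => ?_
      simp only [cst]
      push_cast
      ring
    rw [e]
    refine natDegree_sum_le_of_forall_le _ _ fun i hi => ?_
    refine natDegree_sum_le_of_forall_le _ _ fun j hj => ?_
    simp only [mem_range] at hi hj
    by_cases h2 : 2 ≤ i + j
    · rw [h i j (by omega) h2]
      simp
    · refine natDegree_mul_le.trans ?_
      have k1 : (((F i j - G i j : ℤ) : ℝ[X]) * X ^ i).natDegree ≤ i := by
        refine natDegree_mul_le.trans ?_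
        have := natDegree_X_pow_le (R := ℝ) i
        have h0 : (((F i j - G i j : ℤ) : ℝ[X])).natDegree = 0 := natDegree_intCast _
        omega
      have k2 : ((C t * X + C b : ℝ[X]) ^ j).natDegree ≤ j * 1 :=
        natDegree_pow_le_of_le j hlin
      omega
  have e3 : B = A + (B - A) := by ring
  rw [e3, natDegree_add_eq_left_of_natDegree_lt (lt_of_le_of_lt hd (by omega))]
  exact hG

private theorem main_count2 (h1 : WndS) (h2 : DgdS) {n H : ℕ} (hn : 5 ≤ n) (hH : 2 ≤ H)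
    (G : ℕ → ℕ → ℤ) (hG : ∀ i j, i + j ≤ n → |G i j| ≤ (H : ℤ)) (ha : G 0 n ≠ 0)
    (hirr : Irreducible (leadQ n G))
    (hdeg : ∀ t b : ℝ, 2 ≤ (ev n (cst ℝ[X] G) X (C t * X + C b)).natDegree)
    (S : Finset (ℤ × ℤ))
    (hS : ∀ P ∈ S, (H : ℤ) ^ (600 * n ^ 5) < max |P.1| |P.2| ∧
      ∃ F : ℕ → ℕ → ℤ, (∀ i j, i + j ≤ n → |F i j| ≤ (H : ℤ)) ∧ Top2 n F G ∧
        ev n F P.1 P.2 = 0) :
    S.card ≤ 1920 * n ^ 3 := by
  classical
  have hn4 : 4 ≤ n := by omega
  set a := G 0 n with hadef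
  have hirr' := lead_nrm_irreducible (by omega : 1 ≤ n) G ha hirr
  set g : ℤ × ℤ → ℤ × ℤ := fun P => (P.1, a * P.2) with hg
  have hginj : Function.Injective g := by
    intro P P' h
    simp only [hg, Prod.mk.injEq] at h
    exact Prod.ext h.1 (mul_left_cancel₀ ha h.2)
  have hmax : ∀ P : ℤ × ℤ, max |P.1| |P.2| ≤ max |P.1| |a * P.2| := by
    intro P
    refine max_le_max le_rfl ?_
    rw [abs_mul]
    have : 1 ≤ |a| := Int.one_le_abs ha
    nlinarith [abs_nonneg P.2]
  rw [← card_image_of_injective S hginj]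
  have hN : Norml n (2 * H ^ n) (lead n (nrm n G)) (nrm n G) :=
    norml_nrm hn4 hH (fun i j _ _ => rfl) hG
  refine h1 n (2 * H ^ n) (lead n (nrm n G)) (nrm n G) hn hN hirr'
    (h2 n _ _ _ hn hN (deg_nrm (by omega) ha hdeg)) (S.image g) ?_ ?_
  · intro P hP
    obtain ⟨R, hR, rfl⟩ := mem_image.1 hP
    obtain ⟨_, F, hF, hFG, h0⟩ := hS R hR
    refine ⟨nrm n F, norml_nrm hn4 hH (top4_of_top2 hn hFG) hF, top2_nrm (by omega) hFG, ?_⟩
    have hF0 : F 0 n = a := hFG 0 n (by omega) (by omega)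
    have h3 := ev_nrm (by omega : 1 ≤ n) F R.1 R.2
    rw [hF0] at h3
    simp only [hg]
    rw [h3, h0, mul_zero]
  · intro P hP
    obtain ⟨R, hR, rfl⟩ := mem_image.1 hP
    have h3 : (((H : ℤ) ^ (600 * n ^ 5) : ℤ) : ℝ) ≤ ((max |(g R).1| |(g R).2| : ℤ) : ℝ) := by
      exact_mod_cast ((hS R hR).1.le.trans (hmax R))
    refine le_trans (threshold_le hn4 hH) ?_
    push_cast at h3 ⊢
    exact h3

private theorem top2_arrM {n : ℕ} {F G : MvPolynomial (Fin 2) ℤ}
    (h : (F - G).totalDegree ≤ 1) : Top2 n (arrM F) (arrM G) := by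
  intro i j _ h2
  have h1 := arrM_supp h i j (by omega)
  have h2 : arrM (F - G) i j = arrM F i j - arrM G i j := by
    simp [arrM]
  rw [h2] at h1
  linarith

theorem nrd (h1 : WndS) (h2 : DgdS) : NrdS := by
  intro n H hn hH G hdeg hirr hcon T hT
  classical
  by_cases hne : T.Nonempty
  · obtain ⟨q0, hq0⟩ := hne
    set F0 := q0.1 with hF0
    obtain ⟨ha, hirr'⟩ := leadQ_of_irreducible (by omega : 2 ≤ n) hirr
    have hF0G : Top2 n (arrM F0) (arrM G) := top2_arrM (hT q0 hq0).1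
    have hdegG : ∀ t b : ℝ, 2 ≤ (ev n (cst ℝ[X] (arrM G)) X (C t * X + C b)).natDegree := by
      intro t b
      have h3 := hcon t b
      have h4 : MvPolynomial.aeval ![X, C t * X + C b] G =
          ev n (cst ℝ[X] (arrM G)) X (C t * X + C b) := by
        rw [← eval₂_arrM hdeg.le, MvPolynomial.aeval_def]
        congr 1
      rw [h4] at h3
      exact h3
    have hle : leadQ n (arrM F0) = leadQ n (arrM G) := by
      unfold leadQ
      refine sum_congr rfl fun j hj => ?_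
      simp only [mem_range] at hj
      rw [hF0G (n - j) j (by omega) (by omega)]
    have ha0 : arrM F0 0 n ≠ 0 := by
      rw [hF0G 0 n (by omega) (by omega)]
      exact ha
    have hirr0 : Irreducible (leadQ n (arrM F0)) := by
      rw [hle]
      exact hirr'
    have hdegT : ∀ q ∈ T, q.1.totalDegree ≤ n := fun q hq =>
      totalDegree_le_of_sub hdeg.le (by omega) (hT q hq).1
    have htop : ∀ q ∈ T, Top2 n (arrM q.1) (arrM F0) := by
      intro q hq i j hij h5
      rw [top2_arrM (n := n) (hT q hq).1 i j hij h5, hF0G i j hij h5]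
    have hinj : Set.InjOn (fun q : MvPolynomial (Fin 2) ℤ × (ℤ × ℤ) => q.2) T := by
      intro q hq r hr hqr
      have hq' : q ∈ T := hq
      have hr' : r ∈ T := hr
      simp only at hqr
      have h3 : arrM q.1 = arrM r.1 := by
        refine shared_point (by omega) hH (arrM F0) ha0 hirr0 (arrM q.1) (arrM r.1)
          (fun i j _ => (hT q hq').2.1 _) (fun i j _ => (hT r hr').2.1 _)
          (top4_of_top2 hn (htop q hq')) (top4_of_top2 hn (htop r hr'))
          (arrM_supp (hdegT q hq')) (arrM_supp (hdegT r hr')) q.2 (hT q hq').2.2.2 ?_ ?_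
        · rw [← eval_arrM (hdegT q hq')]
          exact (hT q hq').2.2.1
        · rw [hqr, ← eval_arrM (hdegT r hr')]
          exact (hT r hr').2.2.1
      exact Prod.ext (arrM_inj h3) hqr
    rw [← card_image_of_injOn hinj]
    refine main_count2 h1 h2 hn hH (arrM F0) (fun i j _ => (hT q0 hq0).2.1 _) ha0 hirr0
      (fun t b => deg_top2 hF0G t b (hdegG t b)) _ ?_
    intro P hP
    obtain ⟨q, hq, rfl⟩ := mem_image.1 hP
    refine ⟨(hT q hq).2.2.2, arrM q.1, fun i j _ => (hT q hq).2.1 _, htop q hq, ?_⟩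
    rw [← eval_arrM (hdegT q hq)]
    exact (hT q hq).2.2.1
  · rw [not_nonempty_iff_eq_empty] at hne
    rw [hne]
    simp

end Pool.Agent.H88.TY
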